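import Pool.Agent.helper91.SX.Def

/-! Squares inscribed in the 16-gon: classes of edge quadruples, part 0. -/

namespace Six

theorem q_0_0_0_0 {m : ℝ} (hm : 0 ≤ m) : Q m .e0 .e0 .e0 .e0 := by
  refine sing ?_
  have h : dx m .e0 ^ 2 + dy m .e0 ^ 2 = (3*m + 19)^2 + (3)^2 := by
    simp only [dx, dy] <;> ring
  rw [h]; positivity

theorem q_0_0_0_1 {m : ℝ} (hm : 0 ≤ m) : Q m .e0 .e0 .e0 .e1 := by
  intro t0 t1 t2 t3 a0 b0 a1 b1 a2 b2 a3 b3 h1 h2 h3 h4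
  simp only [px, py, dx, dy] at h1 h2 h3 h4 ⊢
  have wx : (9*m^2 + 114*m + 370)*((-5) + t1*(-3*m - 19) - ((-5) + t0*(-3*m - 19))) = 0 := by
    linear_combination (9*m + 57)*h1 + (-9*m^2 - 114*m - 361)*h2 + (9*m + 57)*h3 + (-9*m^2 - 114*m - 361)*h4
  have Dx : (0:ℝ) < (9*m^2 + 114*m + 370) := by positivity
  have wy : (9*m^2 + 114*m + 370)*((0) + t1*(-3) - ((0) + t0*(-3))) = 0 := by
    linear_combination 9*h1 + (-9*m - 57)*h2 + 9*h3 + (-9*m - 57)*h4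
  have Dy : (0:ℝ) < (9*m^2 + 114*m + 370) := by positivity
  exact Or.inl ⟨sub_eq_zero.mp ((mul_eq_zero.mp wx).resolve_left Dx.ne'),
    sub_eq_zero.mp ((mul_eq_zero.mp wy).resolve_left Dy.ne')⟩

theorem q_0_0_0_14 {m : ℝ} (hm : 0 ≤ m) : Q m .e0 .e0 .e0 .e14 := by
  intro t0 t1 t2 t3 a0 b0 a1 b1 a2 b2 a3 b3 h1 h2 h3 h4
  simp only [px, py, dx, dy] at h1 h2 h3 h4 ⊢
  exfalso
  have h : (9*m^2 + 123*m + 418)*(1 - t3) + (9*m + 52) = 0 := by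
    linear_combination 3*h1 + (-3*m - 19)*h2
  have h5 : (0:ℝ) ≤ (9*m^2 + 123*m + 418)*(1 - t3) := mul_nonneg (by positivity) (by linarith)
  have h6 : (0:ℝ) < (9*m + 52) := by positivity
  linarith

theorem q_0_0_0_15 {m : ℝ} (hm : 0 ≤ m) : Q m .e0 .e0 .e0 .e15 := by
  intro t0 t1 t2 t3 a0 b0 a1 b1 a2 b2 a3 b3 h1 h2 h3 h4
  simp only [px, py, dx, dy] at h1 h2 h3 h4 ⊢
  have wx : (9*m^2 + 114*m + 370)*((-5) + t1*(-3*m - 19) - ((-5) + t0*(-3*m - 19))) = 0 := by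
    linear_combination (9*m + 57)*h1 + (-9*m^2 - 114*m - 361)*h2 + (9*m + 57)*h3 + (-9*m^2 - 114*m - 361)*h4
  have Dx : (0:ℝ) < (9*m^2 + 114*m + 370) := by positivity
  have wy : (9*m^2 + 114*m + 370)*((0) + t1*(-3) - ((0) + t0*(-3))) = 0 := by
    linear_combination 9*h1 + (-9*m - 57)*h2 + 9*h3 + (-9*m - 57)*h4
  have Dy : (0:ℝ) < (9*m^2 + 114*m + 370) := by positivity
  exact Or.inl ⟨sub_eq_zero.mp ((mul_eq_zero.mp wx).resolve_left Dx.ne'),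
    sub_eq_zero.mp ((mul_eq_zero.mp wy).resolve_left Dy.ne')⟩

theorem q_0_0_1_1 {m : ℝ} (hm : 0 ≤ m) : Q m .e0 .e0 .e1 .e1 := by
  intro t0 t1 t2 t3 a0 b0 a1 b1 a2 b2 a3 b3 h1 h2 h3 h4
  simp only [px, py, dx, dy] at h1 h2 h3 h4 ⊢
  have wx : (6*m^2 + 80*m + 271)*((-5) + t1*(-3*m - 19) - ((-5) + t0*(-3*m - 19))) = 0 := by
    linear_combination (-6*m^2 - 77*m - 247)*h1 + (-3*m^2 - 43*m - 152)*h2
  have Dx : (0:ℝ) < (6*m^2 + 80*m + 271) := by positivity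
  have wy : (6*m^2 + 80*m + 271)*((0) + t1*(-3) - ((0) + t0*(-3))) = 0 := by
    linear_combination (-6*m - 39)*h1 + (-3*m - 24)*h2
  have Dy : (0:ℝ) < (6*m^2 + 80*m + 271) := by positivity
  exact Or.inl ⟨sub_eq_zero.mp ((mul_eq_zero.mp wx).resolve_left Dx.ne'),
    sub_eq_zero.mp ((mul_eq_zero.mp wy).resolve_left Dy.ne')⟩

theorem q_0_0_15_14 {m : ℝ} (hm : 0 ≤ m) : Q m .e0 .e0 .e15 .e14 := by
  intro t0 t1 t2 t3 a0 b0 a1 b1 a2 b2 a3 b3 h1 h2 h3 h4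
  simp only [px, py, dx, dy] at h1 h2 h3 h4 ⊢
  exfalso
  have h : (54*m^4 + 1458*m^3 + 14751*m^2 + 66236*m + 111276)*(1 - t3) + (81*m^2 + 936*m + 2704) = 0 := by
    linear_combination (-9*m^2 - 114*m - 370)*h1 + (-18*m^3 - 327*m^2 - 1994*m - 4070)*h2 + (-27*m - 156)*h3 + (27*m^2 + 327*m + 988)*h4
  have h5 : (0:ℝ) ≤ (54*m^4 + 1458*m^3 + 14751*m^2 + 66236*m + 111276)*(1 - t3) := mul_nonneg (by positivity) (by linarith)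
  have h6 : (0:ℝ) < (81*m^2 + 936*m + 2704) := by positivity
  linarith

theorem q_0_0_15_15 {m : ℝ} (hm : 0 ≤ m) : Q m .e0 .e0 .e15 .e15 := by
  intro t0 t1 t2 t3 a0 b0 a1 b1 a2 b2 a3 b3 h1 h2 h3 h4
  simp only [px, py, dx, dy] at h1 h2 h3 h4 ⊢
  have wx : (9*m + 52)*((-5) + t1*(-3*m - 19) - ((-5) + t0*(-3*m - 19))) = 0 := by
    linear_combination (-3*m - 19)*h1 + (-6*m^2 - 71*m - 209)*h2
  have Dx : (0:ℝ) < (9*m + 52) := by positivity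
  have wy : (9*m + 52)*((0) + t1*(-3) - ((0) + t0*(-3))) = 0 := by
    linear_combination (-3)*h1 + (-6*m - 33)*h2
  have Dy : (0:ℝ) < (9*m + 52) := by positivity
  exact Or.inl ⟨sub_eq_zero.mp ((mul_eq_zero.mp wx).resolve_left Dx.ne'),
    sub_eq_zero.mp ((mul_eq_zero.mp wy).resolve_left Dy.ne')⟩

theorem q_0_1_0_1 {m : ℝ} (hm : 0 ≤ m) : Q m .e0 .e1 .e0 .e1 := by
  intro t0 t1 t2 t3 a0 b0 a1 b1 a2 b2 a3 b3 h1 h2 h3 h4
  simp only [px, py, dx, dy] at h1 h2 h3 h4 ⊢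
  have wx : (6*m^2 + 74*m + 226)*((-3*m - 24) + t1*(m + 8) - ((-5) + t0*(-3*m - 19))) = 0 := by
    linear_combination (9*m + 63)*h1 + (-9*m^2 - 120*m - 399)*h2 + (-6*m^2 - 74*m - 223)*h3 + (-12*m^2 - 166*m - 575)*h4
  have Dx : (0:ℝ) < (6*m^2 + 74*m + 226) := by positivity
  have wy : (6*m^2 + 74*m + 226)*((-3) + t1*(-2*m - 13) - ((0) + t0*(-3))) = 0 := by
    linear_combination (-3*m - 15)*h1 + (3*m^2 + 34*m + 95)*h2 + (6*m^2 + 68*m + 193)*h3 + (6*m^2 + 74*m + 223)*h4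
  have Dy : (0:ℝ) < (6*m^2 + 74*m + 226) := by positivity
  exact Or.inl ⟨sub_eq_zero.mp ((mul_eq_zero.mp wx).resolve_left Dx.ne'),
    sub_eq_zero.mp ((mul_eq_zero.mp wy).resolve_left Dy.ne')⟩

theorem q_0_1_0_14 {m : ℝ} (hm : 0 ≤ m) : Q m .e0 .e1 .e0 .e14 := by
  intro t0 t1 t2 t3 a0 b0 a1 b1 a2 b2 a3 b3 h1 h2 h3 h4
  simp only [px, py, dx, dy] at h1 h2 h3 h4 ⊢
  exfalso
  have h : (9*m^3 + 150*m^2 + 802*m + 1334)*t2 + (39*m^2 + 518*m + 1738) = 0 := by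
    linear_combination (-3*m^2 - 40*m - 137)*h1 + (9*m^2 + 123*m + 423)*h2 + (6*m^2 + 77*m + 247)*h3 + (9*m^2 + 123*m + 423)*h4
  have h5 : (0:ℝ) ≤ (9*m^3 + 150*m^2 + 802*m + 1334)*t2 := mul_nonneg (by positivity) a2
  have h6 : (0:ℝ) < (39*m^2 + 518*m + 1738) := by positivity
  linarith

theorem q_0_1_1_1 {m : ℝ} (hm : 0 ≤ m) : Q m .e0 .e1 .e1 .e1 := by
  intro t0 t1 t2 t3 a0 b0 a1 b1 a2 b2 a3 b3 h1 h2 h3 h4
  simp only [px, py, dx, dy] at h1 h2 h3 h4 ⊢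
  have wx : (5*m^2 + 68*m + 233)*((-3*m - 24) + t1*(m + 8) - ((-5) + t0*(-3*m - 19))) = 0 := by
    linear_combination (-6*m^2 - 81*m - 273)*h1 + (-3*m^2 - 45*m - 168)*h2 + (-2*m^2 - 29*m - 104)*h3 + (-m^2 - 16*m - 64)*h4
  have Dx : (0:ℝ) < (5*m^2 + 68*m + 233) := by positivity
  have wy : (5*m^2 + 68*m + 233)*((-3) + t1*(-2*m - 13) - ((0) + t0*(-3))) = 0 := by
    linear_combination (2*m^2 + 23*m + 65)*h1 + (m^2 + 13*m + 40)*h2 + (4*m^2 + 52*m + 169)*h3 + (2*m^2 + 29*m + 104)*h4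
  have Dy : (0:ℝ) < (5*m^2 + 68*m + 233) := by positivity
  exact Or.inl ⟨sub_eq_zero.mp ((mul_eq_zero.mp wx).resolve_left Dx.ne'),
    sub_eq_zero.mp ((mul_eq_zero.mp wy).resolve_left Dy.ne')⟩

theorem q_0_1_2_3 {m : ℝ} (hm : 0 ≤ m) : Q m .e0 .e1 .e2 .e3 := by
  intro t0 t1 t2 t3 a0 b0 a1 b1 a2 b2 a3 b3 h1 h2 h3 h4
  simp only [px, py, dx, dy] at h1 h2 h3 h4 ⊢
  exfalso
  have h : (6*m^3 + 101*m^2 + 560*m + 1001)*(1 - t1) + (12*m^2 + 135*m + 397) = 0 := by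
    linear_combination (6*m^2 + 74*m + 214)*h2 + (6*m^2 + 65*m + 171)*h3 + (6*m^2 + 71*m + 195)*h4
  have h5 : (0:ℝ) ≤ (6*m^3 + 101*m^2 + 560*m + 1001)*(1 - t1) := mul_nonneg (by positivity) (by linarith)
  have h6 : (0:ℝ) < (12*m^2 + 135*m + 397) := by positivity
  linarith

theorem q_0_1_2_4 {m : ℝ} (hm : 0 ≤ m) : Q m .e0 .e1 .e2 .e4 := by
  intro t0 t1 t2 t3 a0 b0 a1 b1 a2 b2 a3 b3 h1 h2 h3 h4
  simp only [px, py, dx, dy] at h1 h2 h3 h4 ⊢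
  exfalso
  have h : (6*m^3 + 131*m^2 + 948*m + 2287)*t3 + (27*m^2 + 343*m + 1124) = 0 := by
    linear_combination (9*m^2 + 117*m + 384)*h2 + (6*m^2 + 74*m + 232)*h3 + (6*m^2 + 77*m + 247)*h4
  have h5 : (0:ℝ) ≤ (6*m^3 + 131*m^2 + 948*m + 2287)*t3 := mul_nonneg (by positivity) a3
  have h6 : (0:ℝ) < (27*m^2 + 343*m + 1124) := by positivity
  linarith

theorem q_0_2_5_7 {m : ℝ} (hm : 0 ≤ m) : Q m .e0 .e2 .e5 .e7 := by
  intro t0 t1 t2 t3 a0 b0 a1 b1 a2 b2 a3 b3 h1 h2 h3 h4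
  simp only [px, py, dx, dy] at h1 h2 h3 h4 ⊢
  exfalso
  have h : (150*m^2 + 2206*m + 8104)*t0 + (100*m^2 + 1696*m + 7092) = 0 := by
    linear_combination (20*m + 152)*h1 + (-25*m^2 - 385*m - 1482)*h2 + (25*m + 187)*h3 + (-20*m - 152)*h4
  have h5 : (0:ℝ) ≤ (150*m^2 + 2206*m + 8104)*t0 := mul_nonneg (by positivity) a0
  have h6 : (0:ℝ) < (100*m^2 + 1696*m + 7092) := by positivity
  linarith

theorem q_0_2_5_8 {m : ℝ} (hm : 0 ≤ m) : Q m .e0 .e2 .e5 .e8 := by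
  intro t0 t1 t2 t3 a0 b0 a1 b1 a2 b2 a3 b3 h1 h2 h3 h4
  simp only [px, py, dx, dy] at h1 h2 h3 h4 ⊢
  exfalso
  have h : (39*m^2 + 522*m + 1739)*(1 - t2) + (9*m^2 + 90*m + 221) = 0 := by
    linear_combination (-3*m - 17)*h1 + (-6*m^2 - 80*m - 269)*h2 + (-6*m - 39)*h3 + (3*m + 17)*h4
  have h5 : (0:ℝ) ≤ (39*m^2 + 522*m + 1739)*(1 - t2) := mul_nonneg (by positivity) (by linarith)
  have h6 : (0:ℝ) < (9*m^2 + 90*m + 221) := by positivity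
  linarith

theorem q_0_2_7_12 {m : ℝ} (hm : 0 ≤ m) : Q m .e0 .e2 .e7 .e12 := by
  intro t0 t1 t2 t3 a0 b0 a1 b1 a2 b2 a3 b3 h1 h2 h3 h4
  simp only [px, py, dx, dy] at h1 h2 h3 h4 ⊢
  exfalso
  have h : (150*m^4 + 4445*m^3 + 49442*m^2 + 244695*m + 454725)*(1 - t1) + (105*m^3 + 2439*m^2 + 18499*m + 45910) = 0 := by
    linear_combination (15*m^2 + 206*m + 722)*h1 + (75*m^3 + 1600*m^2 + 11438*m + 27436)*h2 + (75*m^3 + 1585*m^2 + 11116*m + 25887)*h3 + (75*m^3 + 1645*m^2 + 12065*m + 29593)*h4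
  have h5 : (0:ℝ) ≤ (150*m^4 + 4445*m^3 + 49442*m^2 + 244695*m + 454725)*(1 - t1) := mul_nonneg (by positivity) (by linarith)
  have h6 : (0:ℝ) < (105*m^3 + 2439*m^2 + 18499*m + 45910) := by positivity
  linarith

theorem q_0_2_8_12 {m : ℝ} (hm : 0 ≤ m) : Q m .e0 .e2 .e8 .e12 := by
  intro t0 t1 t2 t3 a0 b0 a1 b1 a2 b2 a3 b3 h1 h2 h3 h4
  simp only [px, py, dx, dy] at h1 h2 h3 h4 ⊢
  exfalso
  have h : (60*m^4 + 1670*m^3 + 17444*m^2 + 81033*m + 141210)*(1 - t1) + (84*m^3 + 1703*m^2 + 11488*m + 25796) = 0 := by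
    linear_combination (-15*m^2 - 206*m - 722)*h1 + (30*m^3 + 607*m^2 + 4122*m + 9386)*h2 + (30*m^3 + 580*m^2 + 3739*m + 8028)*h3 + (30*m^3 + 625*m^2 + 4353*m + 10136)*h4
  have h5 : (0:ℝ) ≤ (60*m^4 + 1670*m^3 + 17444*m^2 + 81033*m + 141210)*(1 - t1) := mul_nonneg (by positivity) (by linarith)
  have h6 : (0:ℝ) < (84*m^3 + 1703*m^2 + 11488*m + 25796) := by positivity
  linarith

theorem q_0_3_7_11 {m : ℝ} (hm : 0 ≤ m) : Q m .e0 .e3 .e7 .e11 := by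
  intro t0 t1 t2 t3 a0 b0 a1 b1 a2 b2 a3 b3 h1 h2 h3 h4
  simp only [px, py, dx, dy] at h1 h2 h3 h4 ⊢
  exfalso
  have h : (168*m^3 + 3030*m^2 + 17874*m + 34542)*(1 - t1) + (126*m^2 + 1618*m + 5062) = 0 := by
    linear_combination (6*m^2 + 86*m + 290)*h1 + (30*m^3 + 658*m^2 + 4718*m + 11020)*h2 + (30*m^3 + 589*m^2 + 3823*m + 8199)*h3 + (30*m^3 + 613*m^2 + 4091*m + 8863)*h4
  have h5 : (0:ℝ) ≤ (168*m^3 + 3030*m^2 + 17874*m + 34542)*(1 - t1) := mul_nonneg (by positivity) (by linarith)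
  have h6 : (0:ℝ) < (126*m^2 + 1618*m + 5062) := by positivity
  linarith

theorem q_0_3_7_12 {m : ℝ} (hm : 0 ≤ m) : Q m .e0 .e3 .e7 .e12 := by
  intro t0 t1 t2 t3 a0 b0 a1 b1 a2 b2 a3 b3 h1 h2 h3 h4
  simp only [px, py, dx, dy] at h1 h2 h3 h4 ⊢
  exfalso
  have h : (105*m^3 + 2439*m^2 + 18267*m + 44256)*(1 - t1) + (232*m + 1654) = 0 := by
    linear_combination (15*m^2 + 206*m + 722)*h1 + (75*m^3 + 1600*m^2 + 11438*m + 27436)*h2 + (75*m^3 + 1585*m^2 + 11116*m + 25887)*h3 + (75*m^3 + 1645*m^2 + 12065*m + 29593)*h4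
  have h5 : (0:ℝ) ≤ (105*m^3 + 2439*m^2 + 18267*m + 44256)*(1 - t1) := mul_nonneg (by positivity) (by linarith)
  have h6 : (0:ℝ) < (232*m + 1654) := by positivity
  linarith

theorem q_0_3_8_11 {m : ℝ} (hm : 0 ≤ m) : Q m .e0 .e3 .e8 .e11 := by
  intro t0 t1 t2 t3 a0 b0 a1 b1 a2 b2 a3 b3 h1 h2 h3 h4
  simp only [px, py, dx, dy] at h1 h2 h3 h4 ⊢
  exfalso
  have h : (42*m^3 + 712*m^2 + 3967*m + 7260)*t0 + 12 = 0 := by
    linear_combination (-2*m^2 - 20*m - 51)*h1 + (4*m^3 + 66*m^2 + 362*m + 663)*h2 + (4*m^3 + 68*m^2 + 382*m + 708)*h3 + (4*m^3 + 60*m^2 + 290*m + 456)*h4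
  have h5 : (0:ℝ) ≤ (42*m^3 + 712*m^2 + 3967*m + 7260)*t0 := mul_nonneg (by positivity) a0
  have h6 : (0:ℝ) < 12 := by positivity
  linarith

theorem q_0_3_8_12 {m : ℝ} (hm : 0 ≤ m) : Q m .e0 .e3 .e8 .e12 := by
  intro t0 t1 t2 t3 a0 b0 a1 b1 a2 b2 a3 b3 h1 h2 h3 h4
  simp only [px, py, dx, dy] at h1 h2 h3 h4 ⊢
  exfalso
  have h : (84*m^3 + 1619*m^2 + 10310*m + 21636)*(1 - t1) + (84*m^2 + 1178*m + 4160) = 0 := by
    linear_combination (-15*m^2 - 206*m - 722)*h1 + (30*m^3 + 607*m^2 + 4122*m + 9386)*h2 + (30*m^3 + 580*m^2 + 3739*m + 8028)*h3 + (30*m^3 + 625*m^2 + 4353*m + 10136)*h4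
  have h5 : (0:ℝ) ≤ (84*m^3 + 1619*m^2 + 10310*m + 21636)*(1 - t1) := mul_nonneg (by positivity) (by linarith)
  have h6 : (0:ℝ) < (84*m^2 + 1178*m + 4160) := by positivity
  linarith

theorem q_0_3_10_14 {m : ℝ} (hm : 0 ≤ m) : Q m .e0 .e3 .e10 .e14 := by
  intro t0 t1 t2 t3 a0 b0 a1 b1 a2 b2 a3 b3 h1 h2 h3 h4
  simp only [px, py, dx, dy] at h1 h2 h3 h4 ⊢
  exfalso
  have h : (15*m^2 + 165*m + 443)*(1 - t1) + (6*m^2 + 96*m + 358) = 0 := by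
    linear_combination (-3*m - 22)*h1 + (3*m^2 + 40*m + 132)*h2 + (3*m^2 + 34*m + 95)*h3 + (3*m^2 + 40*m + 132)*h4
  have h5 : (0:ℝ) ≤ (15*m^2 + 165*m + 443)*(1 - t1) := mul_nonneg (by positivity) (by linarith)
  have h6 : (0:ℝ) < (6*m^2 + 96*m + 358) := by positivity
  linarith

theorem q_0_4_7_10 {m : ℝ} (hm : 0 ≤ m) : Q m .e0 .e4 .e7 .e10 := by
  intro t0 t1 t2 t3 a0 b0 a1 b1 a2 b2 a3 b3 h1 h2 h3 h4
  simp only [px, py, dx, dy] at h1 h2 h3 h4 ⊢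
  exfalso
  have h : (60*m^4 + 1574*m^3 + 15424*m^2 + 66968*m + 108834)*(1 - t3) + (108*m^3 + 2224*m^2 + 15148*m + 34076) = 0 := by
    linear_combination (6*m^2 + 80*m + 262)*h1 + (30*m^3 + 628*m^2 + 4350*m + 9956)*h2 + (30*m^3 + 613*m^2 + 4141*m + 9237)*h3 + (30*m^3 + 637*m^2 + 4493*m + 10523)*h4
  have h5 : (0:ℝ) ≤ (60*m^4 + 1574*m^3 + 15424*m^2 + 66968*m + 108834)*(1 - t3) := mul_nonneg (by positivity) (by linarith)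
  have h6 : (0:ℝ) < (108*m^3 + 2224*m^2 + 15148*m + 34076) := by positivity
  linarith

theorem q_0_4_7_11 {m : ℝ} (hm : 0 ≤ m) : Q m .e0 .e4 .e7 .e11 := by
  intro t0 t1 t2 t3 a0 b0 a1 b1 a2 b2 a3 b3 h1 h2 h3 h4
  simp only [px, py, dx, dy] at h1 h2 h3 h4 ⊢
  exfalso
  have h : (54*m^3 + 1103*m^2 + 7445*m + 16581)*t0 + (6*m^2 + 66*m + 156) = 0 := by
    linear_combination (2*m^2 + 26*m + 81)*h1 + (10*m^3 + 206*m^2 + 1393*m + 3078)*h2 + (10*m^3 + 201*m^2 + 1334*m + 2919)*h3 + (10*m^3 + 191*m^2 + 1177*m + 2304)*h4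
  have h5 : (0:ℝ) ≤ (54*m^3 + 1103*m^2 + 7445*m + 16581)*t0 := mul_nonneg (by positivity) a0
  have h6 : (0:ℝ) < (6*m^2 + 66*m + 156) := by positivity
  linarith

theorem q_0_4_7_12 {m : ℝ} (hm : 0 ≤ m) : Q m .e0 .e4 .e7 .e12 := by
  intro t0 t1 t2 t3 a0 b0 a1 b1 a2 b2 a3 b3 h1 h2 h3 h4
  simp only [px, py, dx, dy] at h1 h2 h3 h4 ⊢
  right; left
  have hD := (den_pos hm).ne'
  refine ⟨?_, ?_, ?_, ?_⟩
  · have e : zx m + vx m = (-315*m^3 - 5965*m^2 - 36523*m - 71424) / den m := by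
      simp only [zx, zy, vx, vy]; ring
    rw [e, eq_div_iff hD]
    simp only [den]
    linear_combination (30*m^3 + 625*m^2 + 4339*m + 10032)*h1 + (150*m^4 + 4265*m^3 + 45445*m^2 + 215042*m + 381216)*h2 + (150*m^4 + 4190*m^3 + 43815*m^2 + 203299*m + 353172)*h3 + (150*m^4 + 4355*m^3 + 47311*m^2 + 227894*m + 410628)*h4
  · have e : zy m + vy m = (-90*m^2 - 1440*m - 5688) / den m := by
      simp only [zx, zy, vx, vy]; ring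
    rw [e, eq_div_iff hD]
    simp only [den]
    linear_combination (30*m^2 + 435*m + 1584)*h1 + (150*m^3 + 3315*m^2 + 24450*m + 60192)*h2 + (150*m^3 + 3240*m^2 + 23295*m + 55764)*h3 + (150*m^3 + 3405*m^2 + 25746*m + 64836)*h4
  · have e : zx m - vy m = (232*m + 1654) / den m := by
      simp only [zx, zy, vx, vy]; ring
    rw [e, eq_div_iff hD]
    simp only [den]
    linear_combination (-15*m^2 - 206*m - 722)*h1 + (-75*m^3 - 1600*m^2 - 11438*m - 27436)*h2 + (-75*m^3 - 1585*m^2 - 11116*m - 25887)*h3 + (-75*m^3 - 1645*m^2 - 12065*m - 29593)*h4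
  · have e : zy m + vx m = (-315*m^3 - 6001*m^2 - 37189*m - 74370) / den m := by
      simp only [zx, zy, vx, vy]; ring
    rw [e, eq_div_iff hD]
    simp only [den]
    linear_combination (30*m^3 + 637*m^2 + 4534*m + 10830)*h1 + (150*m^4 + 4325*m^3 + 46876*m^2 + 226442*m + 411540)*h2 + (150*m^4 + 4295*m^3 + 46007*m^2 + 218514*m + 388305)*h3 + (150*m^4 + 4415*m^3 + 48805*m^2 + 240161*m + 443895)*h4

theorem q_0_4_8_11 {m : ℝ} (hm : 0 ≤ m) : Q m .e0 .e4 .e8 .e11 := by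
  intro t0 t1 t2 t3 a0 b0 a1 b1 a2 b2 a3 b3 h1 h2 h3 h4
  simp only [px, py, dx, dy] at h1 h2 h3 h4 ⊢
  exfalso
  have h : (30*m^3 + 594*m^2 + 3897*m + 8460)*t0 + (8*m^2 + 92*m + 252) = 0 := by
    linear_combination (-2*m^2 - 26*m - 81)*h1 + (4*m^3 + 78*m^2 + 500*m + 1053)*h2 + (4*m^3 + 76*m^2 + 480*m + 1008)*h3 + (4*m^3 + 72*m^2 + 416*m + 756)*h4
  have h5 : (0:ℝ) ≤ (30*m^3 + 594*m^2 + 3897*m + 8460)*t0 := mul_nonneg (by positivity) a0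
  have h6 : (0:ℝ) < (8*m^2 + 92*m + 252) := by positivity
  linarith

theorem q_0_4_8_12 {m : ℝ} (hm : 0 ≤ m) : Q m .e0 .e4 .e8 .e12 := by
  intro t0 t1 t2 t3 a0 b0 a1 b1 a2 b2 a3 b3 h1 h2 h3 h4
  simp only [px, py, dx, dy] at h1 h2 h3 h4 ⊢
  exfalso
  have h : (24*m^3 + 561*m^2 + 4314*m + 10956)*t2 + (36*m^2 + 434*m + 1292) = 0 := by
    linear_combination (-3*m^2 - 11*m + 76)*h1 + (30*m^3 + 622*m^2 + 4305*m + 9968)*h2 + (30*m^3 + 607*m^2 + 4099*m + 9246)*h3 + (30*m^3 + 640*m^2 + 4545*m + 10754)*h4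
  have h5 : (0:ℝ) ≤ (24*m^3 + 561*m^2 + 4314*m + 10956)*t2 := mul_nonneg (by positivity) a2
  have h6 : (0:ℝ) < (36*m^2 + 434*m + 1292) := by positivity
  linarith

theorem q_0_4_9_12 {m : ℝ} (hm : 0 ≤ m) : Q m .e0 .e4 .e9 .e12 := by
  intro t0 t1 t2 t3 a0 b0 a1 b1 a2 b2 a3 b3 h1 h2 h3 h4
  simp only [px, py, dx, dy] at h1 h2 h3 h4 ⊢
  exfalso
  have h : (60*m^4 + 1754*m^3 + 19187*m^2 + 93132*m + 169380)*t2 + (24*m^3 + 597*m^2 + 4748*m + 12248) = 0 := by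
    linear_combination (-3*m^2 - 11*m + 76)*h1 + (30*m^3 + 622*m^2 + 4305*m + 9968)*h2 + (30*m^3 + 607*m^2 + 4099*m + 9246)*h3 + (30*m^3 + 640*m^2 + 4545*m + 10754)*h4
  have h5 : (0:ℝ) ≤ (60*m^4 + 1754*m^3 + 19187*m^2 + 93132*m + 169380)*t2 := mul_nonneg (by positivity) a2
  have h6 : (0:ℝ) < (24*m^3 + 597*m^2 + 4748*m + 12248) := by positivity
  linarith

theorem q_0_4_10_14 {m : ℝ} (hm : 0 ≤ m) : Q m .e0 .e4 .e10 .e14 := by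
  intro t0 t1 t2 t3 a0 b0 a1 b1 a2 b2 a3 b3 h1 h2 h3 h4
  simp only [px, py, dx, dy] at h1 h2 h3 h4 ⊢
  exfalso
  have h : (9*m^2 + 127*m + 445)*t1 + (6*m^2 + 96*m + 358) = 0 := by
    linear_combination (-3*m - 22)*h1 + (3*m^2 + 40*m + 132)*h2 + (3*m^2 + 34*m + 95)*h3 + (3*m^2 + 40*m + 132)*h4
  have h5 : (0:ℝ) ≤ (9*m^2 + 127*m + 445)*t1 := mul_nonneg (by positivity) a1
  have h6 : (0:ℝ) < (6*m^2 + 96*m + 358) := by positivity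
  linarith

theorem q_0_5_7_10 {m : ℝ} (hm : 0 ≤ m) : Q m .e0 .e5 .e7 .e10 := by
  intro t0 t1 t2 t3 a0 b0 a1 b1 a2 b2 a3 b3 h1 h2 h3 h4
  simp only [px, py, dx, dy] at h1 h2 h3 h4 ⊢
  exfalso
  have h : (75*m^3 + 1541*m^2 + 10780*m + 25820)*t2 + (9*m^3 + 217*m^2 + 1638*m + 3968) = 0 := by
    linear_combination (-12*m^2 - 156*m - 552)*h1 + (15*m^3 + 305*m^2 + 2092*m + 4844)*h2 + (3*m^2 + 59*m + 242)*h3 + (8*m + 80)*h4
  have h5 : (0:ℝ) ≤ (75*m^3 + 1541*m^2 + 10780*m + 25820)*t2 := mul_nonneg (by positivity) a2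
  have h6 : (0:ℝ) < (9*m^3 + 217*m^2 + 1638*m + 3968) := by positivity
  linarith

end Six
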