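import Pool.Agent.helper91.SX.Def

/-! Squares inscribed in the 16-gon: classes of edge quadruples, part 1. -/

namespace Six

theorem q_0_5_7_12 {m : ℝ} (hm : 0 ≤ m) : Q m .e0 .e5 .e7 .e12 := by
  intro t0 t1 t2 t3 a0 b0 a1 b1 a2 b2 a3 b3 h1 h2 h3 h4
  simp only [px, py, dx, dy] at h1 h2 h3 h4 ⊢
  exfalso
  have h : (375*m^4 + 11225*m^3 + 126155*m^2 + 631432*m + 1188481)*t1 + (45*m^3 + 791*m^2 + 4111*m + 5426) = 0 := by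
    linear_combination (-15*m^2 - 206*m - 722)*h1 + (-75*m^3 - 1600*m^2 - 11438*m - 27436)*h2 + (-75*m^3 - 1585*m^2 - 11116*m - 25887)*h3 + (-75*m^3 - 1645*m^2 - 12065*m - 29593)*h4
  have h5 : (0:ℝ) ≤ (375*m^4 + 11225*m^3 + 126155*m^2 + 631432*m + 1188481)*t1 := mul_nonneg (by positivity) a1
  have h6 : (0:ℝ) < (45*m^3 + 791*m^2 + 4111*m + 5426) := by positivity
  linarith

theorem q_0_9_12_14 {m : ℝ} (hm : 0 ≤ m) : Q m .e0 .e9 .e12 .e14 := by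
  intro t0 t1 t2 t3 a0 b0 a1 b1 a2 b2 a3 b3 h1 h2 h3 h4
  simp only [px, py, dx, dy] at h1 h2 h3 h4 ⊢
  exfalso
  have h : (30*m^3 + 670*m^2 + 4936*m + 11988)*t0 + (64*m^2 + 1015*m + 3972) = 0 := by
    linear_combination (-10*m^2 - 155*m - 595)*h1 + (-6*m - 51)*h2 + (-m - 13)*h3 + (-6*m - 51)*h4
  have h5 : (0:ℝ) ≤ (30*m^3 + 670*m^2 + 4936*m + 11988)*t0 := mul_nonneg (by positivity) a0
  have h6 : (0:ℝ) < (64*m^2 + 1015*m + 3972) := by positivity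
  linarith

theorem q_0_14_1_1 {m : ℝ} (hm : 0 ≤ m) : Q m .e0 .e14 .e1 .e1 := by
  intro t0 t1 t2 t3 a0 b0 a1 b1 a2 b2 a3 b3 h1 h2 h3 h4
  simp only [px, py, dx, dy] at h1 h2 h3 h4 ⊢
  exfalso
  have h : (9*m^3 + 171*m^2 + 1080*m + 2259)*t2 + (3*m^3 + 67*m^2 + 502*m + 1264) = 0 := by
    linear_combination (3*m^2 + 34*m + 89)*h1 + (-3*m^2 - 37*m - 119)*h2 + (-3*m^2 - 37*m - 119)*h3 + (-6*m^2 - 77*m - 247)*h4
  have h5 : (0:ℝ) ≤ (9*m^3 + 171*m^2 + 1080*m + 2259)*t2 := mul_nonneg (by positivity) a2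
  have h6 : (0:ℝ) < (3*m^3 + 67*m^2 + 502*m + 1264) := by positivity
  linarith

theorem q_0_15_0_15 {m : ℝ} (hm : 0 ≤ m) : Q m .e0 .e15 .e0 .e15 := by
  intro t0 t1 t2 t3 a0 b0 a1 b1 a2 b2 a3 b3 h1 h2 h3 h4
  simp only [px, py, dx, dy] at h1 h2 h3 h4 ⊢
  have wx : (12*m^2 + 142*m + 412)*((-2*m - 16) + t1*(2*m + 11) - ((-5) + t0*(-3*m - 19))) = 0 := by
    linear_combination (6*m + 36)*h1 + (-6*m^2 - 74*m - 228)*h2 + (3*m + 14)*h3 + (-12*m^2 - 151*m - 470)*h4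
  have Dx : (0:ℝ) < (12*m^2 + 142*m + 412) := by positivity
  have wy : (12*m^2 + 142*m + 412)*((1) + t1*(-1) - ((0) + t0*(-3))) = 0 := by
    linear_combination (6*m + 30)*h1 + (-6*m^2 - 68*m - 190)*h2 + (9*m + 46)*h3 + (-3*m - 14)*h4
  have Dy : (0:ℝ) < (12*m^2 + 142*m + 412) := by positivity
  exact Or.inl ⟨sub_eq_zero.mp ((mul_eq_zero.mp wx).resolve_left Dx.ne'),
    sub_eq_zero.mp ((mul_eq_zero.mp wy).resolve_left Dy.ne')⟩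

theorem q_0_15_15_14 {m : ℝ} (hm : 0 ≤ m) : Q m .e0 .e15 .e15 .e14 := by
  intro t0 t1 t2 t3 a0 b0 a1 b1 a2 b2 a3 b3 h1 h2 h3 h4
  simp only [px, py, dx, dy] at h1 h2 h3 h4 ⊢
  exfalso
  have h : (36*m^4 + 942*m^3 + 9187*m^2 + 39580*m + 63580)*(1 - t3) + (36*m^3 + 604*m^2 + 3386*m + 6344) = 0 := by
    linear_combination (-6*m^2 - 80*m - 258)*h1 + (-12*m^3 - 226*m^2 - 1396*m - 2838)*h2 + (-18*m^2 - 203*m - 572)*h3 + (9*m + 52)*h4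
  have h5 : (0:ℝ) ≤ (36*m^4 + 942*m^3 + 9187*m^2 + 39580*m + 63580)*(1 - t3) := mul_nonneg (by positivity) (by linarith)
  have h6 : (0:ℝ) < (36*m^3 + 604*m^2 + 3386*m + 6344) := by positivity
  linarith

theorem q_0_15_15_15 {m : ℝ} (hm : 0 ≤ m) : Q m .e0 .e15 .e15 .e15 := by
  intro t0 t1 t2 t3 a0 b0 a1 b1 a2 b2 a3 b3 h1 h2 h3 h4
  simp only [px, py, dx, dy] at h1 h2 h3 h4 ⊢
  have wx : (4*m^2 + 44*m + 122)*((-2*m - 16) + t1*(2*m + 11) - ((-5) + t0*(-3*m - 19))) = 0 := by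
    linear_combination (-2*m - 12)*h1 + (-4*m^2 - 46*m - 132)*h2 + (-2*m - 11)*h3 + (-4*m^2 - 44*m - 121)*h4
  have Dx : (0:ℝ) < (4*m^2 + 44*m + 122) := by positivity
  have wy : (4*m^2 + 44*m + 122)*((1) + t1*(-1) - ((0) + t0*(-3))) = 0 := by
    linear_combination (-2*m - 10)*h1 + (-4*m^2 - 42*m - 110)*h2 + 1*h3 + (2*m + 11)*h4
  have Dy : (0:ℝ) < (4*m^2 + 44*m + 122) := by positivity
  exact Or.inl ⟨sub_eq_zero.mp ((mul_eq_zero.mp wx).resolve_left Dx.ne'),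
    sub_eq_zero.mp ((mul_eq_zero.mp wy).resolve_left Dy.ne')⟩

theorem q_1_1_1_1 {m : ℝ} (hm : 0 ≤ m) : Q m .e1 .e1 .e1 .e1 := by
  refine sing ?_
  have h : dx m .e1 ^ 2 + dy m .e1 ^ 2 = (m + 8)^2 + (2*m + 13)^2 := by
    simp only [dx, dy] <;> ring
  rw [h]; positivity

theorem q_1_1_1_2 {m : ℝ} (hm : 0 ≤ m) : Q m .e1 .e1 .e1 .e2 := by
  intro t0 t1 t2 t3 a0 b0 a1 b1 a2 b2 a3 b3 h1 h2 h3 h4
  simp only [px, py, dx, dy] at h1 h2 h3 h4 ⊢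
  have wx : (5*m^2 + 68*m + 233)*((-3*m - 24) + t1*(m + 8) - ((-3*m - 24) + t0*(m + 8))) = 0 := by
    linear_combination (-2*m^2 - 29*m - 104)*h1 + (-m^2 - 16*m - 64)*h2 + (-2*m^2 - 29*m - 104)*h3 + (-m^2 - 16*m - 64)*h4
  have Dx : (0:ℝ) < (5*m^2 + 68*m + 233) := by positivity
  have wy : (5*m^2 + 68*m + 233)*((-3) + t1*(-2*m - 13) - ((-3) + t0*(-2*m - 13))) = 0 := by
    linear_combination (4*m^2 + 52*m + 169)*h1 + (2*m^2 + 29*m + 104)*h2 + (4*m^2 + 52*m + 169)*h3 + (2*m^2 + 29*m + 104)*h4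
  have Dy : (0:ℝ) < (5*m^2 + 68*m + 233) := by positivity
  exact Or.inl ⟨sub_eq_zero.mp ((mul_eq_zero.mp wx).resolve_left Dx.ne'),
    sub_eq_zero.mp ((mul_eq_zero.mp wy).resolve_left Dy.ne')⟩

theorem q_1_1_2_2 {m : ℝ} (hm : 0 ≤ m) : Q m .e1 .e1 .e2 .e2 := by
  intro t0 t1 t2 t3 a0 b0 a1 b1 a2 b2 a3 b3 h1 h2 h3 h4
  simp only [px, py, dx, dy] at h1 h2 h3 h4 ⊢
  have wx : (2*m + 13)*((-3*m - 24) + t1*(m + 8) - ((-3*m - 24) + t0*(m + 8))) = 0 := by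
    linear_combination (m + 8)*h2
  have Dx : (0:ℝ) < (2*m + 13) := by positivity
  have wy : 1*((-3) + t1*(-2*m - 13) - ((-3) + t0*(-2*m - 13))) = 0 := by
    linear_combination (-1)*h2
  have Dy : (0:ℝ) < 1 := by positivity
  exact Or.inl ⟨sub_eq_zero.mp ((mul_eq_zero.mp wx).resolve_left Dx.ne'),
    sub_eq_zero.mp ((mul_eq_zero.mp wy).resolve_left Dy.ne')⟩

theorem q_1_2_1_2 {m : ℝ} (hm : 0 ≤ m) : Q m .e1 .e2 .e1 .e2 := by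
  intro t0 t1 t2 t3 a0 b0 a1 b1 a2 b2 a3 b3 h1 h2 h3 h4
  simp only [px, py, dx, dy] at h1 h2 h3 h4 ⊢
  have wx : (2*m + 16)*((-2*m - 16) + t1*(2*m + 15) - ((-3*m - 24) + t0*(m + 8))) = 0 := by
    linear_combination (-2*m - 13)*h1 + (-m - 8)*h2 + (-2*m - 13)*h3 + (-3)*h4
  have Dx : (0:ℝ) < (2*m + 16) := by positivity
  have wy : (2*m + 16)*((-2*m - 16) + t1*(0) - ((-3) + t0*(-2*m - 13))) = 0 := by
    linear_combination (-2*m - 13)*h1 + (-m - 8)*h2 + (-2*m - 13)*h3 + (2*m + 13)*h4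
  have Dy : (0:ℝ) < (2*m + 16) := by positivity
  exact Or.inl ⟨sub_eq_zero.mp ((mul_eq_zero.mp wx).resolve_left Dx.ne'),
    sub_eq_zero.mp ((mul_eq_zero.mp wy).resolve_left Dy.ne')⟩

theorem q_1_2_2_2 {m : ℝ} (hm : 0 ≤ m) : Q m .e1 .e2 .e2 .e2 := by
  intro t0 t1 t2 t3 a0 b0 a1 b1 a2 b2 a3 b3 h1 h2 h3 h4
  simp only [px, py, dx, dy] at h1 h2 h3 h4 ⊢
  have wx : 1*((-2*m - 16) + t1*(2*m + 15) - ((-3*m - 24) + t0*(m + 8))) = 0 := by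
    linear_combination (-1)*h2 + (-1)*h4
  have Dx : (0:ℝ) < 1 := by positivity
  have wy : 1*((-2*m - 16) + t1*(0) - ((-3) + t0*(-2*m - 13))) = 0 := by
    linear_combination (-1)*h2
  have Dy : (0:ℝ) < 1 := by positivity
  exact Or.inl ⟨sub_eq_zero.mp ((mul_eq_zero.mp wx).resolve_left Dx.ne'),
    sub_eq_zero.mp ((mul_eq_zero.mp wy).resolve_left Dy.ne')⟩

theorem q_1_2_3_15 {m : ℝ} (hm : 0 ≤ m) : Q m .e1 .e2 .e3 .e15 := by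
  intro t0 t1 t2 t3 a0 b0 a1 b1 a2 b2 a3 b3 h1 h2 h3 h4
  simp only [px, py, dx, dy] at h1 h2 h3 h4 ⊢
  exfalso
  have h : (4*m^3 + 70*m^2 + 389*m + 689)*(1 - t2) + (12*m^2 + 175*m + 596) = 0 := by
    linear_combination (4*m^2 + 49*m + 148)*h1 + (-2*m^2 - 28*m - 93)*h2 + (4*m^2 + 48*m + 143)*h3 + (-4*m^2 - 49*m - 148)*h4
  have h5 : (0:ℝ) ≤ (4*m^3 + 70*m^2 + 389*m + 689)*(1 - t2) := mul_nonneg (by positivity) (by linarith)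
  have h6 : (0:ℝ) < (12*m^2 + 175*m + 596) := by positivity
  linarith

theorem q_1_2_4_15 {m : ℝ} (hm : 0 ≤ m) : Q m .e1 .e2 .e4 .e15 := by
  intro t0 t1 t2 t3 a0 b0 a1 b1 a2 b2 a3 b3 h1 h2 h3 h4
  simp only [px, py, dx, dy] at h1 h2 h3 h4 ⊢
  exfalso
  have h : (4*m^3 + 90*m^2 + 655*m + 1543)*t2 + (12*m^2 + 175*m + 596) = 0 := by
    linear_combination (4*m^2 + 49*m + 148)*h1 + (-2*m^2 - 28*m - 93)*h2 + (4*m^2 + 48*m + 143)*h3 + (-4*m^2 - 49*m - 148)*h4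
  have h5 : (0:ℝ) ≤ (4*m^3 + 90*m^2 + 655*m + 1543)*t2 := mul_nonneg (by positivity) a2
  have h6 : (0:ℝ) < (12*m^2 + 175*m + 596) := by positivity
  linarith

theorem q_1_3_10_14 {m : ℝ} (hm : 0 ≤ m) : Q m .e1 .e3 .e10 .e14 := by
  intro t0 t1 t2 t3 a0 b0 a1 b1 a2 b2 a3 b3 h1 h2 h3 h4
  simp only [px, py, dx, dy] at h1 h2 h3 h4 ⊢
  exfalso
  have h : (4*m^3 + 67*m^2 + 366*m + 655)*t0 + (9*m^2 + 91*m + 227) = 0 := by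
    linear_combination (-2*m - 9)*h1 + (2*m^2 + 21*m + 54)*h2 + (2*m^2 + 22*m + 59)*h3 + (2*m^2 + 21*m + 54)*h4
  have h5 : (0:ℝ) ≤ (4*m^3 + 67*m^2 + 366*m + 655)*t0 := mul_nonneg (by positivity) a0
  have h6 : (0:ℝ) < (9*m^2 + 91*m + 227) := by positivity
  linarith

theorem q_1_3_11_14 {m : ℝ} (hm : 0 ≤ m) : Q m .e1 .e3 .e11 .e14 := by
  intro t0 t1 t2 t3 a0 b0 a1 b1 a2 b2 a3 b3 h1 h2 h3 h4
  simp only [px, py, dx, dy] at h1 h2 h3 h4 ⊢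
  exfalso
  have h : (4*m^3 + 62*m^2 + 305*m + 481)*(1 - t2) + (8*m^2 + 111*m + 340) = 0 := by
    linear_combination (-4*m^2 - 45*m - 122)*h1 + (2*m^2 + 26*m + 77)*h2 + (2*m^2 + 25*m + 72)*h3 + (2*m^2 + 26*m + 77)*h4
  have h5 : (0:ℝ) ≤ (4*m^3 + 62*m^2 + 305*m + 481)*(1 - t2) := mul_nonneg (by positivity) (by linarith)
  have h6 : (0:ℝ) < (8*m^2 + 111*m + 340) := by positivity
  linarith

theorem q_1_3_12_14 {m : ℝ} (hm : 0 ≤ m) : Q m .e1 .e3 .e12 .e14 := by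
  intro t0 t1 t2 t3 a0 b0 a1 b1 a2 b2 a3 b3 h1 h2 h3 h4
  simp only [px, py, dx, dy] at h1 h2 h3 h4 ⊢
  exfalso
  have h : (10*m^3 + 212*m^2 + 1430*m + 3061)*t2 + (8*m^2 + 111*m + 340) = 0 := by
    linear_combination (-4*m^2 - 45*m - 122)*h1 + (2*m^2 + 26*m + 77)*h2 + (2*m^2 + 25*m + 72)*h3 + (2*m^2 + 26*m + 77)*h4
  have h5 : (0:ℝ) ≤ (10*m^3 + 212*m^2 + 1430*m + 3061)*t2 := mul_nonneg (by positivity) a2
  have h6 : (0:ℝ) < (8*m^2 + 111*m + 340) := by positivity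
  linarith

theorem q_1_4_10_14 {m : ℝ} (hm : 0 ≤ m) : Q m .e1 .e4 .e10 .e14 := by
  intro t0 t1 t2 t3 a0 b0 a1 b1 a2 b2 a3 b3 h1 h2 h3 h4
  simp only [px, py, dx, dy] at h1 h2 h3 h4 ⊢
  exfalso
  have h : (4*m^3 + 77*m^2 + 490*m + 1025)*t0 + (7*m^2 + 97*m + 325) = 0 := by
    linear_combination (-2*m - 15)*h1 + (2*m^2 + 27*m + 90)*h2 + (2*m^2 + 26*m + 85)*h3 + (2*m^2 + 27*m + 90)*h4
  have h5 : (0:ℝ) ≤ (4*m^3 + 77*m^2 + 490*m + 1025)*t0 := mul_nonneg (by positivity) a0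
  have h6 : (0:ℝ) < (7*m^2 + 97*m + 325) := by positivity
  linarith

theorem q_1_4_11_14 {m : ℝ} (hm : 0 ≤ m) : Q m .e1 .e4 .e11 .e14 := by
  intro t0 t1 t2 t3 a0 b0 a1 b1 a2 b2 a3 b3 h1 h2 h3 h4
  simp only [px, py, dx, dy] at h1 h2 h3 h4 ⊢
  exfalso
  have h : (4*m^3 + 70*m^2 + 395*m + 695)*(1 - t0) + (4*m^2 + 64*m + 297) = 0 := by
    linear_combination (-4*m^2 - 52*m - 165)*h1 + (6*m + 45)*h2 + (8*m + 53)*h3 + (6*m + 45)*h4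
  have h5 : (0:ℝ) ≤ (4*m^3 + 70*m^2 + 395*m + 695)*(1 - t0) := mul_nonneg (by positivity) (by linarith)
  have h6 : (0:ℝ) < (4*m^2 + 64*m + 297) := by positivity
  linarith

theorem q_1_4_12_14 {m : ℝ} (hm : 0 ≤ m) : Q m .e1 .e4 .e12 .e14 := by
  intro t0 t1 t2 t3 a0 b0 a1 b1 a2 b2 a3 b3 h1 h2 h3 h4
  simp only [px, py, dx, dy] at h1 h2 h3 h4 ⊢
  exfalso
  have h : (10*m^3 + 232*m^2 + 1790*m + 4595)*(1 - t0) + (10*m^2 + 91*m + 117) = 0 := by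
    linear_combination (-10*m^2 - 145*m - 525)*h1 + (-6*m - 45)*h2 + (-m - 7)*h3 + (-6*m - 45)*h4
  have h5 : (0:ℝ) ≤ (10*m^3 + 232*m^2 + 1790*m + 4595)*(1 - t0) := mul_nonneg (by positivity) (by linarith)
  have h6 : (0:ℝ) < (10*m^2 + 91*m + 117) := by positivity
  linarith

theorem q_1_5_9_13 {m : ℝ} (hm : 0 ≤ m) : Q m .e1 .e5 .e9 .e13 := by
  intro t0 t1 t2 t3 a0 b0 a1 b1 a2 b2 a3 b3 h1 h2 h3 h4
  simp only [px, py, dx, dy] at h1 h2 h3 h4 ⊢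
  exfalso
  have h : (34*m^3 + 729*m^2 + 5122*m + 11731)*(1 - t1) + (8*m^4 + 288*m^3 + 3796*m^2 + 21939*m + 47229) = 0 := by
    linear_combination (-8*m^3 - 176*m^2 - 1294*m - 3196)*h1 + (-4*m^2 - 54*m - 188)*h2 + (-16*m^3 - 366*m^2 - 2789*m - 7089)*h3 + (8*m^3 + 170*m^2 + 1197*m + 2789)*h4
  have h5 : (0:ℝ) ≤ (34*m^3 + 729*m^2 + 5122*m + 11731)*(1 - t1) := mul_nonneg (by positivity) (by linarith)
  have h6 : (0:ℝ) < (8*m^4 + 288*m^3 + 3796*m^2 + 21939*m + 47229) := by positivity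
  linarith

theorem q_2_2_2_2 {m : ℝ} (hm : 0 ≤ m) : Q m .e2 .e2 .e2 .e2 := by
  refine sing ?_
  have h : dx m .e2 ^ 2 + dy m .e2 ^ 2 = (2*m + 15)^2 + (0)^2 := by
    simp only [dx, dy] <;> ring
  rw [h]; positivity

theorem q_2_2_2_3 {m : ℝ} (hm : 0 ≤ m) : Q m .e2 .e2 .e2 .e3 := by
  intro t0 t1 t2 t3 a0 b0 a1 b1 a2 b2 a3 b3 h1 h2 h3 h4
  simp only [px, py, dx, dy] at h1 h2 h3 h4 ⊢
  have wx : 1*((-2*m - 16) + t1*(2*m + 15) - ((-2*m - 16) + t0*(2*m + 15))) = 0 := by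
    linear_combination (-1)*h2 + (-1)*h4
  have Dx : (0:ℝ) < 1 := by positivity
  have wy : 1*((-2*m - 16) + t1*(0) - ((-2*m - 16) + t0*(0))) = 0 := by
    linear_combination 0
  have Dy : (0:ℝ) < 1 := by positivity
  exact Or.inl ⟨sub_eq_zero.mp ((mul_eq_zero.mp wx).resolve_left Dx.ne'),
    sub_eq_zero.mp ((mul_eq_zero.mp wy).resolve_left Dy.ne')⟩

theorem q_2_2_3_3 {m : ℝ} (hm : 0 ≤ m) : Q m .e2 .e2 .e3 .e3 := by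
  intro t0 t1 t2 t3 a0 b0 a1 b1 a2 b2 a3 b3 h1 h2 h3 h4
  simp only [px, py, dx, dy] at h1 h2 h3 h4 ⊢
  have wx : (2*m + 9)*((-2*m - 16) + t1*(2*m + 15) - ((-2*m - 16) + t0*(2*m + 15))) = 0 := by
    linear_combination (-2*m - 9)*h1 + 1*h2
  have Dx : (0:ℝ) < (2*m + 9) := by positivity
  have wy : 1*((-2*m - 16) + t1*(0) - ((-2*m - 16) + t0*(0))) = 0 := by
    linear_combination 0
  have Dy : (0:ℝ) < 1 := by positivity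
  exact Or.inl ⟨sub_eq_zero.mp ((mul_eq_zero.mp wx).resolve_left Dx.ne'),
    sub_eq_zero.mp ((mul_eq_zero.mp wy).resolve_left Dy.ne')⟩

theorem q_2_3_2_3 {m : ℝ} (hm : 0 ≤ m) : Q m .e2 .e3 .e2 .e3 := by
  intro t0 t1 t2 t3 a0 b0 a1 b1 a2 b2 a3 b3 h1 h2 h3 h4
  simp only [px, py, dx, dy] at h1 h2 h3 h4 ⊢
  have wx : 2*((-1) + t1*(1) - ((-2*m - 16) + t0*(2*m + 15))) = 0 := by
    linear_combination (2*m + 8)*h2 + (2*m + 9)*h3 + (2*m + 7)*h4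
  have Dx : (0:ℝ) < 2 := by positivity
  have wy : 2*((-2*m - 16) + t1*(2*m + 9) - ((-2*m - 16) + t0*(0))) = 0 := by
    linear_combination (-2*m - 10)*h2 + (-2*m - 9)*h3 + (-2*m - 9)*h4
  have Dy : (0:ℝ) < 2 := by positivity
  exact Or.inl ⟨sub_eq_zero.mp ((mul_eq_zero.mp wx).resolve_left Dx.ne'),
    sub_eq_zero.mp ((mul_eq_zero.mp wy).resolve_left Dy.ne')⟩

theorem q_2_3_3_3 {m : ℝ} (hm : 0 ≤ m) : Q m .e2 .e3 .e3 .e3 := by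
  intro t0 t1 t2 t3 a0 b0 a1 b1 a2 b2 a3 b3 h1 h2 h3 h4
  simp only [px, py, dx, dy] at h1 h2 h3 h4 ⊢
  have wx : (4*m^2 + 36*m + 82)*((-1) + t1*(1) - ((-2*m - 16) + t0*(2*m + 15))) = 0 := by
    linear_combination (-4*m^2 - 34*m - 72)*h1 + (2*m + 8)*h2 + (2*m + 9)*h3 + (-1)*h4
  have Dx : (0:ℝ) < (4*m^2 + 36*m + 82) := by positivity
  have wy : (4*m^2 + 36*m + 82)*((-2*m - 16) + t1*(2*m + 9) - ((-2*m - 16) + t0*(0))) = 0 := by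
    linear_combination (4*m^2 + 38*m + 90)*h1 + (-2*m - 10)*h2 + (4*m^2 + 36*m + 81)*h3 + (-2*m - 9)*h4
  have Dy : (0:ℝ) < (4*m^2 + 36*m + 82) := by positivity
  exact Or.inl ⟨sub_eq_zero.mp ((mul_eq_zero.mp wx).resolve_left Dx.ne'),
    sub_eq_zero.mp ((mul_eq_zero.mp wy).resolve_left Dy.ne')⟩

theorem q_2_4_3_3 {m : ℝ} (hm : 0 ≤ m) : Q m .e2 .e4 .e3 .e3 := by
  intro t0 t1 t2 t3 a0 b0 a1 b1 a2 b2 a3 b3 h1 h2 h3 h4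
  simp only [px, py, dx, dy] at h1 h2 h3 h4 ⊢
  exfalso
  have h : (8*m^4 + 200*m^3 + 1838*m^2 + 7356*m + 10845)*(1 - t0) + (8*m^3 + 120*m^2 + 596*m + 984) = 0 := by
    linear_combination (-4*m^3 - 66*m^2 - 350*m - 603)*h1 + (2*m^2 + 24*m + 67)*h2 + (4*m^2 + 42*m + 108)*h3 + (-2*m - 12)*h4
  have h5 : (0:ℝ) ≤ (8*m^4 + 200*m^3 + 1838*m^2 + 7356*m + 10845)*(1 - t0) := mul_nonneg (by positivity) (by linarith)
  have h6 : (0:ℝ) < (8*m^3 + 120*m^2 + 596*m + 984) := by positivity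
  linarith

theorem q_2_4_4_3 {m : ℝ} (hm : 0 ≤ m) : Q m .e2 .e4 .e4 .e3 := by
  intro t0 t1 t2 t3 a0 b0 a1 b1 a2 b2 a3 b3 h1 h2 h3 h4
  simp only [px, py, dx, dy] at h1 h2 h3 h4 ⊢
  exfalso
  have h : (8*m^4 + 224*m^3 + 2330*m^2 + 10644*m + 17955)*(1 - t0) + (8*m^2 + 96*m + 288) = 0 := by
    linear_combination (-4*m^3 - 78*m^2 - 494*m - 1005)*h1 + (-2*m^2 - 24*m - 67)*h2 + (2*m + 12)*h3 + (-4*m^2 - 54*m - 180)*h4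
  have h5 : (0:ℝ) ≤ (8*m^4 + 224*m^3 + 2330*m^2 + 10644*m + 17955)*(1 - t0) := mul_nonneg (by positivity) (by linarith)
  have h6 : (0:ℝ) < (8*m^2 + 96*m + 288) := by positivity
  linarith

theorem q_2_4_4_4 {m : ℝ} (hm : 0 ≤ m) : Q m .e2 .e4 .e4 .e4 := by
  intro t0 t1 t2 t3 a0 b0 a1 b1 a2 b2 a3 b3 h1 h2 h3 h4
  simp only [px, py, dx, dy] at h1 h2 h3 h4 ⊢
  exfalso
  have h : (4*m^2 + 60*m + 225)*(1 - t0) + (4*m + 24) = 0 := by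
    linear_combination (-2*m - 15)*h1 + (-1)*h2
  have h5 : (0:ℝ) ≤ (4*m^2 + 60*m + 225)*(1 - t0) := mul_nonneg (by positivity) (by linarith)
  have h6 : (0:ℝ) < (4*m + 24) := by positivity
  linarith

theorem q_2_5_7_11 {m : ℝ} (hm : 0 ≤ m) : Q m .e2 .e5 .e7 .e11 := by
  intro t0 t1 t2 t3 a0 b0 a1 b1 a2 b2 a3 b3 h1 h2 h3 h4
  simp only [px, py, dx, dy] at h1 h2 h3 h4 ⊢
  exfalso
  have h : (50*m^3 + 1055*m^2 + 7399*m + 17248)*(1 - t3) + (25*m^2 + 379*m + 1428) = 0 := by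
    linear_combination (-5*m - 35)*h1 + (-25*m^2 - 365*m - 1330)*h2 + (20*m + 152)*h3 + (25*m + 187)*h4
  have h5 : (0:ℝ) ≤ (50*m^3 + 1055*m^2 + 7399*m + 17248)*(1 - t3) := mul_nonneg (by positivity) (by linarith)
  have h6 : (0:ℝ) < (25*m^2 + 379*m + 1428) := by positivity
  linarith

end Six
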