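import Pool.Agent.helper91.SX.Def

/-! Squares inscribed in the 16-gon: classes of edge quadruples, part 2. -/

namespace Six

theorem q_2_5_7_12 {m : ℝ} (hm : 0 ≤ m) : Q m .e2 .e5 .e7 .e12 := by
  intro t0 t1 t2 t3 a0 b0 a1 b1 a2 b2 a3 b3 h1 h2 h3 h4
  simp only [px, py, dx, dy] at h1 h2 h3 h4 ⊢
  exfalso
  have h : (125*m^3 + 2825*m^2 + 21160*m + 52534)*t3 + (25*m^2 + 379*m + 1428) = 0 := by
    linear_combination (-5*m - 35)*h1 + (-25*m^2 - 365*m - 1330)*h2 + (20*m + 152)*h3 + (25*m + 187)*h4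
  have h5 : (0:ℝ) ≤ (125*m^3 + 2825*m^2 + 21160*m + 52534)*t3 := mul_nonneg (by positivity) a3
  have h6 : (0:ℝ) < (25*m^2 + 379*m + 1428) := by positivity
  linarith

theorem q_2_5_7_15 {m : ℝ} (hm : 0 ≤ m) : Q m .e2 .e5 .e7 .e15 := by
  intro t0 t1 t2 t3 a0 b0 a1 b1 a2 b2 a3 b3 h1 h2 h3 h4
  simp only [px, py, dx, dy] at h1 h2 h3 h4 ⊢
  exfalso
  have h : (25*m^2 + 259*m + 540)*(1 - t1) + (25*m^2 + 393*m + 1548) = 0 := by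
    linear_combination (2*m + 10)*h1 + (10*m^2 + 126*m + 380)*h2 + (-3*m - 28)*h3 + (-5*m - 38)*h4
  have h5 : (0:ℝ) ≤ (25*m^2 + 259*m + 540)*(1 - t1) := mul_nonneg (by positivity) (by linarith)
  have h6 : (0:ℝ) < (25*m^2 + 393*m + 1548) := by positivity
  linarith

theorem q_2_5_8_15 {m : ℝ} (hm : 0 ≤ m) : Q m .e2 .e5 .e8 .e15 := by
  intro t0 t1 t2 t3 a0 b0 a1 b1 a2 b2 a3 b3 h1 h2 h3 h4
  simp only [px, py, dx, dy] at h1 h2 h3 h4 ⊢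
  exfalso
  have h : (4*m^2 + 71*m + 285)*t1 + (20*m^2 + 250*m + 768) = 0 := by
    linear_combination (-2*m - 10)*h1 + (4*m^2 + 46*m + 130)*h2 + (-4*m - 23)*h3 + (-2*m - 13)*h4
  have h5 : (0:ℝ) ≤ (4*m^2 + 71*m + 285)*t1 := mul_nonneg (by positivity) a1
  have h6 : (0:ℝ) < (20*m^2 + 250*m + 768) := by positivity
  linarith

theorem q_3_3_3_3 {m : ℝ} (hm : 0 ≤ m) : Q m .e3 .e3 .e3 .e3 := by
  refine sing ?_
  have h : dx m .e3 ^ 2 + dy m .e3 ^ 2 = (1)^2 + (2*m + 9)^2 := by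
    simp only [dx, dy] <;> ring
  rw [h]; positivity

theorem q_3_3_3_4 {m : ℝ} (hm : 0 ≤ m) : Q m .e3 .e3 .e3 .e4 := by
  intro t0 t1 t2 t3 a0 b0 a1 b1 a2 b2 a3 b3 h1 h2 h3 h4
  simp only [px, py, dx, dy] at h1 h2 h3 h4 ⊢
  have wx : (4*m^2 + 36*m + 82)*((-1) + t1*(1) - ((-1) + t0*(1))) = 0 := by
    linear_combination (2*m + 9)*h1 + (-1)*h2 + (2*m + 9)*h3 + (-1)*h4
  have Dx : (0:ℝ) < (4*m^2 + 36*m + 82) := by positivity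
  have wy : (4*m^2 + 36*m + 82)*((-2*m - 16) + t1*(2*m + 9) - ((-2*m - 16) + t0*(2*m + 9))) = 0 := by
    linear_combination (4*m^2 + 36*m + 81)*h1 + (-2*m - 9)*h2 + (4*m^2 + 36*m + 81)*h3 + (-2*m - 9)*h4
  have Dy : (0:ℝ) < (4*m^2 + 36*m + 82) := by positivity
  exact Or.inl ⟨sub_eq_zero.mp ((mul_eq_zero.mp wx).resolve_left Dx.ne'),
    sub_eq_zero.mp ((mul_eq_zero.mp wy).resolve_left Dy.ne')⟩

theorem q_3_3_4_4 {m : ℝ} (hm : 0 ≤ m) : Q m .e3 .e3 .e4 .e4 := by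
  intro t0 t1 t2 t3 a0 b0 a1 b1 a2 b2 a3 b3 h1 h2 h3 h4
  simp only [px, py, dx, dy] at h1 h2 h3 h4 ⊢
  have wx : (4*m + 24)*((-1) + t1*(1) - ((-1) + t0*(1))) = 0 := by
    linear_combination (-2*m - 15)*h1 + (-1)*h2
  have Dx : (0:ℝ) < (4*m + 24) := by positivity
  have wy : (4*m + 24)*((-2*m - 16) + t1*(2*m + 9) - ((-2*m - 16) + t0*(2*m + 9))) = 0 := by
    linear_combination (-4*m^2 - 48*m - 135)*h1 + (-2*m - 9)*h2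
  have Dy : (0:ℝ) < (4*m + 24) := by positivity
  exact Or.inl ⟨sub_eq_zero.mp ((mul_eq_zero.mp wx).resolve_left Dx.ne'),
    sub_eq_zero.mp ((mul_eq_zero.mp wy).resolve_left Dy.ne')⟩

theorem q_3_4_3_4 {m : ℝ} (hm : 0 ≤ m) : Q m .e3 .e4 .e3 .e4 := by
  intro t0 t1 t2 t3 a0 b0 a1 b1 a2 b2 a3 b3 h1 h2 h3 h4
  simp only [px, py, dx, dy] at h1 h2 h3 h4 ⊢
  have wx : (4*m^2 + 48*m + 134)*((0) + t1*(1) - ((-1) + t0*(1))) = 0 := by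
    linear_combination (-2*m^2 - 25*m - 72)*h1 + (m + 8)*h2 + 3*h3 + (2*m + 13)*h4
  have Dx : (0:ℝ) < (4*m^2 + 48*m + 134) := by positivity
  have wy : (4*m^2 + 48*m + 134)*((-7) + t1*(-2*m - 15) - ((-2*m - 16) + t0*(2*m + 9))) = 0 := by
    linear_combination (2*m^2 + 23*m + 63)*h1 + (-m - 7)*h2 + (4*m^2 + 46*m + 123)*h3 + (-3)*h4
  have Dy : (0:ℝ) < (4*m^2 + 48*m + 134) := by positivity
  exact Or.inl ⟨sub_eq_zero.mp ((mul_eq_zero.mp wx).resolve_left Dx.ne'),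
    sub_eq_zero.mp ((mul_eq_zero.mp wy).resolve_left Dy.ne')⟩

theorem q_3_4_4_4 {m : ℝ} (hm : 0 ≤ m) : Q m .e3 .e4 .e4 .e4 := by
  intro t0 t1 t2 t3 a0 b0 a1 b1 a2 b2 a3 b3 h1 h2 h3 h4
  simp only [px, py, dx, dy] at h1 h2 h3 h4 ⊢
  have wx : (4*m^2 + 60*m + 226)*((0) + t1*(1) - ((-1) + t0*(1))) = 0 := by
    linear_combination (-4*m^2 - 62*m - 240)*h1 + (-2*m - 16)*h2 + (-2*m - 15)*h3 + (-1)*h4
  have Dx : (0:ℝ) < (4*m^2 + 60*m + 226) := by positivity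
  have wy : (4*m^2 + 60*m + 226)*((-7) + t1*(-2*m - 15) - ((-2*m - 16) + t0*(2*m + 9))) = 0 := by
    linear_combination (4*m^2 + 58*m + 210)*h1 + (2*m + 14)*h2 + (4*m^2 + 60*m + 225)*h3 + (2*m + 15)*h4
  have Dy : (0:ℝ) < (4*m^2 + 60*m + 226) := by positivity
  exact Or.inl ⟨sub_eq_zero.mp ((mul_eq_zero.mp wx).resolve_left Dx.ne'),
    sub_eq_zero.mp ((mul_eq_zero.mp wy).resolve_left Dy.ne')⟩

theorem q_3_5_5_7 {m : ℝ} (hm : 0 ≤ m) : Q m .e3 .e5 .e5 .e7 := by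
  intro t0 t1 t2 t3 a0 b0 a1 b1 a2 b2 a3 b3 h1 h2 h3 h4
  simp only [px, py, dx, dy] at h1 h2 h3 h4 ⊢
  exfalso
  have h : (250*m^4 + 7175*m^3 + 76120*m^2 + 351915*m + 593468)*(1 - t0) + (625*m^3 + 14640*m^2 + 114757*m + 300954) = 0 := by
    linear_combination (100*m^2 + 1540*m + 5912)*h1 + (-125*m^3 - 2900*m^2 - 22405*m - 57642)*h2 + (125*m^2 + 1930*m + 7449)*h3 + (100*m + 764)*h4
  have h5 : (0:ℝ) ≤ (250*m^4 + 7175*m^3 + 76120*m^2 + 351915*m + 593468)*(1 - t0) := mul_nonneg (by positivity) (by linarith)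
  have h6 : (0:ℝ) < (625*m^3 + 14640*m^2 + 114757*m + 300954) := by positivity
  linarith

theorem q_3_7_11_15 {m : ℝ} (hm : 0 ≤ m) : Q m .e3 .e7 .e11 .e15 := by
  intro t0 t1 t2 t3 a0 b0 a1 b1 a2 b2 a3 b3 h1 h2 h3 h4
  simp only [px, py, dx, dy] at h1 h2 h3 h4 ⊢
  exfalso
  have h : (52*m^3 + 964*m^2 + 5838*m + 11574)*(1 - t0) + (24*m^2 + 358*m + 1294) = 0 := by
    linear_combination (20*m^3 + 372*m^2 + 2279*m + 4609)*h1 + (-30*m^2 - 393*m - 1257)*h2 + (20*m^3 + 362*m^2 + 2161*m + 4291)*h3 + (-20*m^3 - 376*m^2 - 2327*m - 4755)*h4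
  have h5 : (0:ℝ) ≤ (52*m^3 + 964*m^2 + 5838*m + 11574)*(1 - t0) := mul_nonneg (by positivity) (by linarith)
  have h6 : (0:ℝ) < (24*m^2 + 358*m + 1294) := by positivity
  linarith

theorem q_3_7_12_14 {m : ℝ} (hm : 0 ≤ m) : Q m .e3 .e7 .e12 .e14 := by
  intro t0 t1 t2 t3 a0 b0 a1 b1 a2 b2 a3 b3 h1 h2 h3 h4
  simp only [px, py, dx, dy] at h1 h2 h3 h4 ⊢
  exfalso
  have h : (150*m^4 + 4130*m^3 + 42281*m^2 + 190458*m + 317856)*(1 - t3) + (80*m^3 + 1449*m^2 + 8713*m + 17496) = 0 := by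
    linear_combination (-50*m^3 - 970*m^2 - 6200*m - 13020)*h1 + (-30*m^2 - 372*m - 1116)*h2 + (-50*m^3 - 985*m^2 - 6302*m - 12972)*h3 + (50*m^3 + 980*m^2 + 6315*m + 13332)*h4
  have h5 : (0:ℝ) ≤ (150*m^4 + 4130*m^3 + 42281*m^2 + 190458*m + 317856)*(1 - t3) := mul_nonneg (by positivity) (by linarith)
  have h6 : (0:ℝ) < (80*m^3 + 1449*m^2 + 8713*m + 17496) := by positivity
  linarith

theorem q_3_7_12_15 {m : ℝ} (hm : 0 ≤ m) : Q m .e3 .e7 .e12 .e15 := by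
  intro t0 t1 t2 t3 a0 b0 a1 b1 a2 b2 a3 b3 h1 h2 h3 h4
  simp only [px, py, dx, dy] at h1 h2 h3 h4 ⊢
  exfalso
  have h : (80*m^3 + 1379*m^2 + 7713*m + 13920)*t2 + (28*m^2 + 342*m + 1034) = 0 := by
    linear_combination (-20*m^3 - 358*m^2 - 2101*m - 4045)*h1 + (4*m^2 + 33*m + 51)*h2 + (-20*m^3 - 348*m^2 - 1977*m - 3673)*h3 + (20*m^3 + 362*m^2 + 2141*m + 4143)*h4
  have h5 : (0:ℝ) ≤ (80*m^3 + 1379*m^2 + 7713*m + 13920)*t2 := mul_nonneg (by positivity) a2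
  have h6 : (0:ℝ) < (28*m^2 + 342*m + 1034) := by positivity
  linarith

theorem q_3_8_11_15 {m : ℝ} (hm : 0 ≤ m) : Q m .e3 .e8 .e11 .e15 := by
  intro t0 t1 t2 t3 a0 b0 a1 b1 a2 b2 a3 b3 h1 h2 h3 h4
  simp only [px, py, dx, dy] at h1 h2 h3 h4 ⊢
  exfalso
  have h : (16*m^3 + 272*m^2 + 1528*m + 2832)*(1 - t0) + (16*m^2 + 200*m + 628) = 0 := by
    linear_combination (4*m^3 + 70*m^2 + 406*m + 781)*h1 + (-6*m^2 - 72*m - 213)*h2 + (4*m^3 + 68*m^2 + 386*m + 736)*h3 + (-4*m^3 - 68*m^2 - 382*m - 708)*h4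
  have h5 : (0:ℝ) ≤ (16*m^3 + 272*m^2 + 1528*m + 2832)*(1 - t0) := mul_nonneg (by positivity) (by linarith)
  have h6 : (0:ℝ) < (16*m^2 + 200*m + 628) := by positivity
  linarith

theorem q_3_8_12_14 {m : ℝ} (hm : 0 ≤ m) : Q m .e3 .e8 .e12 .e14 := by
  intro t0 t1 t2 t3 a0 b0 a1 b1 a2 b2 a3 b3 h1 h2 h3 h4
  simp only [px, py, dx, dy] at h1 h2 h3 h4 ⊢
  exfalso
  have h : (60*m^4 + 1586*m^3 + 15601*m^2 + 67574*m + 108504)*(1 - t3) + (4*m^3 + 80*m^2 + 544*m + 1272) = 0 := by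
    linear_combination (-20*m^3 - 380*m^2 - 2370*m - 4830)*h1 + (-12*m^2 - 144*m - 414)*h2 + (-20*m^3 - 372*m^2 - 2263*m - 4470)*h3 + (20*m^3 + 370*m^2 + 2255*m + 4518)*h4
  have h5 : (0:ℝ) ≤ (60*m^4 + 1586*m^3 + 15601*m^2 + 67574*m + 108504)*(1 - t3) := mul_nonneg (by positivity) (by linarith)
  have h6 : (0:ℝ) < (4*m^3 + 80*m^2 + 544*m + 1272) := by positivity
  linarith

theorem q_3_8_12_15 {m : ℝ} (hm : 0 ≤ m) : Q m .e3 .e8 .e12 .e15 := by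
  intro t0 t1 t2 t3 a0 b0 a1 b1 a2 b2 a3 b3 h1 h2 h3 h4
  simp only [px, py, dx, dy] at h1 h2 h3 h4 ⊢
  exfalso
  have h : (2*m^3 + 40*m^2 + 251*m + 486)*t2 + (8*m + 44) = 0 := by
    linear_combination (-4*m^3 - 70*m^2 - 402*m - 757)*h1 + (-2*m^2 - 20*m - 51)*h2 + (-4*m^3 - 68*m^2 - 378*m - 688)*h3 + (4*m^3 + 68*m^2 + 382*m + 708)*h4
  have h5 : (0:ℝ) ≤ (2*m^3 + 40*m^2 + 251*m + 486)*t2 := mul_nonneg (by positivity) a2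
  have h6 : (0:ℝ) < (8*m + 44) := by positivity
  linarith

theorem q_3_9_12_14 {m : ℝ} (hm : 0 ≤ m) : Q m .e3 .e9 .e12 .e14 := by
  intro t0 t1 t2 t3 a0 b0 a1 b1 a2 b2 a3 b3 h1 h2 h3 h4
  simp only [px, py, dx, dy] at h1 h2 h3 h4 ⊢
  exfalso
  have h : (8*m^2 + 125*m + 516)*(1 - t1) + (14*m^2 + 123*m + 148) = 0 := by
    linear_combination (-10*m^2 - 120*m - 350)*h1 + (-6*m - 30)*h2 + (-5*m - 38)*h3 + (-6*m - 30)*h4
  have h5 : (0:ℝ) ≤ (8*m^2 + 125*m + 516)*(1 - t1) := mul_nonneg (by positivity) (by linarith)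
  have h6 : (0:ℝ) < (14*m^2 + 123*m + 148) := by positivity
  linarith

theorem q_4_4_4_4 {m : ℝ} (hm : 0 ≤ m) : Q m .e4 .e4 .e4 .e4 := by
  refine sing ?_
  have h : dx m .e4 ^ 2 + dy m .e4 ^ 2 = (1)^2 + (2*m + 15)^2 := by
    simp only [dx, dy] <;> ring
  rw [h]; positivity

theorem q_4_4_4_5 {m : ℝ} (hm : 0 ≤ m) : Q m .e4 .e4 .e4 .e5 := by
  intro t0 t1 t2 t3 a0 b0 a1 b1 a2 b2 a3 b3 h1 h2 h3 h4
  simp only [px, py, dx, dy] at h1 h2 h3 h4 ⊢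
  have wx : (4*m^2 + 60*m + 226)*((0) + t1*(1) - ((0) + t0*(1))) = 0 := by
    linear_combination (-2*m - 15)*h1 + (-1)*h2 + (-2*m - 15)*h3 + (-1)*h4
  have Dx : (0:ℝ) < (4*m^2 + 60*m + 226) := by positivity
  have wy : (4*m^2 + 60*m + 226)*((-7) + t1*(-2*m - 15) - ((-7) + t0*(-2*m - 15))) = 0 := by
    linear_combination (4*m^2 + 60*m + 225)*h1 + (2*m + 15)*h2 + (4*m^2 + 60*m + 225)*h3 + (2*m + 15)*h4
  have Dy : (0:ℝ) < (4*m^2 + 60*m + 226) := by positivity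
  exact Or.inl ⟨sub_eq_zero.mp ((mul_eq_zero.mp wx).resolve_left Dx.ne'),
    sub_eq_zero.mp ((mul_eq_zero.mp wy).resolve_left Dy.ne')⟩

theorem q_4_4_5_5 {m : ℝ} (hm : 0 ≤ m) : Q m .e4 .e4 .e5 .e5 := by
  intro t0 t1 t2 t3 a0 b0 a1 b1 a2 b2 a3 b3 h1 h2 h3 h4
  simp only [px, py, dx, dy] at h1 h2 h3 h4 ⊢
  have wx : (10*m^2 + 153*m + 589)*((0) + t1*(1) - ((0) + t0*(1))) = 0 := by
    linear_combination (-4)*h1 + (5*m + 39)*h2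
  have Dx : (0:ℝ) < (10*m^2 + 153*m + 589) := by positivity
  have wy : (10*m^2 + 153*m + 589)*((-7) + t1*(-2*m - 15) - ((-7) + t0*(-2*m - 15))) = 0 := by
    linear_combination (8*m + 60)*h1 + (-10*m^2 - 153*m - 585)*h2
  have Dy : (0:ℝ) < (10*m^2 + 153*m + 589) := by positivity
  exact Or.inl ⟨sub_eq_zero.mp ((mul_eq_zero.mp wx).resolve_left Dx.ne'),
    sub_eq_zero.mp ((mul_eq_zero.mp wy).resolve_left Dy.ne')⟩

theorem q_4_5_4_5 {m : ℝ} (hm : 0 ≤ m) : Q m .e4 .e5 .e4 .e5 := by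
  intro t0 t1 t2 t3 a0 b0 a1 b1 a2 b2 a3 b3 h1 h2 h3 h4
  simp only [px, py, dx, dy] at h1 h2 h3 h4 ⊢
  have wx : 6*((1) + t1*(5*m + 39) - ((0) + t0*(1))) = 0 := by
    linear_combination (10*m + 75)*h1 + 5*h2 + (10*m + 83)*h3 + (-10*m - 73)*h4
  have Dx : (0:ℝ) < 6 := by positivity
  have wy : (6*m + 42)*((-2*m - 22) + t1*(4) - ((-7) + t0*(-2*m - 15))) = 0 := by
    linear_combination (10*m^2 + 161*m + 645)*h1 + (5*m + 43)*h2 + (10*m^2 + 169*m + 709)*h3 + (-10*m^2 - 153*m - 581)*h4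
  have Dy : (0:ℝ) < (6*m + 42) := by positivity
  exact Or.inl ⟨sub_eq_zero.mp ((mul_eq_zero.mp wx).resolve_left Dx.ne'),
    sub_eq_zero.mp ((mul_eq_zero.mp wy).resolve_left Dy.ne')⟩

theorem q_4_5_5_5 {m : ℝ} (hm : 0 ≤ m) : Q m .e4 .e5 .e5 .e5 := by
  intro t0 t1 t2 t3 a0 b0 a1 b1 a2 b2 a3 b3 h1 h2 h3 h4
  simp only [px, py, dx, dy] at h1 h2 h3 h4 ⊢
  have wx : (25*m^2 + 390*m + 1537)*((1) + t1*(5*m + 39) - ((0) + t0*(1))) = 0 := by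
    linear_combination (20*m + 140)*h1 + (-25*m^2 - 370*m - 1365)*h2 + (20*m + 156)*h3 + (-25*m^2 - 390*m - 1521)*h4
  have Dx : (0:ℝ) < (25*m^2 + 390*m + 1537) := by positivity
  have wy : (25*m^2 + 390*m + 1537)*((-2*m - 22) + t1*(4) - ((-7) + t0*(-2*m - 15))) = 0 := by
    linear_combination (20*m + 172)*h1 + (-25*m^2 - 410*m - 1677)*h2 + 16*h3 + (-20*m - 156)*h4
  have Dy : (0:ℝ) < (25*m^2 + 390*m + 1537) := by positivity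
  exact Or.inl ⟨sub_eq_zero.mp ((mul_eq_zero.mp wx).resolve_left Dx.ne'),
    sub_eq_zero.mp ((mul_eq_zero.mp wy).resolve_left Dy.ne')⟩

theorem q_4_5_5_7 {m : ℝ} (hm : 0 ≤ m) : Q m .e4 .e5 .e5 .e7 := by
  intro t0 t1 t2 t3 a0 b0 a1 b1 a2 b2 a3 b3 h1 h2 h3 h4
  simp only [px, py, dx, dy] at h1 h2 h3 h4 ⊢
  exfalso
  have h : (250*m^4 + 7925*m^3 + 94220*m^2 + 497945*m + 987052)*t0 + (625*m^3 + 14640*m^2 + 114757*m + 300954) = 0 := by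
    linear_combination (100*m^2 + 1540*m + 5912)*h1 + (-125*m^3 - 2900*m^2 - 22405*m - 57642)*h2 + (125*m^2 + 1930*m + 7449)*h3 + (100*m + 764)*h4
  have h5 : (0:ℝ) ≤ (250*m^4 + 7925*m^3 + 94220*m^2 + 497945*m + 987052)*t0 := mul_nonneg (by positivity) a0
  have h6 : (0:ℝ) < (625*m^3 + 14640*m^2 + 114757*m + 300954) := by positivity
  linarith

theorem q_4_7_10_15 {m : ℝ} (hm : 0 ≤ m) : Q m .e4 .e7 .e10 .e15 := by
  intro t0 t1 t2 t3 a0 b0 a1 b1 a2 b2 a3 b3 h1 h2 h3 h4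
  simp only [px, py, dx, dy] at h1 h2 h3 h4 ⊢
  exfalso
  have h : (40*m^4 + 1076*m^3 + 10750*m^2 + 47252*m + 77082)*(1 - t2) + (12*m^3 + 340*m^2 + 2932*m + 7916) = 0 := by
    linear_combination (20*m^3 + 418*m^2 + 2891*m + 6611)*h1 + (-24*m^2 - 331*m - 1125)*h2 + (20*m^3 + 408*m^2 + 2747*m + 6095)*h3 + (-20*m^3 - 422*m^2 - 2947*m - 6801)*h4
  have h5 : (0:ℝ) ≤ (40*m^4 + 1076*m^3 + 10750*m^2 + 47252*m + 77082)*(1 - t2) := mul_nonneg (by positivity) (by linarith)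
  have h6 : (0:ℝ) < (12*m^3 + 340*m^2 + 2932*m + 7916) := by positivity
  linarith

theorem q_4_7_11_15 {m : ℝ} (hm : 0 ≤ m) : Q m .e4 .e7 .e11 .e15 := by
  intro t0 t1 t2 t3 a0 b0 a1 b1 a2 b2 a3 b3 h1 h2 h3 h4
  simp only [px, py, dx, dy] at h1 h2 h3 h4 ⊢
  exfalso
  have h : (6*m^3 + 164*m^2 + 1391*m + 3729)*(1 - t3) + (6*m^2 + 66*m + 156) = 0 := by
    linear_combination (10*m^3 + 199*m^2 + 1308*m + 2838)*h1 + (-15*m^2 - 216*m - 774)*h2 + (10*m^3 + 191*m^2 + 1177*m + 2304)*h3 + (-10*m^3 - 201*m^2 - 1334*m - 2919)*h4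
  have h5 : (0:ℝ) ≤ (6*m^3 + 164*m^2 + 1391*m + 3729)*(1 - t3) := mul_nonneg (by positivity) (by linarith)
  have h6 : (0:ℝ) < (6*m^2 + 66*m + 156) := by positivity
  linarith

theorem q_4_7_12_14 {m : ℝ} (hm : 0 ≤ m) : Q m .e4 .e7 .e12 .e14 := by
  intro t0 t1 t2 t3 a0 b0 a1 b1 a2 b2 a3 b3 h1 h2 h3 h4
  simp only [px, py, dx, dy] at h1 h2 h3 h4 ⊢
  exfalso
  have h : (150*m^4 + 4430*m^3 + 49011*m^2 + 240742*m + 442992)*(1 - t3) + (180*m^3 + 3719*m^2 + 25403*m + 57312) = 0 := by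
    linear_combination (-50*m^3 - 1070*m^2 - 7620*m - 18060)*h1 + (-30*m^2 - 432*m - 1548)*h2 + (-50*m^3 - 1135*m^2 - 8582*m - 21612)*h3 + (50*m^3 + 1080*m^2 + 7765*m + 18588)*h4
  have h5 : (0:ℝ) ≤ (150*m^4 + 4430*m^3 + 49011*m^2 + 240742*m + 442992)*(1 - t3) := mul_nonneg (by positivity) (by linarith)
  have h6 : (0:ℝ) < (180*m^3 + 3719*m^2 + 25403*m + 57312) := by positivity
  linarith

theorem q_4_7_12_15 {m : ℝ} (hm : 0 ≤ m) : Q m .e4 .e7 .e12 .e15 := by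
  intro t0 t1 t2 t3 a0 b0 a1 b1 a2 b2 a3 b3 h1 h2 h3 h4
  simp only [px, py, dx, dy] at h1 h2 h3 h4 ⊢
  exfalso
  have h : (180*m^3 + 3749*m^2 + 25883*m + 59208)*t0 + (150*m^2 + 2012*m + 6722) = 0 := by
    linear_combination (-50*m^3 - 1005*m^2 - 6680*m - 14665)*h1 + (-30*m^2 - 393*m - 1257)*h2 + (-50*m^3 - 980*m^2 - 6295*m - 13189)*h3 + (50*m^3 + 1015*m^2 + 6794*m + 14979)*h4
  have h5 : (0:ℝ) ≤ (180*m^3 + 3749*m^2 + 25883*m + 59208)*t0 := mul_nonneg (by positivity) a0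
  have h6 : (0:ℝ) < (150*m^2 + 2012*m + 6722) := by positivity
  linarith

theorem q_4_8_11_15 {m : ℝ} (hm : 0 ≤ m) : Q m .e4 .e8 .e11 .e15 := by
  intro t0 t1 t2 t3 a0 b0 a1 b1 a2 b2 a3 b3 h1 h2 h3 h4
  simp only [px, py, dx, dy] at h1 h2 h3 h4 ⊢
  exfalso
  have h : (8*m^3 + 176*m^2 + 1260*m + 2952)*t0 + (16*m^2 + 200*m + 628) = 0 := by
    linear_combination (4*m^3 + 70*m^2 + 406*m + 781)*h1 + (-6*m^2 - 72*m - 213)*h2 + (4*m^3 + 68*m^2 + 386*m + 736)*h3 + (-4*m^3 - 68*m^2 - 382*m - 708)*h4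
  have h5 : (0:ℝ) ≤ (8*m^3 + 176*m^2 + 1260*m + 2952)*t0 := mul_nonneg (by positivity) a0
  have h6 : (0:ℝ) < (16*m^2 + 200*m + 628) := by positivity
  linarith

theorem q_4_8_12_15 {m : ℝ} (hm : 0 ≤ m) : Q m .e4 .e8 .e12 .e15 := by
  intro t0 t1 t2 t3 a0 b0 a1 b1 a2 b2 a3 b3 h1 h2 h3 h4
  simp only [px, py, dx, dy] at h1 h2 h3 h4 ⊢
  exfalso
  have h : (22*m^3 + 436*m^2 + 2889*m + 6402)*t0 + (2*m^2 + 52*m + 260) = 0 := by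
    linear_combination (-10*m^3 - 190*m^2 - 1195*m - 2485)*h1 + (-6*m^2 - 72*m - 213)*h2 + (-10*m^3 - 185*m^2 - 1127*m - 2254)*h3 + (10*m^3 + 185*m^2 + 1138*m + 2328)*h4
  have h5 : (0:ℝ) ≤ (22*m^3 + 436*m^2 + 2889*m + 6402)*t0 := mul_nonneg (by positivity) a0
  have h6 : (0:ℝ) < (2*m^2 + 52*m + 260) := by positivity
  linarith

theorem q_4_9_12_14 {m : ℝ} (hm : 0 ≤ m) : Q m .e4 .e9 .e12 .e14 := by
  intro t0 t1 t2 t3 a0 b0 a1 b1 a2 b2 a3 b3 h1 h2 h3 h4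
  simp only [px, py, dx, dy] at h1 h2 h3 h4 ⊢
  exfalso
  have h : (12*m^2 + 201*m + 828)*t1 + (2*m^2 + 40*m + 200) = 0 := by
    linear_combination (-10*m^2 - 140*m - 490)*h1 + (-6*m - 42)*h2 + (5*m + 38)*h3 + (-6*m - 42)*h4
  have h5 : (0:ℝ) ≤ (12*m^2 + 201*m + 828)*t1 := mul_nonneg (by positivity) a1
  have h6 : (0:ℝ) < (2*m^2 + 40*m + 200) := by positivity
  linarith

end Six
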