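import Pool.Agent.helper91.SX.Def

/-! Squares inscribed in the 16-gon: classes of edge quadruples, part 3. -/

namespace Six

theorem q_4_9_12_15 {m : ℝ} (hm : 0 ≤ m) : Q m .e4 .e9 .e12 .e15 := by
  intro t0 t1 t2 t3 a0 b0 a1 b1 a2 b2 a3 b3 h1 h2 h3 h4
  simp only [px, py, dx, dy] at h1 h2 h3 h4 ⊢
  exfalso
  have h : (40*m^4 + 1136*m^3 + 11992*m^2 + 55680*m + 95796)*t3 + (4*m^3 + 140*m^2 + 1456*m + 4632) = 0 := by
    linear_combination (-20*m^3 - 460*m^2 - 3530*m - 9030)*h1 + (-12*m^2 - 192*m - 774)*h2 + (-2*m^2 - 47*m - 246)*h3 + (9*m + 54)*h4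
  have h5 : (0:ℝ) ≤ (40*m^4 + 1136*m^3 + 11992*m^2 + 55680*m + 95796)*t3 := mul_nonneg (by positivity) a3
  have h6 : (0:ℝ) < (4*m^3 + 140*m^2 + 1456*m + 4632) := by positivity
  linarith

theorem q_5_5_5_5 {m : ℝ} (hm : 0 ≤ m) : Q m .e5 .e5 .e5 .e5 := by
  refine sing ?_
  have h : dx m .e5 ^ 2 + dy m .e5 ^ 2 = (5*m + 39)^2 + (4)^2 := by
    simp only [dx, dy] <;> ring
  rw [h]; positivity

theorem q_5_5_5_6 {m : ℝ} (hm : 0 ≤ m) : Q m .e5 .e5 .e5 .e6 := by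
  intro t0 t1 t2 t3 a0 b0 a1 b1 a2 b2 a3 b3 h1 h2 h3 h4
  simp only [px, py, dx, dy] at h1 h2 h3 h4 ⊢
  have wx : (25*m^2 + 390*m + 1537)*((1) + t1*(5*m + 39) - ((1) + t0*(5*m + 39))) = 0 := by
    linear_combination (20*m + 156)*h1 + (-25*m^2 - 390*m - 1521)*h2 + (20*m + 156)*h3 + (-25*m^2 - 390*m - 1521)*h4
  have Dx : (0:ℝ) < (25*m^2 + 390*m + 1537) := by positivity
  have wy : (25*m^2 + 390*m + 1537)*((-2*m - 22) + t1*(4) - ((-2*m - 22) + t0*(4))) = 0 := by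
    linear_combination 16*h1 + (-20*m - 156)*h2 + 16*h3 + (-20*m - 156)*h4
  have Dy : (0:ℝ) < (25*m^2 + 390*m + 1537) := by positivity
  exact Or.inl ⟨sub_eq_zero.mp ((mul_eq_zero.mp wx).resolve_left Dx.ne'),
    sub_eq_zero.mp ((mul_eq_zero.mp wy).resolve_left Dy.ne')⟩

theorem q_5_5_5_7 {m : ℝ} (hm : 0 ≤ m) : Q m .e5 .e5 .e5 .e7 := by
  intro t0 t1 t2 t3 a0 b0 a1 b1 a2 b2 a3 b3 h1 h2 h3 h4
  simp only [px, py, dx, dy] at h1 h2 h3 h4 ⊢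
  exfalso
  have h : (25*m + 191)*t3 + (10*m^2 + 163*m + 659) = 0 := by
    linear_combination 4*h1 + (-5*m - 39)*h2
  have h5 : (0:ℝ) ≤ (25*m + 191)*t3 := mul_nonneg (by positivity) a3
  have h6 : (0:ℝ) < (10*m^2 + 163*m + 659) := by positivity
  linarith

theorem q_5_5_6_6 {m : ℝ} (hm : 0 ≤ m) : Q m .e5 .e5 .e6 .e6 := by
  intro t0 t1 t2 t3 a0 b0 a1 b1 a2 b2 a3 b3 h1 h2 h3 h4
  simp only [px, py, dx, dy] at h1 h2 h3 h4 ⊢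
  have wx : (10*m^2 + 163*m + 659)*((1) + t1*(5*m + 39) - ((1) + t0*(5*m + 39))) = 0 := by
    linear_combination (-10*m^2 - 163*m - 663)*h1 + (5*m + 39)*h2
  have Dx : (0:ℝ) < (10*m^2 + 163*m + 659) := by positivity
  have wy : (10*m^2 + 163*m + 659)*((-2*m - 22) + t1*(4) - ((-2*m - 22) + t0*(4))) = 0 := by
    linear_combination (-8*m - 68)*h1 + 4*h2
  have Dy : (0:ℝ) < (10*m^2 + 163*m + 659) := by positivity
  exact Or.inl ⟨sub_eq_zero.mp ((mul_eq_zero.mp wx).resolve_left Dx.ne'),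
    sub_eq_zero.mp ((mul_eq_zero.mp wy).resolve_left Dy.ne')⟩

theorem q_5_5_6_7 {m : ℝ} (hm : 0 ≤ m) : Q m .e5 .e5 .e6 .e7 := by
  intro t0 t1 t2 t3 a0 b0 a1 b1 a2 b2 a3 b3 h1 h2 h3 h4
  simp only [px, py, dx, dy] at h1 h2 h3 h4 ⊢
  exfalso
  have h : (250*m^4 + 7675*m^3 + 88350*m^2 + 452179*m + 868570)*(1 - t2) + (250*m^3 + 5985*m^2 + 47608*m + 125869) = 0 := by
    linear_combination (-25*m^2 - 490*m - 2301)*h1 + (-125*m^3 - 2775*m^2 - 20575*m - 50957)*h2 + (-100*m - 764)*h3 + (125*m^2 + 1930*m + 7449)*h4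
  have h5 : (0:ℝ) ≤ (250*m^4 + 7675*m^3 + 88350*m^2 + 452179*m + 868570)*(1 - t2) := mul_nonneg (by positivity) (by linarith)
  have h6 : (0:ℝ) < (250*m^3 + 5985*m^2 + 47608*m + 125869) := by positivity
  linarith

theorem q_5_5_7_7 {m : ℝ} (hm : 0 ≤ m) : Q m .e5 .e5 .e7 .e7 := by
  intro t0 t1 t2 t3 a0 b0 a1 b1 a2 b2 a3 b3 h1 h2 h3 h4
  simp only [px, py, dx, dy] at h1 h2 h3 h4 ⊢
  exfalso
  have h : (625*m^2 + 9550*m + 36481)*(1 - t0) + (250*m^3 + 5935*m^2 + 46926*m + 123577) = 0 := by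
    linear_combination (-25*m^2 - 385*m - 1478)*h1 + (-125*m^3 - 2875*m^2 - 22020*m - 56164)*h2 + (25*m + 191)*h3 + (125*m^2 + 1905*m + 7258)*h4
  have h5 : (0:ℝ) ≤ (625*m^2 + 9550*m + 36481)*(1 - t0) := mul_nonneg (by positivity) (by linarith)
  have h6 : (0:ℝ) < (250*m^3 + 5935*m^2 + 46926*m + 123577) := by positivity
  linarith

theorem q_5_5_7_8 {m : ℝ} (hm : 0 ≤ m) : Q m .e5 .e5 .e7 .e8 := by
  intro t0 t1 t2 t3 a0 b0 a1 b1 a2 b2 a3 b3 h1 h2 h3 h4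
  simp only [px, py, dx, dy] at h1 h2 h3 h4 ⊢
  exfalso
  have h : (175*m^3 + 3930*m^2 + 29751*m + 75904)*(1 - t2) + (30*m^3 + 694*m^2 + 4994*m + 11050) = 0 := by
    linear_combination (25*m^2 + 378*m + 1485)*h1 + (-50*m^3 - 1090*m^2 - 7962*m - 19474)*h2 + (-12*m - 52)*h3 + (15*m^2 + 182*m + 507)*h4
  have h5 : (0:ℝ) ≤ (175*m^3 + 3930*m^2 + 29751*m + 75904)*(1 - t2) := mul_nonneg (by positivity) (by linarith)
  have h6 : (0:ℝ) < (30*m^3 + 694*m^2 + 4994*m + 11050) := by positivity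
  linarith

theorem q_5_5_7_9 {m : ℝ} (hm : 0 ≤ m) : Q m .e5 .e5 .e7 .e9 := by
  intro t0 t1 t2 t3 a0 b0 a1 b1 a2 b2 a3 b3 h1 h2 h3 h4
  simp only [px, py, dx, dy] at h1 h2 h3 h4 ⊢
  exfalso
  have h : (250*m^4 + 8175*m^3 + 100270*m^2 + 546815*m + 1118762)*t3 + (425*m^3 + 10540*m^2 + 86909*m + 238254) = 0 := by
    linear_combination (-25*m^2 - 390*m - 1537)*h1 + (-125*m^3 - 2900*m^2 - 22505*m - 58406)*h2 + (-100*m - 764)*h3 + (125*m^2 + 1930*m + 7449)*h4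
  have h5 : (0:ℝ) ≤ (250*m^4 + 8175*m^3 + 100270*m^2 + 546815*m + 1118762)*t3 := mul_nonneg (by positivity) a3
  have h6 : (0:ℝ) < (425*m^3 + 10540*m^2 + 86909*m + 238254) := by positivity
  linarith

theorem q_5_6_5_6 {m : ℝ} (hm : 0 ≤ m) : Q m .e5 .e6 .e5 .e6 := by
  intro t0 t1 t2 t3 a0 b0 a1 b1 a2 b2 a3 b3 h1 h2 h3 h4
  simp only [px, py, dx, dy] at h1 h2 h3 h4 ⊢
  have wx : (26*m + 214)*((5*m + 40) + t1*(1) - ((1) + t0*(5*m + 39))) = 0 := by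
    linear_combination (-8*m - 64)*h1 + (10*m^2 + 158*m + 624)*h2 + (10*m^2 + 163*m + 667)*h3 + (10*m^2 + 153*m + 581)*h4
  have Dx : (0:ℝ) < (26*m + 214) := by positivity
  have wy : (26*m + 214)*((-2*m - 18) + t1*(2*m + 17) - ((-2*m - 22) + t0*(4))) = 0 := by
    linear_combination (8*m + 72)*h1 + (-10*m^2 - 168*m - 702)*h2 + (-10*m^2 - 147*m - 523)*h3 + (-10*m^2 - 163*m - 667)*h4
  have Dy : (0:ℝ) < (26*m + 214) := by positivity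
  exact Or.inl ⟨sub_eq_zero.mp ((mul_eq_zero.mp wx).resolve_left Dx.ne'),
    sub_eq_zero.mp ((mul_eq_zero.mp wy).resolve_left Dy.ne')⟩

theorem q_5_6_6_6 {m : ℝ} (hm : 0 ≤ m) : Q m .e5 .e6 .e6 .e6 := by
  intro t0 t1 t2 t3 a0 b0 a1 b1 a2 b2 a3 b3 h1 h2 h3 h4
  simp only [px, py, dx, dy] at h1 h2 h3 h4 ⊢
  have wx : (4*m^2 + 68*m + 290)*((5*m + 40) + t1*(1) - ((1) + t0*(5*m + 39))) = 0 := by
    linear_combination (-4*m^2 - 66*m - 272)*h1 + (2*m + 16)*h2 + (2*m + 17)*h3 + (-1)*h4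
  have Dx : (0:ℝ) < (4*m^2 + 68*m + 290) := by positivity
  have wy : (4*m^2 + 68*m + 290)*((-2*m - 18) + t1*(2*m + 17) - ((-2*m - 22) + t0*(4))) = 0 := by
    linear_combination (4*m^2 + 70*m + 306)*h1 + (-2*m - 18)*h2 + (4*m^2 + 68*m + 289)*h3 + (-2*m - 17)*h4
  have Dy : (0:ℝ) < (4*m^2 + 68*m + 290) := by positivity
  exact Or.inl ⟨sub_eq_zero.mp ((mul_eq_zero.mp wx).resolve_left Dx.ne'),
    sub_eq_zero.mp ((mul_eq_zero.mp wy).resolve_left Dy.ne')⟩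

theorem q_5_6_6_7 {m : ℝ} (hm : 0 ≤ m) : Q m .e5 .e6 .e6 .e7 := by
  intro t0 t1 t2 t3 a0 b0 a1 b1 a2 b2 a3 b3 h1 h2 h3 h4
  simp only [px, py, dx, dy] at h1 h2 h3 h4 ⊢
  exfalso
  have h : (100*m^4 + 3140*m^3 + 36839*m^2 + 191322*m + 370983)*t1 + (130*m^3 + 3163*m^2 + 25638*m + 69229) = 0 := by
    linear_combination (50*m^3 + 1145*m^2 + 8694*m + 21879)*h1 + (-25*m^2 - 360*m - 1287)*h2 + (50*m^3 + 1145*m^2 + 8707*m + 21986)*h3 + (40*m^2 + 669*m + 2779)*h4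
  have h5 : (0:ℝ) ≤ (100*m^4 + 3140*m^3 + 36839*m^2 + 191322*m + 370983)*t1 := mul_nonneg (by positivity) a1
  have h6 : (0:ℝ) < (130*m^3 + 3163*m^2 + 25638*m + 69229) := by positivity
  linarith

theorem q_5_6_7_7 {m : ℝ} (hm : 0 ≤ m) : Q m .e5 .e6 .e7 .e7 := by
  intro t0 t1 t2 t3 a0 b0 a1 b1 a2 b2 a3 b3 h1 h2 h3 h4
  simp only [px, py, dx, dy] at h1 h2 h3 h4 ⊢
  exfalso
  have h : (250*m^4 + 7625*m^3 + 86930*m^2 + 439029*m + 828678)*t1 + (250*m^3 + 5935*m^2 + 46926*m + 123577) = 0 := by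
    linear_combination (-25*m^2 - 360*m - 1287)*h1 + (-125*m^3 - 2750*m^2 - 20115*m - 48906)*h2 + (25*m + 191)*h3 + (125*m^2 + 1905*m + 7258)*h4
  have h5 : (0:ℝ) ≤ (250*m^4 + 7625*m^3 + 86930*m^2 + 439029*m + 828678)*t1 := mul_nonneg (by positivity) a1
  have h6 : (0:ℝ) < (250*m^3 + 5935*m^2 + 46926*m + 123577) := by positivity
  linarith

theorem q_5_7_5_7 {m : ℝ} (hm : 0 ≤ m) : Q m .e5 .e7 .e5 .e7 := by
  intro t0 t1 t2 t3 a0 b0 a1 b1 a2 b2 a3 b3 h1 h2 h3 h4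
  simp only [px, py, dx, dy] at h1 h2 h3 h4 ⊢
  exfalso
  have h : (1250*m^3 + 28800*m^2 + 220970*m + 564596)*(1 - t2) + (500*m^4 + 15750*m^3 + 185880*m^2 + 974106*m + 1912532) = 0 := by
    linear_combination (-150*m^2 - 2290*m - 8736)*h1 + (-125*m^3 - 2875*m^2 - 21995*m - 55973)*h2 + (-125*m^2 - 1880*m - 7067)*h3 + (125*m^2 + 1930*m + 7449)*h4
  have h5 : (0:ℝ) ≤ (1250*m^3 + 28800*m^2 + 220970*m + 564596)*(1 - t2) := mul_nonneg (by positivity) (by linarith)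
  have h6 : (0:ℝ) < (500*m^4 + 15750*m^3 + 185880*m^2 + 974106*m + 1912532) := by positivity
  linarith

theorem q_5_7_7_7 {m : ℝ} (hm : 0 ≤ m) : Q m .e5 .e7 .e7 .e7 := by
  intro t0 t1 t2 t3 a0 b0 a1 b1 a2 b2 a3 b3 h1 h2 h3 h4
  simp only [px, py, dx, dy] at h1 h2 h3 h4 ⊢
  exfalso
  have h : (25*m + 191)*(1 - t0) + (10*m^2 + 161*m + 647) = 0 := by
    linear_combination (-1)*h1 + (-5*m - 38)*h2
  have h5 : (0:ℝ) ≤ (25*m + 191)*(1 - t0) := mul_nonneg (by positivity) (by linarith)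
  have h6 : (0:ℝ) < (10*m^2 + 161*m + 647) := by positivity
  linarith

theorem q_5_7_7_8 {m : ℝ} (hm : 0 ≤ m) : Q m .e5 .e7 .e7 .e8 := by
  intro t0 t1 t2 t3 a0 b0 a1 b1 a2 b2 a3 b3 h1 h2 h3 h4
  simp only [px, py, dx, dy] at h1 h2 h3 h4 ⊢
  exfalso
  have h : (75*m^3 + 1290*m^2 + 6663*m + 9044)*(1 - t0) + (100*m^4 + 3125*m^3 + 36378*m^2 + 187055*m + 358598) = 0 := by
    linear_combination (-10*m^2 - 141*m - 493)*h1 + (-50*m^3 - 1085*m^2 - 7823*m - 18734)*h2 + (-35*m^2 - 521*m - 1938)*h3 + (7*m + 51)*h4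
  have h5 : (0:ℝ) ≤ (75*m^3 + 1290*m^2 + 6663*m + 9044)*(1 - t0) := mul_nonneg (by positivity) (by linarith)
  have h6 : (0:ℝ) < (100*m^4 + 3125*m^3 + 36378*m^2 + 187055*m + 358598) := by positivity
  linarith

theorem q_5_7_10_15 {m : ℝ} (hm : 0 ≤ m) : Q m .e5 .e7 .e10 .e15 := by
  intro t0 t1 t2 t3 a0 b0 a1 b1 a2 b2 a3 b3 h1 h2 h3 h4
  simp only [px, py, dx, dy] at h1 h2 h3 h4 ⊢
  exfalso
  have h : (125*m^3 + 2534*m^2 + 16925*m + 37136)*(1 - t3) + (40*m^3 + 918*m^2 + 6828*m + 16438) = 0 := by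
    linear_combination (25*m^2 + 410*m + 1669)*h1 + (-25*m^3 - 560*m^2 - 4129*m - 10014)*h2 + (-25*m^2 - 317*m - 970)*h3 + (-30*m^2 - 479*m - 1907)*h4
  have h5 : (0:ℝ) ≤ (125*m^3 + 2534*m^2 + 16925*m + 37136)*(1 - t3) := mul_nonneg (by positivity) (by linarith)
  have h6 : (0:ℝ) < (40*m^3 + 918*m^2 + 6828*m + 16438) := by positivity
  linarith

theorem q_6_6_6_6 {m : ℝ} (hm : 0 ≤ m) : Q m .e6 .e6 .e6 .e6 := by
  refine sing ?_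
  have h : dx m .e6 ^ 2 + dy m .e6 ^ 2 = (1)^2 + (2*m + 17)^2 := by
    simp only [dx, dy] <;> ring
  rw [h]; positivity

theorem q_6_6_6_7 {m : ℝ} (hm : 0 ≤ m) : Q m .e6 .e6 .e6 .e7 := by
  intro t0 t1 t2 t3 a0 b0 a1 b1 a2 b2 a3 b3 h1 h2 h3 h4
  simp only [px, py, dx, dy] at h1 h2 h3 h4 ⊢
  have wx : (4*m^2 + 68*m + 290)*((5*m + 40) + t1*(1) - ((5*m + 40) + t0*(1))) = 0 := by
    linear_combination (2*m + 17)*h1 + (-1)*h2 + (2*m + 17)*h3 + (-1)*h4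
  have Dx : (0:ℝ) < (4*m^2 + 68*m + 290) := by positivity
  have wy : (4*m^2 + 68*m + 290)*((-2*m - 18) + t1*(2*m + 17) - ((-2*m - 18) + t0*(2*m + 17))) = 0 := by
    linear_combination (4*m^2 + 68*m + 289)*h1 + (-2*m - 17)*h2 + (4*m^2 + 68*m + 289)*h3 + (-2*m - 17)*h4
  have Dy : (0:ℝ) < (4*m^2 + 68*m + 290) := by positivity
  exact Or.inl ⟨sub_eq_zero.mp ((mul_eq_zero.mp wx).resolve_left Dx.ne'),
    sub_eq_zero.mp ((mul_eq_zero.mp wy).resolve_left Dy.ne')⟩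

theorem q_6_6_7_7 {m : ℝ} (hm : 0 ≤ m) : Q m .e6 .e6 .e7 .e7 := by
  intro t0 t1 t2 t3 a0 b0 a1 b1 a2 b2 a3 b3 h1 h2 h3 h4
  simp only [px, py, dx, dy] at h1 h2 h3 h4 ⊢
  have wx : (10*m^2 + 161*m + 647)*((5*m + 40) + t1*(1) - ((5*m + 40) + t0*(1))) = 0 := by
    linear_combination (-1)*h1 + (-5*m - 38)*h2
  have Dx : (0:ℝ) < (10*m^2 + 161*m + 647) := by positivity
  have wy : (10*m^2 + 161*m + 647)*((-2*m - 18) + t1*(2*m + 17) - ((-2*m - 18) + t0*(2*m + 17))) = 0 := by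
    linear_combination (-2*m - 17)*h1 + (-10*m^2 - 161*m - 646)*h2
  have Dy : (0:ℝ) < (10*m^2 + 161*m + 647) := by positivity
  exact Or.inl ⟨sub_eq_zero.mp ((mul_eq_zero.mp wx).resolve_left Dx.ne'),
    sub_eq_zero.mp ((mul_eq_zero.mp wy).resolve_left Dy.ne')⟩

theorem q_6_7_6_7 {m : ℝ} (hm : 0 ≤ m) : Q m .e6 .e7 .e6 .e7 := by
  intro t0 t1 t2 t3 a0 b0 a1 b1 a2 b2 a3 b3 h1 h2 h3 h4
  simp only [px, py, dx, dy] at h1 h2 h3 h4 ⊢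
  have wx : (6*m + 42)*((5*m + 41) + t1*(-5*m - 38) - ((5*m + 40) + t0*(1))) = 0 := by
    linear_combination (10*m^2 + 163*m + 663)*h1 + (-5*m - 39)*h2 + (10*m^2 + 161*m + 645)*h3 + (-10*m^2 - 171*m - 723)*h4
  have Dx : (0:ℝ) < (6*m + 42) := by positivity
  have wy : (6*m + 42)*((-1) + t1*(1) - ((-2*m - 18) + t0*(2*m + 17))) = 0 := by
    linear_combination (10*m^2 + 159*m + 629)*h1 + (-5*m - 37)*h2 + (10*m^2 + 157*m + 613)*h3 + (-10*m^2 - 161*m - 645)*h4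
  have Dy : (0:ℝ) < (6*m + 42) := by positivity
  exact Or.inl ⟨sub_eq_zero.mp ((mul_eq_zero.mp wx).resolve_left Dx.ne'),
    sub_eq_zero.mp ((mul_eq_zero.mp wy).resolve_left Dy.ne')⟩

theorem q_6_7_7_7 {m : ℝ} (hm : 0 ≤ m) : Q m .e6 .e7 .e7 .e7 := by
  intro t0 t1 t2 t3 a0 b0 a1 b1 a2 b2 a3 b3 h1 h2 h3 h4
  simp only [px, py, dx, dy] at h1 h2 h3 h4 ⊢
  have wx : (25*m^2 + 380*m + 1445)*((5*m + 41) + t1*(-5*m - 38) - ((5*m + 40) + t0*(1))) = 0 := by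
    linear_combination (-5*m - 39)*h1 + (-25*m^2 - 385*m - 1482)*h2 + (-5*m - 38)*h3 + (-25*m^2 - 380*m - 1444)*h4
  have Dx : (0:ℝ) < (25*m^2 + 380*m + 1445) := by positivity
  have wy : (25*m^2 + 380*m + 1445)*((-1) + t1*(1) - ((-2*m - 18) + t0*(2*m + 17))) = 0 := by
    linear_combination (-5*m - 37)*h1 + (-25*m^2 - 375*m - 1406)*h2 + 1*h3 + (5*m + 38)*h4
  have Dy : (0:ℝ) < (25*m^2 + 380*m + 1445) := by positivity
  exact Or.inl ⟨sub_eq_zero.mp ((mul_eq_zero.mp wx).resolve_left Dx.ne'),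
    sub_eq_zero.mp ((mul_eq_zero.mp wy).resolve_left Dy.ne')⟩

theorem q_7_7_7_7 {m : ℝ} (hm : 0 ≤ m) : Q m .e7 .e7 .e7 .e7 := by
  refine sing ?_
  have h : dx m .e7 ^ 2 + dy m .e7 ^ 2 = (5*m + 38)^2 + (1)^2 := by
    simp only [dx, dy] <;> ring
  rw [h]; positivity

theorem q_7_7_7_8 {m : ℝ} (hm : 0 ≤ m) : Q m .e7 .e7 .e7 .e8 := by
  intro t0 t1 t2 t3 a0 b0 a1 b1 a2 b2 a3 b3 h1 h2 h3 h4
  simp only [px, py, dx, dy] at h1 h2 h3 h4 ⊢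
  have wx : (25*m^2 + 380*m + 1445)*((5*m + 41) + t1*(-5*m - 38) - ((5*m + 41) + t0*(-5*m - 38))) = 0 := by
    linear_combination (-5*m - 38)*h1 + (-25*m^2 - 380*m - 1444)*h2 + (-5*m - 38)*h3 + (-25*m^2 - 380*m - 1444)*h4
  have Dx : (0:ℝ) < (25*m^2 + 380*m + 1445) := by positivity
  have wy : (25*m^2 + 380*m + 1445)*((-1) + t1*(1) - ((-1) + t0*(1))) = 0 := by
    linear_combination 1*h1 + (5*m + 38)*h2 + 1*h3 + (5*m + 38)*h4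
  have Dy : (0:ℝ) < (25*m^2 + 380*m + 1445) := by positivity
  exact Or.inl ⟨sub_eq_zero.mp ((mul_eq_zero.mp wx).resolve_left Dx.ne'),
    sub_eq_zero.mp ((mul_eq_zero.mp wy).resolve_left Dy.ne')⟩

theorem q_7_7_7_9 {m : ℝ} (hm : 0 ≤ m) : Q m .e7 .e7 .e7 .e9 := by
  intro t0 t1 t2 t3 a0 b0 a1 b1 a2 b2 a3 b3 h1 h2 h3 h4
  simp only [px, py, dx, dy] at h1 h2 h3 h4 ⊢
  exfalso
  have h : (10*m^2 + 161*m + 645)*t3 + (7*m + 51) = 0 := by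
    linear_combination (-1)*h1 + (-5*m - 38)*h2
  have h5 : (0:ℝ) ≤ (10*m^2 + 161*m + 645)*t3 := mul_nonneg (by positivity) a3
  have h6 : (0:ℝ) < (7*m + 51) := by positivity
  linarith

theorem q_7_7_8_8 {m : ℝ} (hm : 0 ≤ m) : Q m .e7 .e7 .e8 .e8 := by
  intro t0 t1 t2 t3 a0 b0 a1 b1 a2 b2 a3 b3 h1 h2 h3 h4
  simp only [px, py, dx, dy] at h1 h2 h3 h4 ⊢
  have wx : (7*m + 51)*((5*m + 41) + t1*(-5*m - 38) - ((5*m + 41) + t0*(-5*m - 38))) = 0 := by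
    linear_combination (-5*m - 38)*h1 + (10*m^2 + 141*m + 494)*h2
  have Dx : (0:ℝ) < (7*m + 51) := by positivity
  have wy : (7*m + 51)*((-1) + t1*(1) - ((-1) + t0*(1))) = 0 := by
    linear_combination 1*h1 + (-2*m - 13)*h2
  have Dy : (0:ℝ) < (7*m + 51) := by positivity
  exact Or.inl ⟨sub_eq_zero.mp ((mul_eq_zero.mp wx).resolve_left Dx.ne'),
    sub_eq_zero.mp ((mul_eq_zero.mp wy).resolve_left Dy.ne')⟩

theorem q_7_7_9_8 {m : ℝ} (hm : 0 ≤ m) : Q m .e7 .e7 .e9 .e8 := by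
  intro t0 t1 t2 t3 a0 b0 a1 b1 a2 b2 a3 b3 h1 h2 h3 h4
  simp only [px, py, dx, dy] at h1 h2 h3 h4 ⊢
  exfalso
  have h : (100*m^4 + 3090*m^3 + 35767*m^2 + 183786*m + 353685)*t2 + (49*m^2 + 714*m + 2601) = 0 := by
    linear_combination (-25*m^2 - 373*m - 1394)*h1 + (50*m^3 + 1120*m^2 + 8351*m + 20723)*h2 + (7*m + 51)*h3 + (35*m^2 + 521*m + 1938)*h4
  have h5 : (0:ℝ) ≤ (100*m^4 + 3090*m^3 + 35767*m^2 + 183786*m + 353685)*t2 := mul_nonneg (by positivity) a2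
  have h6 : (0:ℝ) < (49*m^2 + 714*m + 2601) := by positivity
  linarith

theorem q_7_8_7_8 {m : ℝ} (hm : 0 ≤ m) : Q m .e7 .e8 .e7 .e8 := by
  intro t0 t1 t2 t3 a0 b0 a1 b1 a2 b2 a3 b3 h1 h2 h3 h4
  simp only [px, py, dx, dy] at h1 h2 h3 h4 ⊢
  have wx : (20*m^2 + 282*m + 986)*((3) + t1*(2*m + 13) - ((5*m + 41) + t0*(-5*m - 38))) = 0 := by
    linear_combination (-2*m - 12)*h1 + (-10*m^2 - 136*m - 456)*h2 + (3*m + 25)*h3 + (-20*m^2 - 275*m - 937)*h4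
  have Dx : (0:ℝ) < (20*m^2 + 282*m + 986) := by positivity
  have wy : (20*m^2 + 282*m + 986)*((0) + t1*(1) - ((-1) + t0*(1))) = 0 := by
    linear_combination (-2*m - 14)*h1 + (-10*m^2 - 146*m - 532)*h2 + (-7*m - 53)*h3 + (-3*m - 25)*h4
  have Dy : (0:ℝ) < (20*m^2 + 282*m + 986) := by positivity
  exact Or.inl ⟨sub_eq_zero.mp ((mul_eq_zero.mp wx).resolve_left Dx.ne'),
    sub_eq_zero.mp ((mul_eq_zero.mp wy).resolve_left Dy.ne')⟩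

theorem q_7_8_8_8 {m : ℝ} (hm : 0 ≤ m) : Q m .e7 .e8 .e8 .e8 := by
  intro t0 t1 t2 t3 a0 b0 a1 b1 a2 b2 a3 b3 h1 h2 h3 h4
  simp only [px, py, dx, dy] at h1 h2 h3 h4 ⊢
  have wx : (4*m^2 + 52*m + 170)*((3) + t1*(2*m + 13) - ((5*m + 41) + t0*(-5*m - 38))) = 0 := by
    linear_combination (2*m + 12)*h1 + (-4*m^2 - 50*m - 156)*h2 + (2*m + 13)*h3 + (-4*m^2 - 52*m - 169)*h4
  have Dx : (0:ℝ) < (4*m^2 + 52*m + 170) := by positivity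
  have wy : (4*m^2 + 52*m + 170)*((0) + t1*(1) - ((-1) + t0*(1))) = 0 := by
    linear_combination (2*m + 14)*h1 + (-4*m^2 - 54*m - 182)*h2 + 1*h3 + (-2*m - 13)*h4
  have Dy : (0:ℝ) < (4*m^2 + 52*m + 170) := by positivity
  exact Or.inl ⟨sub_eq_zero.mp ((mul_eq_zero.mp wx).resolve_left Dx.ne'),
    sub_eq_zero.mp ((mul_eq_zero.mp wy).resolve_left Dy.ne')⟩

end Six
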