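import Pool.Agent.helper91.SX.Def

/-! Squares inscribed in the 16-gon: classes of edge quadruples, part 4. -/

namespace Six

theorem q_7_9_8_8 {m : ℝ} (hm : 0 ≤ m) : Q m .e7 .e9 .e8 .e8 := by
  intro t0 t1 t2 t3 a0 b0 a1 b1 a2 b2 a3 b3 h1 h2 h3 h4
  simp only [px, py, dx, dy] at h1 h2 h3 h4 ⊢
  exfalso
  have h : (40*m^4 + 1192*m^3 + 13276*m^2 + 65524*m + 120972)*t1 + (28*m^3 + 568*m^2 + 3842*m + 8670) = 0 := by
    linear_combination (10*m^2 + 148*m + 544)*h1 + (-20*m^3 - 426*m^2 - 3012*m - 7072)*h2 + (7*m + 51)*h3 + (-14*m^2 - 193*m - 663)*h4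
  have h5 : (0:ℝ) ≤ (40*m^4 + 1192*m^3 + 13276*m^2 + 65524*m + 120972)*t1 := mul_nonneg (by positivity) a1
  have h6 : (0:ℝ) < (28*m^3 + 568*m^2 + 3842*m + 8670) := by positivity
  linarith

theorem q_7_9_10_11 {m : ℝ} (hm : 0 ≤ m) : Q m .e7 .e9 .e10 .e11 := by
  intro t0 t1 t2 t3 a0 b0 a1 b1 a2 b2 a3 b3 h1 h2 h3 h4
  simp only [px, py, dx, dy] at h1 h2 h3 h4 ⊢
  exfalso
  have h : (36*m^3 + 872*m^2 + 6912*m + 17968)*(1 - t3) + (14*m^3 + 282*m^2 + 1938*m + 4582) = 0 := by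
    linear_combination (-10*m^2 - 168*m - 700)*h1 + (10*m^3 + 228*m^2 + 1708*m + 4200)*h2 + (10*m^3 + 223*m^2 + 1640*m + 3973)*h3 + (10*m^3 + 231*m^2 + 1778*m + 4559)*h4
  have h5 : (0:ℝ) ≤ (36*m^3 + 872*m^2 + 6912*m + 17968)*(1 - t3) := mul_nonneg (by positivity) (by linarith)
  have h6 : (0:ℝ) < (14*m^3 + 282*m^2 + 1938*m + 4582) := by positivity
  linarith

theorem q_7_9_10_12 {m : ℝ} (hm : 0 ≤ m) : Q m .e7 .e9 .e10 .e12 := by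
  intro t0 t1 t2 t3 a0 b0 a1 b1 a2 b2 a3 b3 h1 h2 h3 h4
  simp only [px, py, dx, dy] at h1 h2 h3 h4 ⊢
  exfalso
  have h : (15*m^3 + 244*m^2 + 1179*m + 1454)*t1 + (20*m^3 + 422*m^2 + 2968*m + 6934) = 0 := by
    linear_combination (-25*m^2 - 345*m - 1178)*h1 + (25*m^3 + 495*m^2 + 3248*m + 7068)*h2 + (25*m^3 + 490*m^2 + 3170*m + 6767)*h3 + (25*m^3 + 510*m^2 + 3452*m + 7749)*h4
  have h5 : (0:ℝ) ≤ (15*m^3 + 244*m^2 + 1179*m + 1454)*t1 := mul_nonneg (by positivity) a1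
  have h6 : (0:ℝ) < (20*m^3 + 422*m^2 + 2968*m + 6934) := by positivity
  linarith

theorem q_8_8_8_8 {m : ℝ} (hm : 0 ≤ m) : Q m .e8 .e8 .e8 .e8 := by
  refine sing ?_
  have h : dx m .e8 ^ 2 + dy m .e8 ^ 2 = (2*m + 13)^2 + (1)^2 := by
    simp only [dx, dy] <;> ring
  rw [h]; positivity

theorem q_8_8_8_9 {m : ℝ} (hm : 0 ≤ m) : Q m .e8 .e8 .e8 .e9 := by
  intro t0 t1 t2 t3 a0 b0 a1 b1 a2 b2 a3 b3 h1 h2 h3 h4
  simp only [px, py, dx, dy] at h1 h2 h3 h4 ⊢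
  have wx : (4*m^2 + 52*m + 170)*((3) + t1*(2*m + 13) - ((3) + t0*(2*m + 13))) = 0 := by
    linear_combination (2*m + 13)*h1 + (-4*m^2 - 52*m - 169)*h2 + (2*m + 13)*h3 + (-4*m^2 - 52*m - 169)*h4
  have Dx : (0:ℝ) < (4*m^2 + 52*m + 170) := by positivity
  have wy : (4*m^2 + 52*m + 170)*((0) + t1*(1) - ((0) + t0*(1))) = 0 := by
    linear_combination 1*h1 + (-2*m - 13)*h2 + 1*h3 + (-2*m - 13)*h4
  have Dy : (0:ℝ) < (4*m^2 + 52*m + 170) := by positivity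
  exact Or.inl ⟨sub_eq_zero.mp ((mul_eq_zero.mp wx).resolve_left Dx.ne'),
    sub_eq_zero.mp ((mul_eq_zero.mp wy).resolve_left Dy.ne')⟩

theorem q_8_8_9_9 {m : ℝ} (hm : 0 ≤ m) : Q m .e8 .e8 .e9 .e9 := by
  intro t0 t1 t2 t3 a0 b0 a1 b1 a2 b2 a3 b3 h1 h2 h3 h4
  simp only [px, py, dx, dy] at h1 h2 h3 h4 ⊢
  have wx : (4*m^2 + 60*m + 222)*((3) + t1*(2*m + 13) - ((3) + t0*(2*m + 13))) = 0 := by
    linear_combination (-4*m^2 - 60*m - 221)*h1 + (-2*m - 13)*h2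
  have Dx : (0:ℝ) < (4*m^2 + 60*m + 222) := by positivity
  have wy : (4*m^2 + 60*m + 222)*((0) + t1*(1) - ((0) + t0*(1))) = 0 := by
    linear_combination (-2*m - 17)*h1 + (-1)*h2
  have Dy : (0:ℝ) < (4*m^2 + 60*m + 222) := by positivity
  exact Or.inl ⟨sub_eq_zero.mp ((mul_eq_zero.mp wx).resolve_left Dx.ne'),
    sub_eq_zero.mp ((mul_eq_zero.mp wy).resolve_left Dy.ne')⟩

theorem q_8_8_9_11 {m : ℝ} (hm : 0 ≤ m) : Q m .e8 .e8 .e9 .e11 := by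
  intro t0 t1 t2 t3 a0 b0 a1 b1 a2 b2 a3 b3 h1 h2 h3 h4
  simp only [px, py, dx, dy] at h1 h2 h3 h4 ⊢
  exfalso
  have h : (8*m^4 + 232*m^3 + 2496*m^2 + 11820*m + 20810)*(1 - t1) + (8*m^2 + 108*m + 376) = 0 := by
    linear_combination (4*m^3 + 90*m^2 + 666*m + 1615)*h1 + (2*m^2 + 28*m + 95)*h2 + (4*m^3 + 90*m^2 + 662*m + 1593)*h3 + (2*m^2 + 28*m + 101)*h4
  have h5 : (0:ℝ) ≤ (8*m^4 + 232*m^3 + 2496*m^2 + 11820*m + 20810)*(1 - t1) := mul_nonneg (by positivity) (by linarith)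
  have h6 : (0:ℝ) < (8*m^2 + 108*m + 376) := by positivity
  linarith

theorem q_8_9_8_9 {m : ℝ} (hm : 0 ≤ m) : Q m .e8 .e9 .e8 .e9 := by
  intro t0 t1 t2 t3 a0 b0 a1 b1 a2 b2 a3 b3 h1 h2 h3 h4
  simp only [px, py, dx, dy] at h1 h2 h3 h4 ⊢
  have wx : 4*((2*m + 16) + t1*(-1) - ((3) + t0*(2*m + 13))) = 0 := by
    linear_combination (-m - 9)*h1 + (2*m^2 + 31*m + 117)*h2 + (2*m^2 + 30*m + 110)*h3 + (2*m^2 + 32*m + 124)*h4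
  have Dx : (0:ℝ) < 4 := by positivity
  have wy : 4*((1) + t1*(2*m + 17) - ((0) + t0*(1))) = 0 := by
    linear_combination (m + 8)*h1 + (-2*m^2 - 29*m - 104)*h2 + (-2*m^2 - 28*m - 94)*h3 + (-2*m^2 - 30*m - 110)*h4
  have Dy : (0:ℝ) < 4 := by positivity
  exact Or.inl ⟨sub_eq_zero.mp ((mul_eq_zero.mp wx).resolve_left Dx.ne'),
    sub_eq_zero.mp ((mul_eq_zero.mp wy).resolve_left Dy.ne')⟩

theorem q_8_9_9_9 {m : ℝ} (hm : 0 ≤ m) : Q m .e8 .e9 .e9 .e9 := by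
  intro t0 t1 t2 t3 a0 b0 a1 b1 a2 b2 a3 b3 h1 h2 h3 h4
  simp only [px, py, dx, dy] at h1 h2 h3 h4 ⊢
  have wx : (4*m^2 + 68*m + 290)*((2*m + 16) + t1*(-1) - ((3) + t0*(2*m + 13))) = 0 := by
    linear_combination (-4*m^2 - 70*m - 306)*h1 + (-2*m - 18)*h2 + (-2*m - 17)*h3 + (-1)*h4
  have Dx : (0:ℝ) < (4*m^2 + 68*m + 290) := by positivity
  have wy : (4*m^2 + 68*m + 290)*((1) + t1*(2*m + 17) - ((0) + t0*(1))) = 0 := by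
    linear_combination (4*m^2 + 66*m + 272)*h1 + (2*m + 16)*h2 + (4*m^2 + 68*m + 289)*h3 + (2*m + 17)*h4
  have Dy : (0:ℝ) < (4*m^2 + 68*m + 290) := by positivity
  exact Or.inl ⟨sub_eq_zero.mp ((mul_eq_zero.mp wx).resolve_left Dx.ne'),
    sub_eq_zero.mp ((mul_eq_zero.mp wy).resolve_left Dy.ne')⟩

theorem q_8_9_9_11 {m : ℝ} (hm : 0 ≤ m) : Q m .e8 .e9 .e9 .e11 := by
  intro t0 t1 t2 t3 a0 b0 a1 b1 a2 b2 a3 b3 h1 h2 h3 h4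
  simp only [px, py, dx, dy] at h1 h2 h3 h4 ⊢
  exfalso
  have h : (8*m^4 + 248*m^3 + 2856*m^2 + 14468*m + 27182)*t1 + (8*m^2 + 108*m + 376) = 0 := by
    linear_combination (4*m^3 + 90*m^2 + 666*m + 1615)*h1 + (2*m^2 + 28*m + 95)*h2 + (4*m^3 + 90*m^2 + 662*m + 1593)*h3 + (2*m^2 + 28*m + 101)*h4
  have h5 : (0:ℝ) ≤ (8*m^4 + 248*m^3 + 2856*m^2 + 14468*m + 27182)*t1 := mul_nonneg (by positivity) a1
  have h6 : (0:ℝ) < (8*m^2 + 108*m + 376) := by positivity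
  linarith

theorem q_8_9_10_11 {m : ℝ} (hm : 0 ≤ m) : Q m .e8 .e9 .e10 .e11 := by
  intro t0 t1 t2 t3 a0 b0 a1 b1 a2 b2 a3 b3 h1 h2 h3 h4
  simp only [px, py, dx, dy] at h1 h2 h3 h4 ⊢
  exfalso
  have h : (20*m^3 + 432*m^2 + 3060*m + 7124)*(1 - t3) + (2*m^2 + 60*m + 314) = 0 := by
    linear_combination (-4*m^2 - 60*m - 218)*h1 + (4*m^3 + 84*m^2 + 578*m + 1308)*h2 + (4*m^3 + 82*m^2 + 553*m + 1229)*h3 + (4*m^3 + 88*m^2 + 643*m + 1561)*h4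
  have h5 : (0:ℝ) ≤ (20*m^3 + 432*m^2 + 3060*m + 7124)*(1 - t3) := mul_nonneg (by positivity) (by linarith)
  have h6 : (0:ℝ) < (2*m^2 + 60*m + 314) := by positivity
  linarith

theorem q_8_9_10_12 {m : ℝ} (hm : 0 ≤ m) : Q m .e8 .e9 .e10 .e12 := by
  intro t0 t1 t2 t3 a0 b0 a1 b1 a2 b2 a3 b3 h1 h2 h3 h4
  simp only [px, py, dx, dy] at h1 h2 h3 h4 ⊢
  exfalso
  have h : (8*m^3 + 207*m^2 + 1701*m + 4514)*t3 + (2*m^2 + 60*m + 314) = 0 := by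
    linear_combination (-4*m^2 - 60*m - 218)*h1 + (4*m^3 + 84*m^2 + 578*m + 1308)*h2 + (4*m^3 + 82*m^2 + 553*m + 1229)*h3 + (4*m^3 + 88*m^2 + 643*m + 1561)*h4
  have h5 : (0:ℝ) ≤ (8*m^3 + 207*m^2 + 1701*m + 4514)*t3 := mul_nonneg (by positivity) a3
  have h6 : (0:ℝ) < (2*m^2 + 60*m + 314) := by positivity
  linarith

theorem q_9_9_9_9 {m : ℝ} (hm : 0 ≤ m) : Q m .e9 .e9 .e9 .e9 := by
  refine sing ?_
  have h : dx m .e9 ^ 2 + dy m .e9 ^ 2 = (1)^2 + (2*m + 17)^2 := by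
    simp only [dx, dy] <;> ring
  rw [h]; positivity

theorem q_9_9_9_10 {m : ℝ} (hm : 0 ≤ m) : Q m .e9 .e9 .e9 .e10 := by
  intro t0 t1 t2 t3 a0 b0 a1 b1 a2 b2 a3 b3 h1 h2 h3 h4
  simp only [px, py, dx, dy] at h1 h2 h3 h4 ⊢
  have wx : (4*m^2 + 68*m + 290)*((2*m + 16) + t1*(-1) - ((2*m + 16) + t0*(-1))) = 0 := by
    linear_combination (-2*m - 17)*h1 + (-1)*h2 + (-2*m - 17)*h3 + (-1)*h4
  have Dx : (0:ℝ) < (4*m^2 + 68*m + 290) := by positivity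
  have wy : (4*m^2 + 68*m + 290)*((1) + t1*(2*m + 17) - ((1) + t0*(2*m + 17))) = 0 := by
    linear_combination (4*m^2 + 68*m + 289)*h1 + (2*m + 17)*h2 + (4*m^2 + 68*m + 289)*h3 + (2*m + 17)*h4
  have Dy : (0:ℝ) < (4*m^2 + 68*m + 290) := by positivity
  exact Or.inl ⟨sub_eq_zero.mp ((mul_eq_zero.mp wx).resolve_left Dx.ne'),
    sub_eq_zero.mp ((mul_eq_zero.mp wy).resolve_left Dy.ne')⟩

theorem q_9_9_10_10 {m : ℝ} (hm : 0 ≤ m) : Q m .e9 .e9 .e10 .e10 := by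
  intro t0 t1 t2 t3 a0 b0 a1 b1 a2 b2 a3 b3 h1 h2 h3 h4
  simp only [px, py, dx, dy] at h1 h2 h3 h4 ⊢
  have wx : (2*m^2 + 29*m + 103)*((2*m + 16) + t1*(-1) - ((2*m + 16) + t0*(-1))) = 0 := by
    linear_combination (-1)*h1 + (m + 6)*h2
  have Dx : (0:ℝ) < (2*m^2 + 29*m + 103) := by positivity
  have wy : (2*m^2 + 29*m + 103)*((1) + t1*(2*m + 17) - ((1) + t0*(2*m + 17))) = 0 := by
    linear_combination (2*m + 17)*h1 + (-2*m^2 - 29*m - 102)*h2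
  have Dy : (0:ℝ) < (2*m^2 + 29*m + 103) := by positivity
  exact Or.inl ⟨sub_eq_zero.mp ((mul_eq_zero.mp wx).resolve_left Dx.ne'),
    sub_eq_zero.mp ((mul_eq_zero.mp wy).resolve_left Dy.ne')⟩

theorem q_9_10_9_10 {m : ℝ} (hm : 0 ≤ m) : Q m .e9 .e10 .e9 .e10 := by
  intro t0 t1 t2 t3 a0 b0 a1 b1 a2 b2 a3 b3 h1 h2 h3 h4
  simp only [px, py, dx, dy] at h1 h2 h3 h4 ⊢
  have wx : (2*m + 22)*((2*m + 15) + t1*(-2*m - 12) - ((2*m + 16) + t0*(-1))) = 0 := by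
    linear_combination (2*m^2 + 27*m + 85)*h1 + (m + 5)*h2 + (2*m^2 + 29*m + 101)*h3 + (-2*m^2 - 27*m - 91)*h4
  have Dx : (0:ℝ) < (2*m + 22) := by positivity
  have wy : (2*m + 22)*((2*m + 18) + t1*(-2) - ((1) + t0*(2*m + 17))) = 0 := by
    linear_combination (2*m^2 + 31*m + 119)*h1 + (m + 7)*h2 + (2*m^2 + 33*m + 137)*h3 + (-2*m^2 - 29*m - 101)*h4
  have Dy : (0:ℝ) < (2*m + 22) := by positivity
  exact Or.inl ⟨sub_eq_zero.mp ((mul_eq_zero.mp wx).resolve_left Dx.ne'),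
    sub_eq_zero.mp ((mul_eq_zero.mp wy).resolve_left Dy.ne')⟩

theorem q_9_10_10_10 {m : ℝ} (hm : 0 ≤ m) : Q m .e9 .e10 .e10 .e10 := by
  intro t0 t1 t2 t3 a0 b0 a1 b1 a2 b2 a3 b3 h1 h2 h3 h4
  simp only [px, py, dx, dy] at h1 h2 h3 h4 ⊢
  have wx : (m^2 + 12*m + 37)*((2*m + 15) + t1*(-2*m - 12) - ((2*m + 16) + t0*(-1))) = 0 := by
    linear_combination (m + 5)*h1 + (-m^2 - 11*m - 30)*h2 + (m + 6)*h3 + (-m^2 - 12*m - 36)*h4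
  have Dx : (0:ℝ) < (m^2 + 12*m + 37) := by positivity
  have wy : (m^2 + 12*m + 37)*((2*m + 18) + t1*(-2) - ((1) + t0*(2*m + 17))) = 0 := by
    linear_combination (m + 7)*h1 + (-m^2 - 13*m - 42)*h2 + 1*h3 + (-m - 6)*h4
  have Dy : (0:ℝ) < (m^2 + 12*m + 37) := by positivity
  exact Or.inl ⟨sub_eq_zero.mp ((mul_eq_zero.mp wx).resolve_left Dx.ne'),
    sub_eq_zero.mp ((mul_eq_zero.mp wy).resolve_left Dy.ne')⟩

theorem q_9_12_14_15 {m : ℝ} (hm : 0 ≤ m) : Q m .e9 .e12 .e14 .e15 := by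
  intro t0 t1 t2 t3 a0 b0 a1 b1 a2 b2 a3 b3 h1 h2 h3 h4
  simp only [px, py, dx, dy] at h1 h2 h3 h4 ⊢
  exfalso
  have h : (20*m^3 + 430*m^2 + 3027*m + 6976)*(1 - t3) + (64*m^2 + 1015*m + 3972) = 0 := by
    linear_combination (10*m^2 + 154*m + 582)*h1 + (-6*m - 51)*h3 + (m + 13)*h4
  have h5 : (0:ℝ) ≤ (20*m^3 + 430*m^2 + 3027*m + 6976)*(1 - t3) := mul_nonneg (by positivity) (by linarith)
  have h6 : (0:ℝ) < (64*m^2 + 1015*m + 3972) := by positivity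
  linarith

theorem q_10_10_10_10 {m : ℝ} (hm : 0 ≤ m) : Q m .e10 .e10 .e10 .e10 := by
  refine sing ?_
  have h : dx m .e10 ^ 2 + dy m .e10 ^ 2 = (2*m + 12)^2 + (2)^2 := by
    simp only [dx, dy] <;> ring
  rw [h]; positivity

theorem q_10_10_10_11 {m : ℝ} (hm : 0 ≤ m) : Q m .e10 .e10 .e10 .e11 := by
  intro t0 t1 t2 t3 a0 b0 a1 b1 a2 b2 a3 b3 h1 h2 h3 h4
  simp only [px, py, dx, dy] at h1 h2 h3 h4 ⊢
  have wx : (m^2 + 12*m + 37)*((2*m + 15) + t1*(-2*m - 12) - ((2*m + 15) + t0*(-2*m - 12))) = 0 := by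
    linear_combination (m + 6)*h1 + (-m^2 - 12*m - 36)*h2 + (m + 6)*h3 + (-m^2 - 12*m - 36)*h4
  have Dx : (0:ℝ) < (m^2 + 12*m + 37) := by positivity
  have wy : (m^2 + 12*m + 37)*((2*m + 18) + t1*(-2) - ((2*m + 18) + t0*(-2))) = 0 := by
    linear_combination 1*h1 + (-m - 6)*h2 + 1*h3 + (-m - 6)*h4
  have Dy : (0:ℝ) < (m^2 + 12*m + 37) := by positivity
  exact Or.inl ⟨sub_eq_zero.mp ((mul_eq_zero.mp wx).resolve_left Dx.ne'),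
    sub_eq_zero.mp ((mul_eq_zero.mp wy).resolve_left Dy.ne')⟩

theorem q_10_10_11_11 {m : ℝ} (hm : 0 ≤ m) : Q m .e10 .e10 .e11 .e11 := by
  intro t0 t1 t2 t3 a0 b0 a1 b1 a2 b2 a3 b3 h1 h2 h3 h4
  simp only [px, py, dx, dy] at h1 h2 h3 h4 ⊢
  have wx : (2*m^2 + 23*m + 63)*((2*m + 15) + t1*(-2*m - 12) - ((2*m + 15) + t0*(-2*m - 12))) = 0 := by
    linear_combination (-2*m^2 - 23*m - 66)*h1 + (3*m + 18)*h2
  have Dx : (0:ℝ) < (2*m^2 + 23*m + 63) := by positivity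
  have wy : (2*m^2 + 23*m + 63)*((2*m + 18) + t1*(-2) - ((2*m + 18) + t0*(-2))) = 0 := by
    linear_combination (-2*m - 11)*h1 + 3*h2
  have Dy : (0:ℝ) < (2*m^2 + 23*m + 63) := by positivity
  exact Or.inl ⟨sub_eq_zero.mp ((mul_eq_zero.mp wx).resolve_left Dx.ne'),
    sub_eq_zero.mp ((mul_eq_zero.mp wy).resolve_left Dy.ne')⟩

theorem q_10_11_10_11 {m : ℝ} (hm : 0 ≤ m) : Q m .e10 .e11 .e10 .e11 := by
  intro t0 t1 t2 t3 a0 b0 a1 b1 a2 b2 a3 b3 h1 h2 h3 h4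
  simp only [px, py, dx, dy] at h1 h2 h3 h4 ⊢
  have wx : (10*m + 58)*((3) + t1*(-3) - ((2*m + 15) + t0*(-2*m - 12))) = 0 := by
    linear_combination (-2*m - 8)*h1 + (2*m^2 + 20*m + 48)*h2 + (2*m^2 + 23*m + 69)*h3 + (2*m^2 + 17*m + 27)*h4
  have Dx : (0:ℝ) < (10*m + 58) := by positivity
  have wy : (10*m + 58)*((2*m + 16) + t1*(-2*m - 11) - ((2*m + 18) + t0*(-2))) = 0 := by
    linear_combination (2*m + 14)*h1 + (-2*m^2 - 26*m - 84)*h2 + (-2*m^2 - 19*m - 41)*h3 + (-2*m^2 - 23*m - 69)*h4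
  have Dy : (0:ℝ) < (10*m + 58) := by positivity
  exact Or.inl ⟨sub_eq_zero.mp ((mul_eq_zero.mp wx).resolve_left Dx.ne'),
    sub_eq_zero.mp ((mul_eq_zero.mp wy).resolve_left Dy.ne')⟩

theorem q_10_11_11_11 {m : ℝ} (hm : 0 ≤ m) : Q m .e10 .e11 .e11 .e11 := by
  intro t0 t1 t2 t3 a0 b0 a1 b1 a2 b2 a3 b3 h1 h2 h3 h4
  simp only [px, py, dx, dy] at h1 h2 h3 h4 ⊢
  have wx : (4*m^2 + 44*m + 130)*((3) + t1*(-3) - ((2*m + 15) + t0*(-2*m - 12))) = 0 := by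
    linear_combination (-4*m^2 - 38*m - 88)*h1 + (6*m + 24)*h2 + (6*m + 33)*h3 + (-9)*h4
  have Dx : (0:ℝ) < (4*m^2 + 44*m + 130) := by positivity
  have wy : (4*m^2 + 44*m + 130)*((2*m + 16) + t1*(-2*m - 11) - ((2*m + 18) + t0*(-2))) = 0 := by
    linear_combination (4*m^2 + 50*m + 154)*h1 + (-6*m - 42)*h2 + (4*m^2 + 44*m + 121)*h3 + (-6*m - 33)*h4
  have Dy : (0:ℝ) < (4*m^2 + 44*m + 130) := by positivity
  exact Or.inl ⟨sub_eq_zero.mp ((mul_eq_zero.mp wx).resolve_left Dx.ne'),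
    sub_eq_zero.mp ((mul_eq_zero.mp wy).resolve_left Dy.ne')⟩

theorem q_10_12_11_11 {m : ℝ} (hm : 0 ≤ m) : Q m .e10 .e12 .e11 .e11 := by
  intro t0 t1 t2 t3 a0 b0 a1 b1 a2 b2 a3 b3 h1 h2 h3 h4
  simp only [px, py, dx, dy] at h1 h2 h3 h4 ⊢
  exfalso
  have h : (40*m^4 + 1044*m^3 + 10242*m^2 + 44638*m + 72768)*(1 - t0) + (84*m^3 + 1476*m^2 + 8802*m + 17940) = 0 := by
    linear_combination (20*m^3 + 360*m^2 + 2127*m + 4136)*h1 + (-30*m^2 - 375*m - 1128)*h2 + (-42*m^2 - 507*m - 1518)*h3 + (63*m + 414)*h4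
  have h5 : (0:ℝ) ≤ (40*m^4 + 1044*m^3 + 10242*m^2 + 44638*m + 72768)*(1 - t0) := mul_nonneg (by positivity) (by linarith)
  have h6 : (0:ℝ) < (84*m^3 + 1476*m^2 + 8802*m + 17940) := by positivity
  linarith

theorem q_10_12_12_11 {m : ℝ} (hm : 0 ≤ m) : Q m .e10 .e12 .e12 .e11 := by
  intro t0 t1 t2 t3 a0 b0 a1 b1 a2 b2 a3 b3 h1 h2 h3 h4
  simp only [px, py, dx, dy] at h1 h2 h3 h4 ⊢
  exfalso
  have h : (100*m^4 + 2760*m^3 + 28296*m^2 + 127750*m + 214272)*(1 - t0) + (441*m^2 + 5796*m + 19044) = 0 := by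
    linear_combination (50*m^3 + 975*m^2 + 6255*m + 13160)*h1 + (30*m^2 + 375*m + 1128)*h2 + (-63*m - 414)*h3 + (105*m^2 + 1425*m + 4830)*h4
  have h5 : (0:ℝ) ≤ (100*m^4 + 2760*m^3 + 28296*m^2 + 127750*m + 214272)*(1 - t0) := mul_nonneg (by positivity) (by linarith)
  have h6 : (0:ℝ) < (441*m^2 + 5796*m + 19044) := by positivity
  linarith

theorem q_10_12_12_12 {m : ℝ} (hm : 0 ≤ m) : Q m .e10 .e12 .e12 .e12 := by
  intro t0 t1 t2 t3 a0 b0 a1 b1 a2 b2 a3 b3 h1 h2 h3 h4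
  simp only [px, py, dx, dy] at h1 h2 h3 h4 ⊢
  exfalso
  have h : (10*m^2 + 130*m + 426)*(1 - t0) + (21*m + 138) = 0 := by
    linear_combination (5*m + 35)*h1 + 3*h2
  have h5 : (0:ℝ) ≤ (10*m^2 + 130*m + 426)*(1 - t0) := mul_nonneg (by positivity) (by linarith)
  have h6 : (0:ℝ) < (21*m + 138) := by positivity
  linarith

theorem q_11_11_11_11 {m : ℝ} (hm : 0 ≤ m) : Q m .e11 .e11 .e11 .e11 := by
  refine sing ?_
  have h : dx m .e11 ^ 2 + dy m .e11 ^ 2 = (3)^2 + (2*m + 11)^2 := by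
    simp only [dx, dy] <;> ring
  rw [h]; positivity

theorem q_11_11_11_12 {m : ℝ} (hm : 0 ≤ m) : Q m .e11 .e11 .e11 .e12 := by
  intro t0 t1 t2 t3 a0 b0 a1 b1 a2 b2 a3 b3 h1 h2 h3 h4
  simp only [px, py, dx, dy] at h1 h2 h3 h4 ⊢
  have wx : (4*m^2 + 44*m + 130)*((3) + t1*(-3) - ((3) + t0*(-3))) = 0 := by
    linear_combination (6*m + 33)*h1 + (-9)*h2 + (6*m + 33)*h3 + (-9)*h4
  have Dx : (0:ℝ) < (4*m^2 + 44*m + 130) := by positivity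
  have wy : (4*m^2 + 44*m + 130)*((2*m + 16) + t1*(-2*m - 11) - ((2*m + 16) + t0*(-2*m - 11))) = 0 := by
    linear_combination (4*m^2 + 44*m + 121)*h1 + (-6*m - 33)*h2 + (4*m^2 + 44*m + 121)*h3 + (-6*m - 33)*h4
  have Dy : (0:ℝ) < (4*m^2 + 44*m + 130) := by positivity
  exact Or.inl ⟨sub_eq_zero.mp ((mul_eq_zero.mp wx).resolve_left Dx.ne'),
    sub_eq_zero.mp ((mul_eq_zero.mp wy).resolve_left Dy.ne')⟩

theorem q_11_11_12_12 {m : ℝ} (hm : 0 ≤ m) : Q m .e11 .e11 .e12 .e12 := by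
  intro t0 t1 t2 t3 a0 b0 a1 b1 a2 b2 a3 b3 h1 h2 h3 h4
  simp only [px, py, dx, dy] at h1 h2 h3 h4 ⊢
  have wx : (7*m + 46)*((3) + t1*(-3) - ((3) + t0*(-3))) = 0 := by
    linear_combination (-5*m - 35)*h1 + (-3)*h2
  have Dx : (0:ℝ) < (7*m + 46) := by positivity
  have wy : (21*m + 138)*((2*m + 16) + t1*(-2*m - 11) - ((2*m + 16) + t0*(-2*m - 11))) = 0 := by
    linear_combination (-10*m^2 - 125*m - 385)*h1 + (-6*m - 33)*h2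
  have Dy : (0:ℝ) < (21*m + 138) := by positivity
  exact Or.inl ⟨sub_eq_zero.mp ((mul_eq_zero.mp wx).resolve_left Dx.ne'),
    sub_eq_zero.mp ((mul_eq_zero.mp wy).resolve_left Dy.ne')⟩

end Six
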