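import Pool.Agent.helper91.SX.Def

/-! Squares inscribed in the 16-gon: classes of edge quadruples, part 5. -/

namespace Six

theorem q_11_12_11_12 {m : ℝ} (hm : 0 ≤ m) : Q m .e11 .e12 .e11 .e12 := by
  intro t0 t1 t2 t3 a0 b0 a1 b1 a2 b2 a3 b3 h1 h2 h3 h4
  simp only [px, py, dx, dy] at h1 h2 h3 h4 ⊢
  have wx : (20*m^2 + 250*m + 752)*((0) + t1*(-3) - ((3) + t0*(-3))) = 0 := by
    linear_combination (-10*m^2 - 131*m - 418)*h1 + (15*m + 114)*h2 + (9*m + 72)*h3 + (21*m + 156)*h4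
  have Dx : (0:ℝ) < (20*m^2 + 250*m + 752) := by positivity
  have wy : (20*m^2 + 250*m + 752)*((5) + t1*(5*m + 35) - ((2*m + 16) + t0*(-2*m - 11))) = 0 := by
    linear_combination (10*m^2 + 119*m + 352)*h1 + (-15*m - 96)*h2 + (20*m^2 + 229*m + 632)*h3 + (-9*m - 72)*h4
  have Dy : (0:ℝ) < (20*m^2 + 250*m + 752) := by positivity
  exact Or.inl ⟨sub_eq_zero.mp ((mul_eq_zero.mp wx).resolve_left Dx.ne'),
    sub_eq_zero.mp ((mul_eq_zero.mp wy).resolve_left Dy.ne')⟩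

theorem q_11_12_12_12 {m : ℝ} (hm : 0 ≤ m) : Q m .e11 .e12 .e12 .e12 := by
  intro t0 t1 t2 t3 a0 b0 a1 b1 a2 b2 a3 b3 h1 h2 h3 h4
  simp only [px, py, dx, dy] at h1 h2 h3 h4 ⊢
  have wx : (25*m^2 + 350*m + 1234)*((0) + t1*(-3) - ((3) + t0*(-3))) = 0 := by
    linear_combination (-25*m^2 - 365*m - 1330)*h1 + (-15*m - 114)*h2 + (-15*m - 105)*h3 + (-9)*h4
  have Dx : (0:ℝ) < (25*m^2 + 350*m + 1234) := by positivity
  have wy : (25*m^2 + 350*m + 1234)*((5) + t1*(5*m + 35) - ((2*m + 16) + t0*(-2*m - 11))) = 0 := by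
    linear_combination (25*m^2 + 335*m + 1120)*h1 + (15*m + 96)*h2 + (25*m^2 + 350*m + 1225)*h3 + (15*m + 105)*h4
  have Dy : (0:ℝ) < (25*m^2 + 350*m + 1234) := by positivity
  exact Or.inl ⟨sub_eq_zero.mp ((mul_eq_zero.mp wx).resolve_left Dx.ne'),
    sub_eq_zero.mp ((mul_eq_zero.mp wy).resolve_left Dy.ne')⟩

theorem q_11_12_12_14 {m : ℝ} (hm : 0 ≤ m) : Q m .e11 .e12 .e12 .e14 := by
  intro t0 t1 t2 t3 a0 b0 a1 b1 a2 b2 a3 b3 h1 h2 h3 h4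
  simp only [px, py, dx, dy] at h1 h2 h3 h4 ⊢
  exfalso
  have h : (75*m + 588)*t2 + (20*m^2 + 228*m + 544) = 0 := by
    linear_combination (10*m + 49)*h1 + 21*h2 + 15*h3 + 21*h4
  have h5 : (0:ℝ) ≤ (75*m + 588)*t2 := mul_nonneg (by positivity) a2
  have h6 : (0:ℝ) < (20*m^2 + 228*m + 544) := by positivity
  linarith

theorem q_11_12_13_14 {m : ℝ} (hm : 0 ≤ m) : Q m .e11 .e12 .e13 .e14 := by
  intro t0 t1 t2 t3 a0 b0 a1 b1 a2 b2 a3 b3 h1 h2 h3 h4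
  simp only [px, py, dx, dy] at h1 h2 h3 h4 ⊢
  exfalso
  have h : (20*m^2 + 270*m + 994)*(1 - t2) + (33*m + 138) = 0 := by
    linear_combination (10*m + 49)*h1 + 21*h2 + 15*h3 + 21*h4
  have h5 : (0:ℝ) ≤ (20*m^2 + 270*m + 994)*(1 - t2) := mul_nonneg (by positivity) (by linarith)
  have h6 : (0:ℝ) < (33*m + 138) := by positivity
  linarith

theorem q_11_12_14_14 {m : ℝ} (hm : 0 ≤ m) : Q m .e11 .e12 .e14 .e14 := by
  intro t0 t1 t2 t3 a0 b0 a1 b1 a2 b2 a3 b3 h1 h2 h3 h4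
  simp only [px, py, dx, dy] at h1 h2 h3 h4 ⊢
  exfalso
  have h : (21*m + 147)*(1 - t0) + (6*m + 48) = 0 := by
    linear_combination (5*m + 35)*h1 + (-3)*h3
  have h5 : (0:ℝ) ≤ (21*m + 147)*(1 - t0) := mul_nonneg (by positivity) (by linarith)
  have h6 : (0:ℝ) < (6*m + 48) := by positivity
  linarith

theorem q_12_12_12_12 {m : ℝ} (hm : 0 ≤ m) : Q m .e12 .e12 .e12 .e12 := by
  refine sing ?_
  have h : dx m .e12 ^ 2 + dy m .e12 ^ 2 = (3)^2 + (5*m + 35)^2 := by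
    simp only [dx, dy] <;> ring
  rw [h]; positivity

theorem q_12_12_12_13 {m : ℝ} (hm : 0 ≤ m) : Q m .e12 .e12 .e12 .e13 := by
  intro t0 t1 t2 t3 a0 b0 a1 b1 a2 b2 a3 b3 h1 h2 h3 h4
  simp only [px, py, dx, dy] at h1 h2 h3 h4 ⊢
  have wx : (25*m^2 + 350*m + 1234)*((0) + t1*(-3) - ((0) + t0*(-3))) = 0 := by
    linear_combination (-15*m - 105)*h1 + (-9)*h2 + (-15*m - 105)*h3 + (-9)*h4
  have Dx : (0:ℝ) < (25*m^2 + 350*m + 1234) := by positivity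
  have wy : (25*m^2 + 350*m + 1234)*((5) + t1*(5*m + 35) - ((5) + t0*(5*m + 35))) = 0 := by
    linear_combination (25*m^2 + 350*m + 1225)*h1 + (15*m + 105)*h2 + (25*m^2 + 350*m + 1225)*h3 + (15*m + 105)*h4
  have Dy : (0:ℝ) < (25*m^2 + 350*m + 1234) := by positivity
  exact Or.inl ⟨sub_eq_zero.mp ((mul_eq_zero.mp wx).resolve_left Dx.ne'),
    sub_eq_zero.mp ((mul_eq_zero.mp wy).resolve_left Dy.ne')⟩

theorem q_12_12_12_14 {m : ℝ} (hm : 0 ≤ m) : Q m .e12 .e12 .e12 .e14 := by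
  intro t0 t1 t2 t3 a0 b0 a1 b1 a2 b2 a3 b3 h1 h2 h3 h4
  simp only [px, py, dx, dy] at h1 h2 h3 h4 ⊢
  exfalso
  have h : (9*m + 66)*t3 + (10*m^2 + 141*m + 506) = 0 := by
    linear_combination (5*m + 35)*h1 + 3*h2
  have h5 : (0:ℝ) ≤ (9*m + 66)*t3 := mul_nonneg (by positivity) a3
  have h6 : (0:ℝ) < (10*m^2 + 141*m + 506) := by positivity
  linarith

theorem q_12_12_13_13 {m : ℝ} (hm : 0 ≤ m) : Q m .e12 .e12 .e13 .e13 := by
  intro t0 t1 t2 t3 a0 b0 a1 b1 a2 b2 a3 b3 h1 h2 h3 h4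
  simp only [px, py, dx, dy] at h1 h2 h3 h4 ⊢
  have wx : (10*m^2 + 141*m + 506)*((0) + t1*(-3) - ((0) + t0*(-3))) = 0 := by
    linear_combination (-6*m - 51)*h1 + (6*m + 39)*h2
  have Dx : (0:ℝ) < (10*m^2 + 141*m + 506) := by positivity
  have wy : (10*m^2 + 141*m + 506)*((5) + t1*(5*m + 35) - ((5) + t0*(5*m + 35))) = 0 := by
    linear_combination (10*m^2 + 155*m + 595)*h1 + (-10*m^2 - 135*m - 455)*h2
  have Dy : (0:ℝ) < (10*m^2 + 141*m + 506) := by positivity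
  exact Or.inl ⟨sub_eq_zero.mp ((mul_eq_zero.mp wx).resolve_left Dx.ne'),
    sub_eq_zero.mp ((mul_eq_zero.mp wy).resolve_left Dy.ne')⟩

theorem q_12_12_13_14 {m : ℝ} (hm : 0 ≤ m) : Q m .e12 .e12 .e13 .e14 := by
  intro t0 t1 t2 t3 a0 b0 a1 b1 a2 b2 a3 b3 h1 h2 h3 h4
  simp only [px, py, dx, dy] at h1 h2 h3 h4 ⊢
  exfalso
  have h : (50*m^3 + 995*m^2 + 6595*m + 14524)*(1 - t2) + (30*m^2 + 423*m + 1518) = 0 := by
    linear_combination (25*m^2 + 335*m + 1129)*h1 + (-9)*h2 + (-15*m - 105)*h3 + (-9)*h4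
  have h5 : (0:ℝ) ≤ (50*m^3 + 995*m^2 + 6595*m + 14524)*(1 - t2) := mul_nonneg (by positivity) (by linarith)
  have h6 : (0:ℝ) < (30*m^2 + 423*m + 1518) := by positivity
  linarith

theorem q_12_12_14_14 {m : ℝ} (hm : 0 ≤ m) : Q m .e12 .e12 .e14 .e14 := by
  intro t0 t1 t2 t3 a0 b0 a1 b1 a2 b2 a3 b3 h1 h2 h3 h4
  simp only [px, py, dx, dy] at h1 h2 h3 h4 ⊢
  exfalso
  have h : 9*(1 - t0) + (6*m + 39) = 0 := by
    linear_combination (5*m + 35)*h1 + (-3)*h3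
  have h5 : (0:ℝ) ≤ 9*(1 - t0) := mul_nonneg (by positivity) (by linarith)
  have h6 : (0:ℝ) < (6*m + 39) := by positivity
  linarith

theorem q_12_13_12_13 {m : ℝ} (hm : 0 ≤ m) : Q m .e12 .e13 .e12 .e13 := by
  intro t0 t1 t2 t3 a0 b0 a1 b1 a2 b2 a3 b3 h1 h2 h3 h4
  simp only [px, py, dx, dy] at h1 h2 h3 h4 ⊢
  have wx : (20*m^2 + 298*m + 1112)*((-3) + t1*(-2*m - 13) - ((0) + t0*(-3))) = 0 := by
    linear_combination (-20*m - 140)*h1 + (-12)*h2 + (10*m^2 + 129*m + 404)*h3 + (-10*m^2 - 129*m - 428)*h4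
  have Dx : (0:ℝ) < (20*m^2 + 298*m + 1112) := by positivity
  have wy : (20*m^2 + 298*m + 1112)*((5*m + 40) + t1*(-2*m - 17) - ((5) + t0*(5*m + 35))) = 0 := by
    linear_combination (20*m^2 + 290*m + 1050)*h1 + (12*m + 90)*h2 + (30*m^2 + 451*m + 1696)*h3 + (-10*m^2 - 129*m - 404)*h4
  have Dy : (0:ℝ) < (20*m^2 + 298*m + 1112) := by positivity
  exact Or.inl ⟨sub_eq_zero.mp ((mul_eq_zero.mp wx).resolve_left Dx.ne'),
    sub_eq_zero.mp ((mul_eq_zero.mp wy).resolve_left Dy.ne')⟩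

theorem q_12_13_13_13 {m : ℝ} (hm : 0 ≤ m) : Q m .e12 .e13 .e13 .e13 := by
  intro t0 t1 t2 t3 a0 b0 a1 b1 a2 b2 a3 b3 h1 h2 h3 h4
  simp only [px, py, dx, dy] at h1 h2 h3 h4 ⊢
  have wx : (8*m^2 + 120*m + 458)*((-3) + t1*(-2*m - 13) - ((0) + t0*(-3))) = 0 := by
    linear_combination (-8*m - 68)*h1 + (8*m + 52)*h2 + (4*m^2 + 60*m + 221)*h3 + (-4*m^2 - 52*m - 169)*h4
  have Dx : (0:ℝ) < (8*m^2 + 120*m + 458) := by positivity
  have wy : (8*m^2 + 120*m + 458)*((5*m + 40) + t1*(-2*m - 17) - ((5) + t0*(5*m + 35))) = 0 := by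
    linear_combination (8*m^2 + 128*m + 510)*h1 + (-8*m^2 - 112*m - 390)*h2 + (4*m^2 + 68*m + 289)*h3 + (-4*m^2 - 60*m - 221)*h4
  have Dy : (0:ℝ) < (8*m^2 + 120*m + 458) := by positivity
  exact Or.inl ⟨sub_eq_zero.mp ((mul_eq_zero.mp wx).resolve_left Dx.ne'),
    sub_eq_zero.mp ((mul_eq_zero.mp wy).resolve_left Dy.ne')⟩

theorem q_12_13_13_14 {m : ℝ} (hm : 0 ≤ m) : Q m .e12 .e13 .e13 .e14 := by
  intro t0 t1 t2 t3 a0 b0 a1 b1 a2 b2 a3 b3 h1 h2 h3 h4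
  simp only [px, py, dx, dy] at h1 h2 h3 h4 ⊢
  exfalso
  have h : (20*m^3 + 388*m^2 + 2485*m + 5204)*(1 - t1) + (40*m^2 + 564*m + 2024) = 0 := by
    linear_combination (10*m^2 + 149*m + 544)*h1 + (-10*m^2 - 129*m - 416)*h2 + (-12)*h3 + (-10*m^2 - 129*m - 416)*h4
  have h5 : (0:ℝ) ≤ (20*m^3 + 388*m^2 + 2485*m + 5204)*(1 - t1) := mul_nonneg (by positivity) (by linarith)
  have h6 : (0:ℝ) < (40*m^2 + 564*m + 2024) := by positivity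
  linarith

theorem q_12_13_14_14 {m : ℝ} (hm : 0 ≤ m) : Q m .e12 .e13 .e14 .e14 := by
  intro t0 t1 t2 t3 a0 b0 a1 b1 a2 b2 a3 b3 h1 h2 h3 h4
  simp only [px, py, dx, dy] at h1 h2 h3 h4 ⊢
  exfalso
  have h : (10*m^2 + 135*m + 467)*t1 + (6*m + 39) = 0 := by
    linear_combination (5*m + 32)*h1 + (-3)*h3
  have h5 : (0:ℝ) ≤ (10*m^2 + 135*m + 467)*t1 := mul_nonneg (by positivity) a1
  have h6 : (0:ℝ) < (6*m + 39) := by positivity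
  linarith

theorem q_12_14_14_15 {m : ℝ} (hm : 0 ≤ m) : Q m .e12 .e14 .e14 .e15 := by
  intro t0 t1 t2 t3 a0 b0 a1 b1 a2 b2 a3 b3 h1 h2 h3 h4
  simp only [px, py, dx, dy] at h1 h2 h3 h4 ⊢
  exfalso
  have h : (10*m^2 + 131*m + 415)*(1 - t3) + (19*m + 157) = 0 := by
    linear_combination (5*m + 38)*h1 + (-3)*h4
  have h5 : (0:ℝ) ≤ (10*m^2 + 131*m + 415)*(1 - t3) := mul_nonneg (by positivity) (by linarith)
  have h6 : (0:ℝ) < (19*m + 157) := by positivity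
  linarith

theorem q_13_13_13_13 {m : ℝ} (hm : 0 ≤ m) : Q m .e13 .e13 .e13 .e13 := by
  refine sing ?_
  have h : dx m .e13 ^ 2 + dy m .e13 ^ 2 = (2*m + 13)^2 + (2*m + 17)^2 := by
    simp only [dx, dy] <;> ring
  rw [h]; positivity

theorem q_13_13_13_14 {m : ℝ} (hm : 0 ≤ m) : Q m .e13 .e13 .e13 .e14 := by
  intro t0 t1 t2 t3 a0 b0 a1 b1 a2 b2 a3 b3 h1 h2 h3 h4
  simp only [px, py, dx, dy] at h1 h2 h3 h4 ⊢
  have wx : (8*m^2 + 120*m + 458)*((-3) + t1*(-2*m - 13) - ((-3) + t0*(-2*m - 13))) = 0 := by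
    linear_combination (4*m^2 + 60*m + 221)*h1 + (-4*m^2 - 52*m - 169)*h2 + (4*m^2 + 60*m + 221)*h3 + (-4*m^2 - 52*m - 169)*h4
  have Dx : (0:ℝ) < (8*m^2 + 120*m + 458) := by positivity
  have wy : (8*m^2 + 120*m + 458)*((5*m + 40) + t1*(-2*m - 17) - ((5*m + 40) + t0*(-2*m - 17))) = 0 := by
    linear_combination (4*m^2 + 68*m + 289)*h1 + (-4*m^2 - 60*m - 221)*h2 + (4*m^2 + 68*m + 289)*h3 + (-4*m^2 - 60*m - 221)*h4
  have Dy : (0:ℝ) < (8*m^2 + 120*m + 458) := by positivity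
  exact Or.inl ⟨sub_eq_zero.mp ((mul_eq_zero.mp wx).resolve_left Dx.ne'),
    sub_eq_zero.mp ((mul_eq_zero.mp wy).resolve_left Dy.ne')⟩

theorem q_13_13_14_14 {m : ℝ} (hm : 0 ≤ m) : Q m .e13 .e13 .e14 .e14 := by
  intro t0 t1 t2 t3 a0 b0 a1 b1 a2 b2 a3 b3 h1 h2 h3 h4
  simp only [px, py, dx, dy] at h1 h2 h3 h4 ⊢
  have wx : 1*((-3) + t1*(-2*m - 13) - ((-3) + t0*(-2*m - 13))) = 0 := by
    linear_combination (-1)*h1
  have Dx : (0:ℝ) < 1 := by positivity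
  have wy : (2*m + 13)*((5*m + 40) + t1*(-2*m - 17) - ((5*m + 40) + t0*(-2*m - 17))) = 0 := by
    linear_combination (-2*m - 17)*h1
  have Dy : (0:ℝ) < (2*m + 13) := by positivity
  exact Or.inl ⟨sub_eq_zero.mp ((mul_eq_zero.mp wx).resolve_left Dx.ne'),
    sub_eq_zero.mp ((mul_eq_zero.mp wy).resolve_left Dy.ne')⟩

theorem q_13_14_13_14 {m : ℝ} (hm : 0 ≤ m) : Q m .e13 .e14 .e13 .e14 := by
  intro t0 t1 t2 t3 a0 b0 a1 b1 a2 b2 a3 b3 h1 h2 h3 h4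
  simp only [px, py, dx, dy] at h1 h2 h3 h4 ⊢
  have wx : (4*m + 34)*((-2*m - 16) + t1*(0) - ((-3) + t0*(-2*m - 13))) = 0 := by
    linear_combination (-2*m - 17)*h1 + (2*m + 13)*h2 + (2*m + 13)*h3 + (2*m + 13)*h4
  have Dx : (0:ℝ) < (4*m + 34) := by positivity
  have wy : (4*m + 34)*((3*m + 23) + t1*(-3*m - 22) - ((5*m + 40) + t0*(-2*m - 17))) = 0 := by
    linear_combination (2*m + 17)*h1 + (-2*m - 13)*h2 + (2*m + 21)*h3 + (-2*m - 13)*h4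
  have Dy : (0:ℝ) < (4*m + 34) := by positivity
  exact Or.inl ⟨sub_eq_zero.mp ((mul_eq_zero.mp wx).resolve_left Dx.ne'),
    sub_eq_zero.mp ((mul_eq_zero.mp wy).resolve_left Dy.ne')⟩

theorem q_13_14_14_14 {m : ℝ} (hm : 0 ≤ m) : Q m .e13 .e14 .e14 .e14 := by
  intro t0 t1 t2 t3 a0 b0 a1 b1 a2 b2 a3 b3 h1 h2 h3 h4
  simp only [px, py, dx, dy] at h1 h2 h3 h4 ⊢
  have wx : 1*((-2*m - 16) + t1*(0) - ((-3) + t0*(-2*m - 13))) = 0 := by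
    linear_combination (-1)*h1
  have Dx : (0:ℝ) < 1 := by positivity
  have wy : 1*((3*m + 23) + t1*(-3*m - 22) - ((5*m + 40) + t0*(-2*m - 17))) = 0 := by
    linear_combination 1*h1 + 1*h3
  have Dy : (0:ℝ) < 1 := by positivity
  exact Or.inl ⟨sub_eq_zero.mp ((mul_eq_zero.mp wx).resolve_left Dx.ne'),
    sub_eq_zero.mp ((mul_eq_zero.mp wy).resolve_left Dy.ne')⟩

theorem q_14_14_14_14 {m : ℝ} (hm : 0 ≤ m) : Q m .e14 .e14 .e14 .e14 := by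
  refine sing ?_
  have h : dx m .e14 ^ 2 + dy m .e14 ^ 2 = (0)^2 + (3*m + 22)^2 := by
    simp only [dx, dy] <;> ring
  rw [h]; positivity

theorem q_14_14_14_15 {m : ℝ} (hm : 0 ≤ m) : Q m .e14 .e14 .e14 .e15 := by
  intro t0 t1 t2 t3 a0 b0 a1 b1 a2 b2 a3 b3 h1 h2 h3 h4
  simp only [px, py, dx, dy] at h1 h2 h3 h4 ⊢
  have wx : 1*((-2*m - 16) + t1*(0) - ((-2*m - 16) + t0*(0))) = 0 := by
    linear_combination 0
  have Dx : (0:ℝ) < 1 := by positivity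
  have wy : 1*((3*m + 23) + t1*(-3*m - 22) - ((3*m + 23) + t0*(-3*m - 22))) = 0 := by
    linear_combination 1*h1 + 1*h3
  have Dy : (0:ℝ) < 1 := by positivity
  exact Or.inl ⟨sub_eq_zero.mp ((mul_eq_zero.mp wx).resolve_left Dx.ne'),
    sub_eq_zero.mp ((mul_eq_zero.mp wy).resolve_left Dy.ne')⟩

theorem q_14_14_15_15 {m : ℝ} (hm : 0 ≤ m) : Q m .e14 .e14 .e15 .e15 := by
  intro t0 t1 t2 t3 a0 b0 a1 b1 a2 b2 a3 b3 h1 h2 h3 h4
  simp only [px, py, dx, dy] at h1 h2 h3 h4 ⊢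
  have wx : 1*((-2*m - 16) + t1*(0) - ((-2*m - 16) + t0*(0))) = 0 := by
    linear_combination 0
  have Dx : (0:ℝ) < 1 := by positivity
  have wy : (2*m + 11)*((3*m + 23) + t1*(-3*m - 22) - ((3*m + 23) + t0*(-3*m - 22))) = 0 := by
    linear_combination (-1)*h1 + (-2*m - 11)*h2
  have Dy : (0:ℝ) < (2*m + 11) := by positivity
  exact Or.inl ⟨sub_eq_zero.mp ((mul_eq_zero.mp wx).resolve_left Dx.ne'),
    sub_eq_zero.mp ((mul_eq_zero.mp wy).resolve_left Dy.ne')⟩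

theorem q_14_15_14_15 {m : ℝ} (hm : 0 ≤ m) : Q m .e14 .e15 .e14 .e15 := by
  intro t0 t1 t2 t3 a0 b0 a1 b1 a2 b2 a3 b3 h1 h2 h3 h4
  simp only [px, py, dx, dy] at h1 h2 h3 h4 ⊢
  have wx : 2*((-2*m - 16) + t1*(2*m + 11) - ((-2*m - 16) + t0*(0))) = 0 := by
    linear_combination (-2*m - 12)*h1 + (-2*m - 11)*h3 + (2*m + 11)*h4
  have Dx : (0:ℝ) < 2 := by positivity
  have wy : 2*((1) + t1*(-1) - ((3*m + 23) + t0*(-3*m - 22))) = 0 := by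
    linear_combination (-2*m - 10)*h1 + (-2*m - 9)*h3 + (2*m + 11)*h4
  have Dy : (0:ℝ) < 2 := by positivity
  exact Or.inl ⟨sub_eq_zero.mp ((mul_eq_zero.mp wx).resolve_left Dx.ne'),
    sub_eq_zero.mp ((mul_eq_zero.mp wy).resolve_left Dy.ne')⟩

theorem q_14_15_15_15 {m : ℝ} (hm : 0 ≤ m) : Q m .e14 .e15 .e15 .e15 := by
  intro t0 t1 t2 t3 a0 b0 a1 b1 a2 b2 a3 b3 h1 h2 h3 h4
  simp only [px, py, dx, dy] at h1 h2 h3 h4 ⊢
  have wx : (4*m^2 + 44*m + 122)*((-2*m - 16) + t1*(2*m + 11) - ((-2*m - 16) + t0*(0))) = 0 := by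
    linear_combination (-2*m - 12)*h1 + (-4*m^2 - 46*m - 132)*h2 + (-2*m - 11)*h3 + (-4*m^2 - 44*m - 121)*h4
  have Dx : (0:ℝ) < (4*m^2 + 44*m + 122) := by positivity
  have wy : (4*m^2 + 44*m + 122)*((1) + t1*(-1) - ((3*m + 23) + t0*(-3*m - 22))) = 0 := by
    linear_combination (-2*m - 10)*h1 + (-4*m^2 - 42*m - 110)*h2 + 1*h3 + (2*m + 11)*h4
  have Dy : (0:ℝ) < (4*m^2 + 44*m + 122) := by positivity
  exact Or.inl ⟨sub_eq_zero.mp ((mul_eq_zero.mp wx).resolve_left Dx.ne'),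
    sub_eq_zero.mp ((mul_eq_zero.mp wy).resolve_left Dy.ne')⟩

theorem q_15_15_15_15 {m : ℝ} (hm : 0 ≤ m) : Q m .e15 .e15 .e15 .e15 := by
  refine sing ?_
  have h : dx m .e15 ^ 2 + dy m .e15 ^ 2 = (2*m + 11)^2 + (1)^2 := by
    simp only [dx, dy] <;> ring
  rw [h]; positivity

end Six
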