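import Pool.Agent.helper91.SX.Trip
import Pool.Agent.helper91.SX.Cl0
import Pool.Agent.helper91.SX.Cl1
import Pool.Agent.helper91.SX.Cl2
import Pool.Agent.helper91.SX.Cl3
import Pool.Agent.helper91.SX.Cl4
import Pool.Agent.helper91.SX.Cl5

/-! Squares inscribed in the 16-gon: all quadruples of edges. -/

namespace Six

/-- the quadruples of edges which are treated separately -/
def tb : Ed → Ed → List (Ed × Ed)
  | .e0, .e0 => [(.e0, .e0), (.e0, .e1), (.e0, .e14), (.e0, .e15), (.e1, .e1), (.e15, .e14), (.e15, .e15)]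
  | .e0, .e1 => [(.e0, .e1), (.e0, .e14), (.e1, .e1), (.e2, .e3), (.e2, .e4)]
  | .e0, .e2 => [(.e5, .e7), (.e5, .e8), (.e7, .e12), (.e8, .e12)]
  | .e0, .e3 => [(.e7, .e11), (.e7, .e12), (.e8, .e11), (.e8, .e12), (.e10, .e14)]
  | .e0, .e4 => [(.e7, .e10), (.e7, .e11), (.e7, .e12), (.e8, .e11), (.e8, .e12), (.e9, .e12), (.e10, .e14)]
  | .e0, .e5 => [(.e7, .e10), (.e7, .e12)]
  | .e0, .e6 => []
  | .e0, .e7 => []
  | .e0, .e8 => []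
  | .e0, .e9 => [(.e12, .e14)]
  | .e0, .e10 => []
  | .e0, .e11 => []
  | .e0, .e12 => []
  | .e0, .e13 => []
  | .e0, .e14 => [(.e1, .e1)]
  | .e0, .e15 => [(.e0, .e15), (.e15, .e14), (.e15, .e15)]
  | .e1, .e0 => []
  | .e1, .e1 => [(.e1, .e1), (.e1, .e2), (.e2, .e2)]
  | .e1, .e2 => [(.e1, .e2), (.e2, .e2), (.e3, .e15), (.e4, .e15)]
  | .e1, .e3 => [(.e10, .e14), (.e11, .e14), (.e12, .e14)]
  | .e1, .e4 => [(.e10, .e14), (.e11, .e14), (.e12, .e14)]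
  | .e1, .e5 => [(.e9, .e13)]
  | .e1, .e6 => []
  | .e1, .e7 => []
  | .e1, .e8 => []
  | .e1, .e9 => []
  | .e1, .e10 => []
  | .e1, .e11 => []
  | .e1, .e12 => []
  | .e1, .e13 => []
  | .e1, .e14 => []
  | .e1, .e15 => []
  | .e2, .e0 => []
  | .e2, .e1 => []
  | .e2, .e2 => [(.e2, .e2), (.e2, .e3), (.e3, .e3)]
  | .e2, .e3 => [(.e2, .e3), (.e3, .e3)]
  | .e2, .e4 => [(.e3, .e3), (.e4, .e3), (.e4, .e4)]
  | .e2, .e5 => [(.e7, .e11), (.e7, .e12), (.e7, .e15), (.e8, .e15)]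
  | .e2, .e6 => []
  | .e2, .e7 => []
  | .e2, .e8 => []
  | .e2, .e9 => []
  | .e2, .e10 => []
  | .e2, .e11 => []
  | .e2, .e12 => []
  | .e2, .e13 => []
  | .e2, .e14 => []
  | .e2, .e15 => []
  | .e3, .e0 => []
  | .e3, .e1 => []
  | .e3, .e2 => []
  | .e3, .e3 => [(.e3, .e3), (.e3, .e4), (.e4, .e4)]
  | .e3, .e4 => [(.e3, .e4), (.e4, .e4)]
  | .e3, .e5 => [(.e5, .e7)]
  | .e3, .e6 => []
  | .e3, .e7 => [(.e11, .e15), (.e12, .e14), (.e12, .e15)]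
  | .e3, .e8 => [(.e11, .e15), (.e12, .e14), (.e12, .e15)]
  | .e3, .e9 => [(.e12, .e14)]
  | .e3, .e10 => []
  | .e3, .e11 => []
  | .e3, .e12 => []
  | .e3, .e13 => []
  | .e3, .e14 => []
  | .e3, .e15 => []
  | .e4, .e0 => []
  | .e4, .e1 => []
  | .e4, .e2 => []
  | .e4, .e3 => []
  | .e4, .e4 => [(.e4, .e4), (.e4, .e5), (.e5, .e5)]
  | .e4, .e5 => [(.e4, .e5), (.e5, .e5), (.e5, .e7)]
  | .e4, .e6 => []
  | .e4, .e7 => [(.e10, .e15), (.e11, .e15), (.e12, .e14), (.e12, .e15)]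
  | .e4, .e8 => [(.e11, .e15), (.e12, .e15)]
  | .e4, .e9 => [(.e12, .e14), (.e12, .e15)]
  | .e4, .e10 => []
  | .e4, .e11 => []
  | .e4, .e12 => []
  | .e4, .e13 => []
  | .e4, .e14 => []
  | .e4, .e15 => []
  | .e5, .e0 => []
  | .e5, .e1 => []
  | .e5, .e2 => []
  | .e5, .e3 => []
  | .e5, .e4 => []
  | .e5, .e5 => [(.e5, .e5), (.e5, .e6), (.e5, .e7), (.e6, .e6), (.e6, .e7), (.e7, .e7), (.e7, .e8), (.e7, .e9)]
  | .e5, .e6 => [(.e5, .e6), (.e6, .e6), (.e6, .e7), (.e7, .e7)]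
  | .e5, .e7 => [(.e5, .e7), (.e7, .e7), (.e7, .e8), (.e10, .e15)]
  | .e5, .e8 => []
  | .e5, .e9 => []
  | .e5, .e10 => []
  | .e5, .e11 => []
  | .e5, .e12 => []
  | .e5, .e13 => []
  | .e5, .e14 => []
  | .e5, .e15 => []
  | .e6, .e0 => []
  | .e6, .e1 => []
  | .e6, .e2 => []
  | .e6, .e3 => []
  | .e6, .e4 => []
  | .e6, .e5 => []
  | .e6, .e6 => [(.e6, .e6), (.e6, .e7), (.e7, .e7)]
  | .e6, .e7 => [(.e6, .e7), (.e7, .e7)]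
  | .e6, .e8 => []
  | .e6, .e9 => []
  | .e6, .e10 => []
  | .e6, .e11 => []
  | .e6, .e12 => []
  | .e6, .e13 => []
  | .e6, .e14 => []
  | .e6, .e15 => []
  | .e7, .e0 => []
  | .e7, .e1 => []
  | .e7, .e2 => []
  | .e7, .e3 => []
  | .e7, .e4 => []
  | .e7, .e5 => []
  | .e7, .e6 => []
  | .e7, .e7 => [(.e7, .e7), (.e7, .e8), (.e7, .e9), (.e8, .e8), (.e9, .e8)]
  | .e7, .e8 => [(.e7, .e8), (.e8, .e8)]
  | .e7, .e9 => [(.e8, .e8), (.e10, .e11), (.e10, .e12)]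
  | .e7, .e10 => []
  | .e7, .e11 => []
  | .e7, .e12 => []
  | .e7, .e13 => []
  | .e7, .e14 => []
  | .e7, .e15 => []
  | .e8, .e0 => []
  | .e8, .e1 => []
  | .e8, .e2 => []
  | .e8, .e3 => []
  | .e8, .e4 => []
  | .e8, .e5 => []
  | .e8, .e6 => []
  | .e8, .e7 => []
  | .e8, .e8 => [(.e8, .e8), (.e8, .e9), (.e9, .e9), (.e9, .e11)]
  | .e8, .e9 => [(.e8, .e9), (.e9, .e9), (.e9, .e11), (.e10, .e11), (.e10, .e12)]
  | .e8, .e10 => []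
  | .e8, .e11 => []
  | .e8, .e12 => []
  | .e8, .e13 => []
  | .e8, .e14 => []
  | .e8, .e15 => []
  | .e9, .e0 => []
  | .e9, .e1 => []
  | .e9, .e2 => []
  | .e9, .e3 => []
  | .e9, .e4 => []
  | .e9, .e5 => []
  | .e9, .e6 => []
  | .e9, .e7 => []
  | .e9, .e8 => []
  | .e9, .e9 => [(.e9, .e9), (.e9, .e10), (.e10, .e10)]
  | .e9, .e10 => [(.e9, .e10), (.e10, .e10)]
  | .e9, .e11 => []
  | .e9, .e12 => [(.e14, .e15)]
  | .e9, .e13 => []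
  | .e9, .e14 => []
  | .e9, .e15 => []
  | .e10, .e0 => []
  | .e10, .e1 => []
  | .e10, .e2 => []
  | .e10, .e3 => []
  | .e10, .e4 => []
  | .e10, .e5 => []
  | .e10, .e6 => []
  | .e10, .e7 => []
  | .e10, .e8 => []
  | .e10, .e9 => []
  | .e10, .e10 => [(.e10, .e10), (.e10, .e11), (.e11, .e11)]
  | .e10, .e11 => [(.e10, .e11), (.e11, .e11)]
  | .e10, .e12 => [(.e11, .e11), (.e12, .e11), (.e12, .e12)]
  | .e10, .e13 => []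
  | .e10, .e14 => []
  | .e10, .e15 => []
  | .e11, .e0 => []
  | .e11, .e1 => []
  | .e11, .e2 => []
  | .e11, .e3 => []
  | .e11, .e4 => []
  | .e11, .e5 => []
  | .e11, .e6 => []
  | .e11, .e7 => []
  | .e11, .e8 => []
  | .e11, .e9 => []
  | .e11, .e10 => []
  | .e11, .e11 => [(.e11, .e11), (.e11, .e12), (.e12, .e12)]
  | .e11, .e12 => [(.e11, .e12), (.e12, .e12), (.e12, .e14), (.e13, .e14), (.e14, .e14)]
  | .e11, .e13 => []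
  | .e11, .e14 => []
  | .e11, .e15 => []
  | .e12, .e0 => []
  | .e12, .e1 => []
  | .e12, .e2 => []
  | .e12, .e3 => []
  | .e12, .e4 => []
  | .e12, .e5 => []
  | .e12, .e6 => []
  | .e12, .e7 => []
  | .e12, .e8 => []
  | .e12, .e9 => []
  | .e12, .e10 => []
  | .e12, .e11 => []
  | .e12, .e12 => [(.e12, .e12), (.e12, .e13), (.e12, .e14), (.e13, .e13), (.e13, .e14), (.e14, .e14)]
  | .e12, .e13 => [(.e12, .e13), (.e13, .e13), (.e13, .e14), (.e14, .e14)]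
  | .e12, .e14 => [(.e14, .e15)]
  | .e12, .e15 => []
  | .e13, .e0 => []
  | .e13, .e1 => []
  | .e13, .e2 => []
  | .e13, .e3 => []
  | .e13, .e4 => []
  | .e13, .e5 => []
  | .e13, .e6 => []
  | .e13, .e7 => []
  | .e13, .e8 => []
  | .e13, .e9 => []
  | .e13, .e10 => []
  | .e13, .e11 => []
  | .e13, .e12 => []
  | .e13, .e13 => [(.e13, .e13), (.e13, .e14), (.e14, .e14)]
  | .e13, .e14 => [(.e13, .e14), (.e14, .e14)]
  | .e13, .e15 => []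
  | .e14, .e0 => []
  | .e14, .e1 => []
  | .e14, .e2 => []
  | .e14, .e3 => []
  | .e14, .e4 => []
  | .e14, .e5 => []
  | .e14, .e6 => []
  | .e14, .e7 => []
  | .e14, .e8 => []
  | .e14, .e9 => []
  | .e14, .e10 => []
  | .e14, .e11 => []
  | .e14, .e12 => []
  | .e14, .e13 => []
  | .e14, .e14 => [(.e14, .e14), (.e14, .e15), (.e15, .e15)]
  | .e14, .e15 => [(.e14, .e15), (.e15, .e15)]
  | .e15, .e0 => []
  | .e15, .e1 => []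
  | .e15, .e2 => []
  | .e15, .e3 => []
  | .e15, .e4 => []
  | .e15, .e5 => []
  | .e15, .e6 => []
  | .e15, .e7 => []
  | .e15, .e8 => []
  | .e15, .e9 => []
  | .e15, .e10 => []
  | .e15, .e11 => []
  | .e15, .e12 => []
  | .e15, .e13 => []
  | .e15, .e14 => []
  | .e15, .e15 => [(.e15, .e15)]

theorem tb_0_0 {m : ℝ} (hm : 0 ≤ m) : ∀ p ∈ tb .e0 .e0, Q m .e0 .e0 p.1 p.2 :=
  List.forall_mem_cons.mpr ⟨q_0_0_0_0 hm, List.forall_mem_cons.mpr ⟨q_0_0_0_1 hm, List.forall_mem_cons.mpr ⟨q_0_0_0_14 hm, List.forall_mem_cons.mpr ⟨q_0_0_0_15 hm, List.forall_mem_cons.mpr ⟨q_0_0_1_1 hm, List.forall_mem_cons.mpr ⟨q_0_0_15_14 hm, List.forall_mem_cons.mpr ⟨q_0_0_15_15 hm, List.forall_mem_nil _⟩⟩⟩⟩⟩⟩⟩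

theorem tb_0_1 {m : ℝ} (hm : 0 ≤ m) : ∀ p ∈ tb .e0 .e1, Q m .e0 .e1 p.1 p.2 :=
  List.forall_mem_cons.mpr ⟨q_0_1_0_1 hm, List.forall_mem_cons.mpr ⟨q_0_1_0_14 hm, List.forall_mem_cons.mpr ⟨q_0_1_1_1 hm, List.forall_mem_cons.mpr ⟨q_0_1_2_3 hm, List.forall_mem_cons.mpr ⟨q_0_1_2_4 hm, List.forall_mem_nil _⟩⟩⟩⟩⟩

theorem tb_0_2 {m : ℝ} (hm : 0 ≤ m) : ∀ p ∈ tb .e0 .e2, Q m .e0 .e2 p.1 p.2 :=
  List.forall_mem_cons.mpr ⟨q_0_2_5_7 hm, List.forall_mem_cons.mpr ⟨q_0_2_5_8 hm, List.forall_mem_cons.mpr ⟨q_0_2_7_12 hm, List.forall_mem_cons.mpr ⟨q_0_2_8_12 hm, List.forall_mem_nil _⟩⟩⟩⟩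

theorem tb_0_3 {m : ℝ} (hm : 0 ≤ m) : ∀ p ∈ tb .e0 .e3, Q m .e0 .e3 p.1 p.2 :=
  List.forall_mem_cons.mpr ⟨q_0_3_7_11 hm, List.forall_mem_cons.mpr ⟨q_0_3_7_12 hm, List.forall_mem_cons.mpr ⟨q_0_3_8_11 hm, List.forall_mem_cons.mpr ⟨q_0_3_8_12 hm, List.forall_mem_cons.mpr ⟨q_0_3_10_14 hm, List.forall_mem_nil _⟩⟩⟩⟩⟩

theorem tb_0_4 {m : ℝ} (hm : 0 ≤ m) : ∀ p ∈ tb .e0 .e4, Q m .e0 .e4 p.1 p.2 :=
  List.forall_mem_cons.mpr ⟨q_0_4_7_10 hm, List.forall_mem_cons.mpr ⟨q_0_4_7_11 hm, List.forall_mem_cons.mpr ⟨q_0_4_7_12 hm, List.forall_mem_cons.mpr ⟨q_0_4_8_11 hm, List.forall_mem_cons.mpr ⟨q_0_4_8_12 hm, List.forall_mem_cons.mpr ⟨q_0_4_9_12 hm, List.forall_mem_cons.mpr ⟨q_0_4_10_14 hm, List.forall_mem_nil _⟩⟩⟩⟩⟩⟩⟩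

theorem tb_0_5 {m : ℝ} (hm : 0 ≤ m) : ∀ p ∈ tb .e0 .e5, Q m .e0 .e5 p.1 p.2 :=
  List.forall_mem_cons.mpr ⟨q_0_5_7_10 hm, List.forall_mem_cons.mpr ⟨q_0_5_7_12 hm, List.forall_mem_nil _⟩⟩

theorem tb_0_9 {m : ℝ} (hm : 0 ≤ m) : ∀ p ∈ tb .e0 .e9, Q m .e0 .e9 p.1 p.2 :=
  List.forall_mem_cons.mpr ⟨q_0_9_12_14 hm, List.forall_mem_nil _⟩

theorem tb_0_14 {m : ℝ} (hm : 0 ≤ m) : ∀ p ∈ tb .e0 .e14, Q m .e0 .e14 p.1 p.2 :=
  List.forall_mem_cons.mpr ⟨q_0_14_1_1 hm, List.forall_mem_nil _⟩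

theorem tb_0_15 {m : ℝ} (hm : 0 ≤ m) : ∀ p ∈ tb .e0 .e15, Q m .e0 .e15 p.1 p.2 :=
  List.forall_mem_cons.mpr ⟨q_0_15_0_15 hm, List.forall_mem_cons.mpr ⟨q_0_15_15_14 hm, List.forall_mem_cons.mpr ⟨q_0_15_15_15 hm, List.forall_mem_nil _⟩⟩⟩

theorem tb_1_1 {m : ℝ} (hm : 0 ≤ m) : ∀ p ∈ tb .e1 .e1, Q m .e1 .e1 p.1 p.2 :=
  List.forall_mem_cons.mpr ⟨q_1_1_1_1 hm, List.forall_mem_cons.mpr ⟨q_1_1_1_2 hm, List.forall_mem_cons.mpr ⟨q_1_1_2_2 hm, List.forall_mem_nil _⟩⟩⟩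

theorem tb_1_2 {m : ℝ} (hm : 0 ≤ m) : ∀ p ∈ tb .e1 .e2, Q m .e1 .e2 p.1 p.2 :=
  List.forall_mem_cons.mpr ⟨q_1_2_1_2 hm, List.forall_mem_cons.mpr ⟨q_1_2_2_2 hm, List.forall_mem_cons.mpr ⟨q_1_2_3_15 hm, List.forall_mem_cons.mpr ⟨q_1_2_4_15 hm, List.forall_mem_nil _⟩⟩⟩⟩

theorem tb_1_3 {m : ℝ} (hm : 0 ≤ m) : ∀ p ∈ tb .e1 .e3, Q m .e1 .e3 p.1 p.2 :=
  List.forall_mem_cons.mpr ⟨q_1_3_10_14 hm, List.forall_mem_cons.mpr ⟨q_1_3_11_14 hm, List.forall_mem_cons.mpr ⟨q_1_3_12_14 hm, List.forall_mem_nil _⟩⟩⟩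

theorem tb_1_4 {m : ℝ} (hm : 0 ≤ m) : ∀ p ∈ tb .e1 .e4, Q m .e1 .e4 p.1 p.2 :=
  List.forall_mem_cons.mpr ⟨q_1_4_10_14 hm, List.forall_mem_cons.mpr ⟨q_1_4_11_14 hm, List.forall_mem_cons.mpr ⟨q_1_4_12_14 hm, List.forall_mem_nil _⟩⟩⟩

theorem tb_1_5 {m : ℝ} (hm : 0 ≤ m) : ∀ p ∈ tb .e1 .e5, Q m .e1 .e5 p.1 p.2 :=
  List.forall_mem_cons.mpr ⟨q_1_5_9_13 hm, List.forall_mem_nil _⟩

theorem tb_2_2 {m : ℝ} (hm : 0 ≤ m) : ∀ p ∈ tb .e2 .e2, Q m .e2 .e2 p.1 p.2 :=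
  List.forall_mem_cons.mpr ⟨q_2_2_2_2 hm, List.forall_mem_cons.mpr ⟨q_2_2_2_3 hm, List.forall_mem_cons.mpr ⟨q_2_2_3_3 hm, List.forall_mem_nil _⟩⟩⟩

theorem tb_2_3 {m : ℝ} (hm : 0 ≤ m) : ∀ p ∈ tb .e2 .e3, Q m .e2 .e3 p.1 p.2 :=
  List.forall_mem_cons.mpr ⟨q_2_3_2_3 hm, List.forall_mem_cons.mpr ⟨q_2_3_3_3 hm, List.forall_mem_nil _⟩⟩

theorem tb_2_4 {m : ℝ} (hm : 0 ≤ m) : ∀ p ∈ tb .e2 .e4, Q m .e2 .e4 p.1 p.2 :=
  List.forall_mem_cons.mpr ⟨q_2_4_3_3 hm, List.forall_mem_cons.mpr ⟨q_2_4_4_3 hm, List.forall_mem_cons.mpr ⟨q_2_4_4_4 hm, List.forall_mem_nil _⟩⟩⟩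

theorem tb_2_5 {m : ℝ} (hm : 0 ≤ m) : ∀ p ∈ tb .e2 .e5, Q m .e2 .e5 p.1 p.2 :=
  List.forall_mem_cons.mpr ⟨q_2_5_7_11 hm, List.forall_mem_cons.mpr ⟨q_2_5_7_12 hm, List.forall_mem_cons.mpr ⟨q_2_5_7_15 hm, List.forall_mem_cons.mpr ⟨q_2_5_8_15 hm, List.forall_mem_nil _⟩⟩⟩⟩

theorem tb_3_3 {m : ℝ} (hm : 0 ≤ m) : ∀ p ∈ tb .e3 .e3, Q m .e3 .e3 p.1 p.2 :=
  List.forall_mem_cons.mpr ⟨q_3_3_3_3 hm, List.forall_mem_cons.mpr ⟨q_3_3_3_4 hm, List.forall_mem_cons.mpr ⟨q_3_3_4_4 hm, List.forall_mem_nil _⟩⟩⟩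

theorem tb_3_4 {m : ℝ} (hm : 0 ≤ m) : ∀ p ∈ tb .e3 .e4, Q m .e3 .e4 p.1 p.2 :=
  List.forall_mem_cons.mpr ⟨q_3_4_3_4 hm, List.forall_mem_cons.mpr ⟨q_3_4_4_4 hm, List.forall_mem_nil _⟩⟩

theorem tb_3_5 {m : ℝ} (hm : 0 ≤ m) : ∀ p ∈ tb .e3 .e5, Q m .e3 .e5 p.1 p.2 :=
  List.forall_mem_cons.mpr ⟨q_3_5_5_7 hm, List.forall_mem_nil _⟩

theorem tb_3_7 {m : ℝ} (hm : 0 ≤ m) : ∀ p ∈ tb .e3 .e7, Q m .e3 .e7 p.1 p.2 :=
  List.forall_mem_cons.mpr ⟨q_3_7_11_15 hm, List.forall_mem_cons.mpr ⟨q_3_7_12_14 hm, List.forall_mem_cons.mpr ⟨q_3_7_12_15 hm, List.forall_mem_nil _⟩⟩⟩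

theorem tb_3_8 {m : ℝ} (hm : 0 ≤ m) : ∀ p ∈ tb .e3 .e8, Q m .e3 .e8 p.1 p.2 :=
  List.forall_mem_cons.mpr ⟨q_3_8_11_15 hm, List.forall_mem_cons.mpr ⟨q_3_8_12_14 hm, List.forall_mem_cons.mpr ⟨q_3_8_12_15 hm, List.forall_mem_nil _⟩⟩⟩

theorem tb_3_9 {m : ℝ} (hm : 0 ≤ m) : ∀ p ∈ tb .e3 .e9, Q m .e3 .e9 p.1 p.2 :=
  List.forall_mem_cons.mpr ⟨q_3_9_12_14 hm, List.forall_mem_nil _⟩

theorem tb_4_4 {m : ℝ} (hm : 0 ≤ m) : ∀ p ∈ tb .e4 .e4, Q m .e4 .e4 p.1 p.2 :=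
  List.forall_mem_cons.mpr ⟨q_4_4_4_4 hm, List.forall_mem_cons.mpr ⟨q_4_4_4_5 hm, List.forall_mem_cons.mpr ⟨q_4_4_5_5 hm, List.forall_mem_nil _⟩⟩⟩

theorem tb_4_5 {m : ℝ} (hm : 0 ≤ m) : ∀ p ∈ tb .e4 .e5, Q m .e4 .e5 p.1 p.2 :=
  List.forall_mem_cons.mpr ⟨q_4_5_4_5 hm, List.forall_mem_cons.mpr ⟨q_4_5_5_5 hm, List.forall_mem_cons.mpr ⟨q_4_5_5_7 hm, List.forall_mem_nil _⟩⟩⟩

theorem tb_4_7 {m : ℝ} (hm : 0 ≤ m) : ∀ p ∈ tb .e4 .e7, Q m .e4 .e7 p.1 p.2 :=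
  List.forall_mem_cons.mpr ⟨q_4_7_10_15 hm, List.forall_mem_cons.mpr ⟨q_4_7_11_15 hm, List.forall_mem_cons.mpr ⟨q_4_7_12_14 hm, List.forall_mem_cons.mpr ⟨q_4_7_12_15 hm, List.forall_mem_nil _⟩⟩⟩⟩

theorem tb_4_8 {m : ℝ} (hm : 0 ≤ m) : ∀ p ∈ tb .e4 .e8, Q m .e4 .e8 p.1 p.2 :=
  List.forall_mem_cons.mpr ⟨q_4_8_11_15 hm, List.forall_mem_cons.mpr ⟨q_4_8_12_15 hm, List.forall_mem_nil _⟩⟩

theorem tb_4_9 {m : ℝ} (hm : 0 ≤ m) : ∀ p ∈ tb .e4 .e9, Q m .e4 .e9 p.1 p.2 :=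
  List.forall_mem_cons.mpr ⟨q_4_9_12_14 hm, List.forall_mem_cons.mpr ⟨q_4_9_12_15 hm, List.forall_mem_nil _⟩⟩

theorem tb_5_5 {m : ℝ} (hm : 0 ≤ m) : ∀ p ∈ tb .e5 .e5, Q m .e5 .e5 p.1 p.2 :=
  List.forall_mem_cons.mpr ⟨q_5_5_5_5 hm, List.forall_mem_cons.mpr ⟨q_5_5_5_6 hm, List.forall_mem_cons.mpr ⟨q_5_5_5_7 hm, List.forall_mem_cons.mpr ⟨q_5_5_6_6 hm, List.forall_mem_cons.mpr ⟨q_5_5_6_7 hm, List.forall_mem_cons.mpr ⟨q_5_5_7_7 hm, List.forall_mem_cons.mpr ⟨q_5_5_7_8 hm, List.forall_mem_cons.mpr ⟨q_5_5_7_9 hm, List.forall_mem_nil _⟩⟩⟩⟩⟩⟩⟩⟩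

theorem tb_5_6 {m : ℝ} (hm : 0 ≤ m) : ∀ p ∈ tb .e5 .e6, Q m .e5 .e6 p.1 p.2 :=
  List.forall_mem_cons.mpr ⟨q_5_6_5_6 hm, List.forall_mem_cons.mpr ⟨q_5_6_6_6 hm, List.forall_mem_cons.mpr ⟨q_5_6_6_7 hm, List.forall_mem_cons.mpr ⟨q_5_6_7_7 hm, List.forall_mem_nil _⟩⟩⟩⟩

theorem tb_5_7 {m : ℝ} (hm : 0 ≤ m) : ∀ p ∈ tb .e5 .e7, Q m .e5 .e7 p.1 p.2 :=
  List.forall_mem_cons.mpr ⟨q_5_7_5_7 hm, List.forall_mem_cons.mpr ⟨q_5_7_7_7 hm, List.forall_mem_cons.mpr ⟨q_5_7_7_8 hm, List.forall_mem_cons.mpr ⟨q_5_7_10_15 hm, List.forall_mem_nil _⟩⟩⟩⟩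

theorem tb_6_6 {m : ℝ} (hm : 0 ≤ m) : ∀ p ∈ tb .e6 .e6, Q m .e6 .e6 p.1 p.2 :=
  List.forall_mem_cons.mpr ⟨q_6_6_6_6 hm, List.forall_mem_cons.mpr ⟨q_6_6_6_7 hm, List.forall_mem_cons.mpr ⟨q_6_6_7_7 hm, List.forall_mem_nil _⟩⟩⟩

theorem tb_6_7 {m : ℝ} (hm : 0 ≤ m) : ∀ p ∈ tb .e6 .e7, Q m .e6 .e7 p.1 p.2 :=
  List.forall_mem_cons.mpr ⟨q_6_7_6_7 hm, List.forall_mem_cons.mpr ⟨q_6_7_7_7 hm, List.forall_mem_nil _⟩⟩

theorem tb_7_7 {m : ℝ} (hm : 0 ≤ m) : ∀ p ∈ tb .e7 .e7, Q m .e7 .e7 p.1 p.2 :=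
  List.forall_mem_cons.mpr ⟨q_7_7_7_7 hm, List.forall_mem_cons.mpr ⟨q_7_7_7_8 hm, List.forall_mem_cons.mpr ⟨q_7_7_7_9 hm, List.forall_mem_cons.mpr ⟨q_7_7_8_8 hm, List.forall_mem_cons.mpr ⟨q_7_7_9_8 hm, List.forall_mem_nil _⟩⟩⟩⟩⟩

theorem tb_7_8 {m : ℝ} (hm : 0 ≤ m) : ∀ p ∈ tb .e7 .e8, Q m .e7 .e8 p.1 p.2 :=
  List.forall_mem_cons.mpr ⟨q_7_8_7_8 hm, List.forall_mem_cons.mpr ⟨q_7_8_8_8 hm, List.forall_mem_nil _⟩⟩

theorem tb_7_9 {m : ℝ} (hm : 0 ≤ m) : ∀ p ∈ tb .e7 .e9, Q m .e7 .e9 p.1 p.2 :=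
  List.forall_mem_cons.mpr ⟨q_7_9_8_8 hm, List.forall_mem_cons.mpr ⟨q_7_9_10_11 hm, List.forall_mem_cons.mpr ⟨q_7_9_10_12 hm, List.forall_mem_nil _⟩⟩⟩

theorem tb_8_8 {m : ℝ} (hm : 0 ≤ m) : ∀ p ∈ tb .e8 .e8, Q m .e8 .e8 p.1 p.2 :=
  List.forall_mem_cons.mpr ⟨q_8_8_8_8 hm, List.forall_mem_cons.mpr ⟨q_8_8_8_9 hm, List.forall_mem_cons.mpr ⟨q_8_8_9_9 hm, List.forall_mem_cons.mpr ⟨q_8_8_9_11 hm, List.forall_mem_nil _⟩⟩⟩⟩

theorem tb_8_9 {m : ℝ} (hm : 0 ≤ m) : ∀ p ∈ tb .e8 .e9, Q m .e8 .e9 p.1 p.2 :=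
  List.forall_mem_cons.mpr ⟨q_8_9_8_9 hm, List.forall_mem_cons.mpr ⟨q_8_9_9_9 hm, List.forall_mem_cons.mpr ⟨q_8_9_9_11 hm, List.forall_mem_cons.mpr ⟨q_8_9_10_11 hm, List.forall_mem_cons.mpr ⟨q_8_9_10_12 hm, List.forall_mem_nil _⟩⟩⟩⟩⟩

theorem tb_9_9 {m : ℝ} (hm : 0 ≤ m) : ∀ p ∈ tb .e9 .e9, Q m .e9 .e9 p.1 p.2 :=
  List.forall_mem_cons.mpr ⟨q_9_9_9_9 hm, List.forall_mem_cons.mpr ⟨q_9_9_9_10 hm, List.forall_mem_cons.mpr ⟨q_9_9_10_10 hm, List.forall_mem_nil _⟩⟩⟩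

theorem tb_9_10 {m : ℝ} (hm : 0 ≤ m) : ∀ p ∈ tb .e9 .e10, Q m .e9 .e10 p.1 p.2 :=
  List.forall_mem_cons.mpr ⟨q_9_10_9_10 hm, List.forall_mem_cons.mpr ⟨q_9_10_10_10 hm, List.forall_mem_nil _⟩⟩

theorem tb_9_12 {m : ℝ} (hm : 0 ≤ m) : ∀ p ∈ tb .e9 .e12, Q m .e9 .e12 p.1 p.2 :=
  List.forall_mem_cons.mpr ⟨q_9_12_14_15 hm, List.forall_mem_nil _⟩

theorem tb_10_10 {m : ℝ} (hm : 0 ≤ m) : ∀ p ∈ tb .e10 .e10, Q m .e10 .e10 p.1 p.2 :=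
  List.forall_mem_cons.mpr ⟨q_10_10_10_10 hm, List.forall_mem_cons.mpr ⟨q_10_10_10_11 hm, List.forall_mem_cons.mpr ⟨q_10_10_11_11 hm, List.forall_mem_nil _⟩⟩⟩

theorem tb_10_11 {m : ℝ} (hm : 0 ≤ m) : ∀ p ∈ tb .e10 .e11, Q m .e10 .e11 p.1 p.2 :=
  List.forall_mem_cons.mpr ⟨q_10_11_10_11 hm, List.forall_mem_cons.mpr ⟨q_10_11_11_11 hm, List.forall_mem_nil _⟩⟩

theorem tb_10_12 {m : ℝ} (hm : 0 ≤ m) : ∀ p ∈ tb .e10 .e12, Q m .e10 .e12 p.1 p.2 :=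
  List.forall_mem_cons.mpr ⟨q_10_12_11_11 hm, List.forall_mem_cons.mpr ⟨q_10_12_12_11 hm, List.forall_mem_cons.mpr ⟨q_10_12_12_12 hm, List.forall_mem_nil _⟩⟩⟩

theorem tb_11_11 {m : ℝ} (hm : 0 ≤ m) : ∀ p ∈ tb .e11 .e11, Q m .e11 .e11 p.1 p.2 :=
  List.forall_mem_cons.mpr ⟨q_11_11_11_11 hm, List.forall_mem_cons.mpr ⟨q_11_11_11_12 hm, List.forall_mem_cons.mpr ⟨q_11_11_12_12 hm, List.forall_mem_nil _⟩⟩⟩

theorem tb_11_12 {m : ℝ} (hm : 0 ≤ m) : ∀ p ∈ tb .e11 .e12, Q m .e11 .e12 p.1 p.2 :=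
  List.forall_mem_cons.mpr ⟨q_11_12_11_12 hm, List.forall_mem_cons.mpr ⟨q_11_12_12_12 hm, List.forall_mem_cons.mpr ⟨q_11_12_12_14 hm, List.forall_mem_cons.mpr ⟨q_11_12_13_14 hm, List.forall_mem_cons.mpr ⟨q_11_12_14_14 hm, List.forall_mem_nil _⟩⟩⟩⟩⟩

theorem tb_12_12 {m : ℝ} (hm : 0 ≤ m) : ∀ p ∈ tb .e12 .e12, Q m .e12 .e12 p.1 p.2 :=
  List.forall_mem_cons.mpr ⟨q_12_12_12_12 hm, List.forall_mem_cons.mpr ⟨q_12_12_12_13 hm, List.forall_mem_cons.mpr ⟨q_12_12_12_14 hm, List.forall_mem_cons.mpr ⟨q_12_12_13_13 hm, List.forall_mem_cons.mpr ⟨q_12_12_13_14 hm, List.forall_mem_cons.mpr ⟨q_12_12_14_14 hm, List.forall_mem_nil _⟩⟩⟩⟩⟩⟩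

theorem tb_12_13 {m : ℝ} (hm : 0 ≤ m) : ∀ p ∈ tb .e12 .e13, Q m .e12 .e13 p.1 p.2 :=
  List.forall_mem_cons.mpr ⟨q_12_13_12_13 hm, List.forall_mem_cons.mpr ⟨q_12_13_13_13 hm, List.forall_mem_cons.mpr ⟨q_12_13_13_14 hm, List.forall_mem_cons.mpr ⟨q_12_13_14_14 hm, List.forall_mem_nil _⟩⟩⟩⟩

theorem tb_12_14 {m : ℝ} (hm : 0 ≤ m) : ∀ p ∈ tb .e12 .e14, Q m .e12 .e14 p.1 p.2 :=
  List.forall_mem_cons.mpr ⟨q_12_14_14_15 hm, List.forall_mem_nil _⟩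

theorem tb_13_13 {m : ℝ} (hm : 0 ≤ m) : ∀ p ∈ tb .e13 .e13, Q m .e13 .e13 p.1 p.2 :=
  List.forall_mem_cons.mpr ⟨q_13_13_13_13 hm, List.forall_mem_cons.mpr ⟨q_13_13_13_14 hm, List.forall_mem_cons.mpr ⟨q_13_13_14_14 hm, List.forall_mem_nil _⟩⟩⟩

theorem tb_13_14 {m : ℝ} (hm : 0 ≤ m) : ∀ p ∈ tb .e13 .e14, Q m .e13 .e14 p.1 p.2 :=
  List.forall_mem_cons.mpr ⟨q_13_14_13_14 hm, List.forall_mem_cons.mpr ⟨q_13_14_14_14 hm, List.forall_mem_nil _⟩⟩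

theorem tb_14_14 {m : ℝ} (hm : 0 ≤ m) : ∀ p ∈ tb .e14 .e14, Q m .e14 .e14 p.1 p.2 :=
  List.forall_mem_cons.mpr ⟨q_14_14_14_14 hm, List.forall_mem_cons.mpr ⟨q_14_14_14_15 hm, List.forall_mem_cons.mpr ⟨q_14_14_15_15 hm, List.forall_mem_nil _⟩⟩⟩

theorem tb_14_15 {m : ℝ} (hm : 0 ≤ m) : ∀ p ∈ tb .e14 .e15, Q m .e14 .e15 p.1 p.2 :=
  List.forall_mem_cons.mpr ⟨q_14_15_14_15 hm, List.forall_mem_cons.mpr ⟨q_14_15_15_15 hm, List.forall_mem_nil _⟩⟩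

theorem tb_15_15 {m : ℝ} (hm : 0 ≤ m) : ∀ p ∈ tb .e15 .e15, Q m .e15 .e15 p.1 p.2 :=
  List.forall_mem_cons.mpr ⟨q_15_15_15_15 hm, List.forall_mem_nil _⟩

theorem tb_sound {m : ℝ} (hm : 0 ≤ m) : ∀ a b : Ed, ∀ p ∈ tb a b, Q m a b p.1 p.2
  | .e0, .e0 => tb_0_0 hm
  | .e0, .e1 => tb_0_1 hm
  | .e0, .e2 => tb_0_2 hm
  | .e0, .e3 => tb_0_3 hm
  | .e0, .e4 => tb_0_4 hm
  | .e0, .e5 => tb_0_5 hm
  | .e0, .e6 => List.forall_mem_nil _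
  | .e0, .e7 => List.forall_mem_nil _
  | .e0, .e8 => List.forall_mem_nil _
  | .e0, .e9 => tb_0_9 hm
  | .e0, .e10 => List.forall_mem_nil _
  | .e0, .e11 => List.forall_mem_nil _
  | .e0, .e12 => List.forall_mem_nil _
  | .e0, .e13 => List.forall_mem_nil _
  | .e0, .e14 => tb_0_14 hm
  | .e0, .e15 => tb_0_15 hm
  | .e1, .e0 => List.forall_mem_nil _
  | .e1, .e1 => tb_1_1 hm
  | .e1, .e2 => tb_1_2 hm
  | .e1, .e3 => tb_1_3 hm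
  | .e1, .e4 => tb_1_4 hm
  | .e1, .e5 => tb_1_5 hm
  | .e1, .e6 => List.forall_mem_nil _
  | .e1, .e7 => List.forall_mem_nil _
  | .e1, .e8 => List.forall_mem_nil _
  | .e1, .e9 => List.forall_mem_nil _
  | .e1, .e10 => List.forall_mem_nil _
  | .e1, .e11 => List.forall_mem_nil _
  | .e1, .e12 => List.forall_mem_nil _
  | .e1, .e13 => List.forall_mem_nil _
  | .e1, .e14 => List.forall_mem_nil _
  | .e1, .e15 => List.forall_mem_nil _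
  | .e2, .e0 => List.forall_mem_nil _
  | .e2, .e1 => List.forall_mem_nil _
  | .e2, .e2 => tb_2_2 hm
  | .e2, .e3 => tb_2_3 hm
  | .e2, .e4 => tb_2_4 hm
  | .e2, .e5 => tb_2_5 hm
  | .e2, .e6 => List.forall_mem_nil _
  | .e2, .e7 => List.forall_mem_nil _
  | .e2, .e8 => List.forall_mem_nil _
  | .e2, .e9 => List.forall_mem_nil _
  | .e2, .e10 => List.forall_mem_nil _
  | .e2, .e11 => List.forall_mem_nil _
  | .e2, .e12 => List.forall_mem_nil _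
  | .e2, .e13 => List.forall_mem_nil _
  | .e2, .e14 => List.forall_mem_nil _
  | .e2, .e15 => List.forall_mem_nil _
  | .e3, .e0 => List.forall_mem_nil _
  | .e3, .e1 => List.forall_mem_nil _
  | .e3, .e2 => List.forall_mem_nil _
  | .e3, .e3 => tb_3_3 hm
  | .e3, .e4 => tb_3_4 hm
  | .e3, .e5 => tb_3_5 hm
  | .e3, .e6 => List.forall_mem_nil _
  | .e3, .e7 => tb_3_7 hm
  | .e3, .e8 => tb_3_8 hm
  | .e3, .e9 => tb_3_9 hm
  | .e3, .e10 => List.forall_mem_nil _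
  | .e3, .e11 => List.forall_mem_nil _
  | .e3, .e12 => List.forall_mem_nil _
  | .e3, .e13 => List.forall_mem_nil _
  | .e3, .e14 => List.forall_mem_nil _
  | .e3, .e15 => List.forall_mem_nil _
  | .e4, .e0 => List.forall_mem_nil _
  | .e4, .e1 => List.forall_mem_nil _
  | .e4, .e2 => List.forall_mem_nil _
  | .e4, .e3 => List.forall_mem_nil _
  | .e4, .e4 => tb_4_4 hm
  | .e4, .e5 => tb_4_5 hm
  | .e4, .e6 => List.forall_mem_nil _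
  | .e4, .e7 => tb_4_7 hm
  | .e4, .e8 => tb_4_8 hm
  | .e4, .e9 => tb_4_9 hm
  | .e4, .e10 => List.forall_mem_nil _
  | .e4, .e11 => List.forall_mem_nil _
  | .e4, .e12 => List.forall_mem_nil _
  | .e4, .e13 => List.forall_mem_nil _
  | .e4, .e14 => List.forall_mem_nil _
  | .e4, .e15 => List.forall_mem_nil _
  | .e5, .e0 => List.forall_mem_nil _
  | .e5, .e1 => List.forall_mem_nil _
  | .e5, .e2 => List.forall_mem_nil _
  | .e5, .e3 => List.forall_mem_nil _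
  | .e5, .e4 => List.forall_mem_nil _
  | .e5, .e5 => tb_5_5 hm
  | .e5, .e6 => tb_5_6 hm
  | .e5, .e7 => tb_5_7 hm
  | .e5, .e8 => List.forall_mem_nil _
  | .e5, .e9 => List.forall_mem_nil _
  | .e5, .e10 => List.forall_mem_nil _
  | .e5, .e11 => List.forall_mem_nil _
  | .e5, .e12 => List.forall_mem_nil _
  | .e5, .e13 => List.forall_mem_nil _
  | .e5, .e14 => List.forall_mem_nil _
  | .e5, .e15 => List.forall_mem_nil _
  | .e6, .e0 => List.forall_mem_nil _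
  | .e6, .e1 => List.forall_mem_nil _
  | .e6, .e2 => List.forall_mem_nil _
  | .e6, .e3 => List.forall_mem_nil _
  | .e6, .e4 => List.forall_mem_nil _
  | .e6, .e5 => List.forall_mem_nil _
  | .e6, .e6 => tb_6_6 hm
  | .e6, .e7 => tb_6_7 hm
  | .e6, .e8 => List.forall_mem_nil _
  | .e6, .e9 => List.forall_mem_nil _
  | .e6, .e10 => List.forall_mem_nil _
  | .e6, .e11 => List.forall_mem_nil _
  | .e6, .e12 => List.forall_mem_nil _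
  | .e6, .e13 => List.forall_mem_nil _
  | .e6, .e14 => List.forall_mem_nil _
  | .e6, .e15 => List.forall_mem_nil _
  | .e7, .e0 => List.forall_mem_nil _
  | .e7, .e1 => List.forall_mem_nil _
  | .e7, .e2 => List.forall_mem_nil _
  | .e7, .e3 => List.forall_mem_nil _
  | .e7, .e4 => List.forall_mem_nil _
  | .e7, .e5 => List.forall_mem_nil _
  | .e7, .e6 => List.forall_mem_nil _
  | .e7, .e7 => tb_7_7 hm
  | .e7, .e8 => tb_7_8 hm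
  | .e7, .e9 => tb_7_9 hm
  | .e7, .e10 => List.forall_mem_nil _
  | .e7, .e11 => List.forall_mem_nil _
  | .e7, .e12 => List.forall_mem_nil _
  | .e7, .e13 => List.forall_mem_nil _
  | .e7, .e14 => List.forall_mem_nil _
  | .e7, .e15 => List.forall_mem_nil _
  | .e8, .e0 => List.forall_mem_nil _
  | .e8, .e1 => List.forall_mem_nil _
  | .e8, .e2 => List.forall_mem_nil _
  | .e8, .e3 => List.forall_mem_nil _
  | .e8, .e4 => List.forall_mem_nil _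
  | .e8, .e5 => List.forall_mem_nil _
  | .e8, .e6 => List.forall_mem_nil _
  | .e8, .e7 => List.forall_mem_nil _
  | .e8, .e8 => tb_8_8 hm
  | .e8, .e9 => tb_8_9 hm
  | .e8, .e10 => List.forall_mem_nil _
  | .e8, .e11 => List.forall_mem_nil _
  | .e8, .e12 => List.forall_mem_nil _
  | .e8, .e13 => List.forall_mem_nil _
  | .e8, .e14 => List.forall_mem_nil _
  | .e8, .e15 => List.forall_mem_nil _
  | .e9, .e0 => List.forall_mem_nil _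
  | .e9, .e1 => List.forall_mem_nil _
  | .e9, .e2 => List.forall_mem_nil _
  | .e9, .e3 => List.forall_mem_nil _
  | .e9, .e4 => List.forall_mem_nil _
  | .e9, .e5 => List.forall_mem_nil _
  | .e9, .e6 => List.forall_mem_nil _
  | .e9, .e7 => List.forall_mem_nil _
  | .e9, .e8 => List.forall_mem_nil _
  | .e9, .e9 => tb_9_9 hm
  | .e9, .e10 => tb_9_10 hm
  | .e9, .e11 => List.forall_mem_nil _
  | .e9, .e12 => tb_9_12 hm
  | .e9, .e13 => List.forall_mem_nil _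
  | .e9, .e14 => List.forall_mem_nil _
  | .e9, .e15 => List.forall_mem_nil _
  | .e10, .e0 => List.forall_mem_nil _
  | .e10, .e1 => List.forall_mem_nil _
  | .e10, .e2 => List.forall_mem_nil _
  | .e10, .e3 => List.forall_mem_nil _
  | .e10, .e4 => List.forall_mem_nil _
  | .e10, .e5 => List.forall_mem_nil _
  | .e10, .e6 => List.forall_mem_nil _
  | .e10, .e7 => List.forall_mem_nil _
  | .e10, .e8 => List.forall_mem_nil _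
  | .e10, .e9 => List.forall_mem_nil _
  | .e10, .e10 => tb_10_10 hm
  | .e10, .e11 => tb_10_11 hm
  | .e10, .e12 => tb_10_12 hm
  | .e10, .e13 => List.forall_mem_nil _
  | .e10, .e14 => List.forall_mem_nil _
  | .e10, .e15 => List.forall_mem_nil _
  | .e11, .e0 => List.forall_mem_nil _
  | .e11, .e1 => List.forall_mem_nil _
  | .e11, .e2 => List.forall_mem_nil _
  | .e11, .e3 => List.forall_mem_nil _
  | .e11, .e4 => List.forall_mem_nil _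
  | .e11, .e5 => List.forall_mem_nil _
  | .e11, .e6 => List.forall_mem_nil _
  | .e11, .e7 => List.forall_mem_nil _
  | .e11, .e8 => List.forall_mem_nil _
  | .e11, .e9 => List.forall_mem_nil _
  | .e11, .e10 => List.forall_mem_nil _
  | .e11, .e11 => tb_11_11 hm
  | .e11, .e12 => tb_11_12 hm
  | .e11, .e13 => List.forall_mem_nil _
  | .e11, .e14 => List.forall_mem_nil _
  | .e11, .e15 => List.forall_mem_nil _
  | .e12, .e0 => List.forall_mem_nil _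
  | .e12, .e1 => List.forall_mem_nil _
  | .e12, .e2 => List.forall_mem_nil _
  | .e12, .e3 => List.forall_mem_nil _
  | .e12, .e4 => List.forall_mem_nil _
  | .e12, .e5 => List.forall_mem_nil _
  | .e12, .e6 => List.forall_mem_nil _
  | .e12, .e7 => List.forall_mem_nil _
  | .e12, .e8 => List.forall_mem_nil _
  | .e12, .e9 => List.forall_mem_nil _
  | .e12, .e10 => List.forall_mem_nil _
  | .e12, .e11 => List.forall_mem_nil _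
  | .e12, .e12 => tb_12_12 hm
  | .e12, .e13 => tb_12_13 hm
  | .e12, .e14 => tb_12_14 hm
  | .e12, .e15 => List.forall_mem_nil _
  | .e13, .e0 => List.forall_mem_nil _
  | .e13, .e1 => List.forall_mem_nil _
  | .e13, .e2 => List.forall_mem_nil _
  | .e13, .e3 => List.forall_mem_nil _
  | .e13, .e4 => List.forall_mem_nil _
  | .e13, .e5 => List.forall_mem_nil _
  | .e13, .e6 => List.forall_mem_nil _
  | .e13, .e7 => List.forall_mem_nil _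
  | .e13, .e8 => List.forall_mem_nil _
  | .e13, .e9 => List.forall_mem_nil _
  | .e13, .e10 => List.forall_mem_nil _
  | .e13, .e11 => List.forall_mem_nil _
  | .e13, .e12 => List.forall_mem_nil _
  | .e13, .e13 => tb_13_13 hm
  | .e13, .e14 => tb_13_14 hm
  | .e13, .e15 => List.forall_mem_nil _
  | .e14, .e0 => List.forall_mem_nil _
  | .e14, .e1 => List.forall_mem_nil _
  | .e14, .e2 => List.forall_mem_nil _
  | .e14, .e3 => List.forall_mem_nil _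
  | .e14, .e4 => List.forall_mem_nil _
  | .e14, .e5 => List.forall_mem_nil _
  | .e14, .e6 => List.forall_mem_nil _
  | .e14, .e7 => List.forall_mem_nil _
  | .e14, .e8 => List.forall_mem_nil _
  | .e14, .e9 => List.forall_mem_nil _
  | .e14, .e10 => List.forall_mem_nil _
  | .e14, .e11 => List.forall_mem_nil _
  | .e14, .e12 => List.forall_mem_nil _
  | .e14, .e13 => List.forall_mem_nil _
  | .e14, .e14 => tb_14_14 hm
  | .e14, .e15 => tb_14_15 hm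
  | .e15, .e0 => List.forall_mem_nil _
  | .e15, .e1 => List.forall_mem_nil _
  | .e15, .e2 => List.forall_mem_nil _
  | .e15, .e3 => List.forall_mem_nil _
  | .e15, .e4 => List.forall_mem_nil _
  | .e15, .e5 => List.forall_mem_nil _
  | .e15, .e6 => List.forall_mem_nil _
  | .e15, .e7 => List.forall_mem_nil _
  | .e15, .e8 => List.forall_mem_nil _
  | .e15, .e9 => List.forall_mem_nil _
  | .e15, .e10 => List.forall_mem_nil _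
  | .e15, .e11 => List.forall_mem_nil _
  | .e15, .e12 => List.forall_mem_nil _
  | .e15, .e13 => List.forall_mem_nil _
  | .e15, .e14 => List.forall_mem_nil _
  | .e15, .e15 => tb_15_15 hm

/-- membership in the table -/
def inT (a b c d : Ed) : Bool := (tb a b).any fun p => (ix p.1 == ix c) && (ix p.2 == ix d)

theorem ix_inj {a b : Ed} (h : ix a = ix b) : a = b := by
  cases a <;> cases b <;> first | rfl | (simp [ix] at h)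

theorem inT_sound {a b c d : Ed} (h : inT a b c d = true) {m : ℝ} (hm : 0 ≤ m) : Q m a b c d := by
  simp only [inT, List.any_eq_true, Bool.and_eq_true, beq_iff_eq] at h
  obtain ⟨p, hp, h1, h2⟩ := h
  have := tb_sound hm a b p hp
  rw [ix_inj h1, ix_inj h2] at this
  exact this

/-- all quadruples are covered -/
def cov (a b c d : Ed) : Bool :=
  code a b c != 0 || (code b c d != 0 || (code c d a != 0 || (code d a b != 0 ||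
    (inT a b c d || (inT b c d a || (inT c d a b || inT d a b c))))))

/-- all quadruples starting with a given edge are covered -/
def covAll (a : Ed) : Bool := edges.all fun b => edges.all fun c => edges.all fun d => cov a b c d

theorem ca0 : covAll .e0 = true := by decide +kernel

theorem ca1 : covAll .e1 = true := by decide +kernel

theorem ca2 : covAll .e2 = true := by decide +kernel

theorem ca3 : covAll .e3 = true := by decide +kernel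

theorem ca4 : covAll .e4 = true := by decide +kernel

theorem ca5 : covAll .e5 = true := by decide +kernel

theorem ca6 : covAll .e6 = true := by decide +kernel

theorem ca7 : covAll .e7 = true := by decide +kernel

theorem ca8 : covAll .e8 = true := by decide +kernel

theorem ca9 : covAll .e9 = true := by decide +kernel

theorem ca10 : covAll .e10 = true := by decide +kernel

theorem ca11 : covAll .e11 = true := by decide +kernel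

theorem ca12 : covAll .e12 = true := by decide +kernel

theorem ca13 : covAll .e13 = true := by decide +kernel

theorem ca14 : covAll .e14 = true := by decide +kernel

theorem ca15 : covAll .e15 = true := by decide +kernel

theorem covAll_eq (u : Ed) : covAll u = true := by
  cases u
  · exact ca0
  · exact ca1
  · exact ca2
  · exact ca3
  · exact ca4
  · exact ca5
  · exact ca6
  · exact ca7
  · exact ca8
  · exact ca9
  · exact ca10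
  · exact ca11
  · exact ca12
  · exact ca13
  · exact ca14
  · exact ca15

theorem allQ {m : ℝ} (hm : 0 ≤ m) (a b c d : Ed) : Q m a b c d := by
  have h := covAll_eq a
  simp only [covAll, List.all_eq_true] at h
  have h' := h b (mem_edges b) c (mem_edges c) d (mem_edges d)
  simp only [cov, Bool.or_eq_true, bne_iff_ne, ne_eq] at h'
  rcases h' with h | h | h | h | h | h | h | h
  · exact tripQ h hm d
  · exact (tripQ h hm a).rot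
  · exact (tripQ h hm b).rot.rot
  · exact (tripQ h hm c).rot.rot.rot
  · exact inT_sound h hm
  · exact (inT_sound h hm).rot
  · exact (inT_sound h hm).rot.rot
  · exact (inT_sound h hm).rot.rot.rot

end Six
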