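import Mathlib

/-!
# Squares inscribed in an explicit family of 16-gons: definitions

`m ≥ 0` is a real parameter, `n = m + 8`.  The 16-gon has the vertices
`(-5, 0)`, `(-3n, -3)`, `(-2n, -2n)`, `(-1, -2n)`, `(0, -7)`, `(1, -2n-6)`, `(5n, -2n-2)`, `(5n+1, -1)`,
`(3, 0)`, `(2n, 1)`, `(2n-1, 2n+2)`, `(3, 2n)`, `(0, 5)`, `(-3, 5n)`, `(-2n, 3n-1)`, `(-2n, 1)`.
`px m e, py m e` is the starting point and `dx m e, dy m e` the direction of the edge `e`.
-/

namespace Six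

/-- names of the sixteen edges -/
inductive Ed
  | e0 | e1 | e2 | e3 | e4 | e5 | e6 | e7 | e8 | e9 | e10 | e11 | e12 | e13 | e14 | e15
  deriving DecidableEq

/-- coordinates of the edges -/
def px (m : ℝ) : Ed → ℝ
  | .e0 => -5
  | .e1 => -3*m - 24
  | .e2 => -2*m - 16
  | .e3 => -1
  | .e4 => 0
  | .e5 => 1
  | .e6 => 5*m + 40
  | .e7 => 5*m + 41
  | .e8 => 3
  | .e9 => 2*m + 16
  | .e10 => 2*m + 15
  | .e11 => 3
  | .e12 => 0
  | .e13 => -3
  | .e14 => -2*m - 16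
  | .e15 => -2*m - 16

/-- coordinates of the edges -/
def py (m : ℝ) : Ed → ℝ
  | .e0 => 0
  | .e1 => -3
  | .e2 => -2*m - 16
  | .e3 => -2*m - 16
  | .e4 => -7
  | .e5 => -2*m - 22
  | .e6 => -2*m - 18
  | .e7 => -1
  | .e8 => 0
  | .e9 => 1
  | .e10 => 2*m + 18
  | .e11 => 2*m + 16
  | .e12 => 5
  | .e13 => 5*m + 40
  | .e14 => 3*m + 23
  | .e15 => 1

/-- coordinates of the edges -/
def dx (m : ℝ) : Ed → ℝ
  | .e0 => -3*m - 19
  | .e1 => m + 8
  | .e2 => 2*m + 15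
  | .e3 => 1
  | .e4 => 1
  | .e5 => 5*m + 39
  | .e6 => 1
  | .e7 => -5*m - 38
  | .e8 => 2*m + 13
  | .e9 => -1
  | .e10 => -2*m - 12
  | .e11 => -3
  | .e12 => -3
  | .e13 => -2*m - 13
  | .e14 => 0
  | .e15 => 2*m + 11

/-- coordinates of the edges -/
def dy (m : ℝ) : Ed → ℝ
  | .e0 => -3
  | .e1 => -2*m - 13
  | .e2 => 0
  | .e3 => 2*m + 9
  | .e4 => -2*m - 15
  | .e5 => 4
  | .e6 => 2*m + 17
  | .e7 => 1
  | .e8 => 1
  | .e9 => 2*m + 17
  | .e10 => -2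
  | .e11 => -2*m - 11
  | .e12 => 5*m + 35
  | .e13 => -2*m - 17
  | .e14 => -3*m - 22
  | .e15 => -1

/-- the denominator in the coordinates of the inscribed square -/
def den (m : ℝ) : ℝ := 45*m^3 + 791*m^2 + 4343*m + 7080

/-- the centre of the inscribed square -/
noncomputable def zx (m : ℝ) : ℝ := -(27*m^2 + 271*m + 544) / den m

/-- the centre of the inscribed square -/
noncomputable def zy (m : ℝ) : ℝ := -(63*m^2 + 937*m + 3490) / den m

/-- half a diagonal of the inscribed square -/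
noncomputable def vx (m : ℝ) : ℝ := -(315*m^3 + 5938*m^2 + 36252*m + 70880) / den m

/-- half a diagonal of the inscribed square -/
noncomputable def vy (m : ℝ) : ℝ := -(27*m^2 + 503*m + 2198) / den m

theorem den_pos {m : ℝ} (hm : 0 ≤ m) : 0 < den m := by
  simp only [den]; positivity

/-- `(x₀, y₀), (x₁, y₁)` coincide or are consecutive vertices of the inscribed square -/
def Sp (m x0 y0 x1 y1 : ℝ) : Prop :=
  (x1 = x0 ∧ y1 = y0) ∨
  (x0 = zx m + vx m ∧ y0 = zy m + vy m ∧ x1 = zx m - vy m ∧ y1 = zy m + vx m) ∨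
  (x0 = zx m - vy m ∧ y0 = zy m + vx m ∧ x1 = zx m - vx m ∧ y1 = zy m - vy m) ∨
  (x0 = zx m - vx m ∧ y0 = zy m - vy m ∧ x1 = zx m + vy m ∧ y1 = zy m - vx m) ∨
  (x0 = zx m + vy m ∧ y0 = zy m - vx m ∧ x1 = zx m + vx m ∧ y1 = zy m + vy m)

/-- every square whose consecutive vertices lie on the edges `i, j, k, l` is degenerate or equal to the
inscribed square described above -/
def Q (m : ℝ) (i j k l : Ed) : Prop :=
  ∀ t0 t1 t2 t3 : ℝ, 0 ≤ t0 → t0 ≤ 1 → 0 ≤ t1 → t1 ≤ 1 → 0 ≤ t2 → t2 ≤ 1 → 0 ≤ t3 → t3 ≤ 1 →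
    (px m i + t0 * dx m i) + (px m k + t2 * dx m k) =
      (px m j + t1 * dx m j) + (px m l + t3 * dx m l) →
    (py m i + t0 * dy m i) + (py m k + t2 * dy m k) =
      (py m j + t1 * dy m j) + (py m l + t3 * dy m l) →
    ((px m l + t3 * dx m l) - (px m i + t0 * dx m i)) +
      ((py m j + t1 * dy m j) - (py m i + t0 * dy m i)) = 0 →
    ((py m l + t3 * dy m l) - (py m i + t0 * dy m i)) -
      ((px m j + t1 * dx m j) - (px m i + t0 * dx m i)) = 0 →
    Sp m (px m i + t0 * dx m i) (py m i + t0 * dy m i) (px m j + t1 * dx m j) (py m j + t1 * dy m j)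

/-- rotating the names of the vertices -/
theorem Q.rot {m : ℝ} {i j k l : Ed} (h : Q m i j k l) : Q m l i j k := by
  intro t0 t1 t2 t3 a0 b0 a1 b1 a2 b2 a3 b3 h1 h2 h3 h4
  rcases h t1 t2 t3 t0 a1 b1 a2 b2 a3 b3 a0 b0 (by linarith) (by linarith)
    (by linarith) (by linarith) with h | h | h | h | h
  · left; constructor <;> linarith [h.1, h.2]
  · obtain ⟨k1, k2, k3, k4⟩ := h
    right; right; right; right
    refine ⟨?_, ?_, ?_, ?_⟩ <;> linarith
  · obtain ⟨k1, k2, k3, k4⟩ := h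
    right; left
    refine ⟨?_, ?_, ?_, ?_⟩ <;> linarith
  · obtain ⟨k1, k2, k3, k4⟩ := h
    right; right; left
    refine ⟨?_, ?_, ?_, ?_⟩ <;> linarith
  · obtain ⟨k1, k2, k3, k4⟩ := h
    right; right; right; left
    refine ⟨?_, ?_, ?_, ?_⟩ <;> linarith

/-- four vertices on the same edge -/
theorem sing {m : ℝ} {i : Ed} (hd : 0 < dx m i ^ 2 + dy m i ^ 2) : Q m i i i i := by
  intro t0 t1 t2 t3 a0 b0 a1 b1 a2 b2 a3 b3 h1 h2 h3 h4
  have h : (dx m i ^ 2 + dy m i ^ 2) * (t1 - t0) = 0 := by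
    linear_combination dy m i * h3 - dx m i * h4
  have ht : t1 = t0 := by
    rcases mul_eq_zero.mp h with h | h
    · exact absurd h hd.ne'
    · linarith
  subst ht
  exact Or.inl ⟨rfl, rfl⟩

end Six
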