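import Pool.Agent.helper91.SX.Level

/-!
# The 16-gon as the unit level set of a star gauge, third part
-/

namespace Six

open Set Hex

theorem pos0 {m : ℝ} (hm : 0 ≤ m) {x y : ℝ} (hx : x ≤ 0) (hy : y ≤ 0) (hz : x ≠ 0 ∨ y ≠ 0) :
    0 < pg m .e0 .e1 .e2 .e3 x y := by
  have h : 0 < lin m .e1 x y := by
    refine div_pos ?_ (ar_pos hm _)
    simp only [dx, dy]
    have hx' : 0 ≤ -x := by linarith
    have hy' : 0 ≤ -y := by linarith
    have hmx : 0 ≤ m * (-x) := mul_nonneg hm hx'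
    have hmy : 0 ≤ m * (-y) := mul_nonneg hm hy'
    rcases hz with hz | hz
    · have : 0 < -x := lt_of_le_of_ne hx' (fun h => hz (by linarith))
      nlinarith
    · have : 0 < -y := lt_of_le_of_ne hy' (fun h => hz (by linarith))
      nlinarith
  exact lt_of_lt_of_le h ((le_max_right _ _).trans (le_max_left _ _))

theorem pos1 {m : ℝ} (hm : 0 ≤ m) {x y : ℝ} (hx : 0 ≤ x) (hy : y ≤ 0) (hz : x ≠ 0 ∨ y ≠ 0) :
    0 < pg m .e4 .e5 .e6 .e7 x y := by
  have h : 0 < lin m .e5 x y := by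
    refine div_pos ?_ (ar_pos hm _)
    simp only [dx, dy]
    have hx' : 0 ≤ x := by linarith
    have hy' : 0 ≤ -y := by linarith
    have hmx : 0 ≤ m * (x) := mul_nonneg hm hx'
    have hmy : 0 ≤ m * (-y) := mul_nonneg hm hy'
    rcases hz with hz | hz
    · have : 0 < x := lt_of_le_of_ne hx' (fun h => hz (by linarith))
      nlinarith
    · have : 0 < -y := lt_of_le_of_ne hy' (fun h => hz (by linarith))
      nlinarith
  exact lt_of_lt_of_le h ((le_max_right _ _).trans (le_max_left _ _))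

theorem pos2 {m : ℝ} (hm : 0 ≤ m) {x y : ℝ} (hx : 0 ≤ x) (hy : 0 ≤ y) (hz : x ≠ 0 ∨ y ≠ 0) :
    0 < pg m .e8 .e9 .e10 .e11 x y := by
  have h : 0 < lin m .e9 x y := by
    refine div_pos ?_ (ar_pos hm _)
    simp only [dx, dy]
    have hx' : 0 ≤ x := by linarith
    have hy' : 0 ≤ y := by linarith
    have hmx : 0 ≤ m * (x) := mul_nonneg hm hx'
    have hmy : 0 ≤ m * (y) := mul_nonneg hm hy'
    rcases hz with hz | hz
    · have : 0 < x := lt_of_le_of_ne hx' (fun h => hz (by linarith))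
      nlinarith
    · have : 0 < y := lt_of_le_of_ne hy' (fun h => hz (by linarith))
      nlinarith
  exact lt_of_lt_of_le h ((le_max_right _ _).trans (le_max_left _ _))

theorem pos3 {m : ℝ} (hm : 0 ≤ m) {x y : ℝ} (hx : x ≤ 0) (hy : 0 ≤ y) (hz : x ≠ 0 ∨ y ≠ 0) :
    0 < pg m .e12 .e13 .e14 .e15 x y := by
  have h : 0 < lin m .e13 x y := by
    refine div_pos ?_ (ar_pos hm _)
    simp only [dx, dy]
    have hx' : 0 ≤ -x := by linarith
    have hy' : 0 ≤ y := by linarith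
    have hmx : 0 ≤ m * (-x) := mul_nonneg hm hx'
    have hmy : 0 ≤ m * (y) := mul_nonneg hm hy'
    rcases hz with hz | hz
    · have : 0 < -x := lt_of_le_of_ne hx' (fun h => hz (by linarith))
      nlinarith
    · have : 0 < y := lt_of_le_of_ne hy' (fun h => hz (by linarith))
      nlinarith
  exact lt_of_lt_of_le h ((le_max_right _ _).trans (le_max_left _ _))

theorem gg_pos {m : ℝ} (hm : 0 ≤ m) (z : ℂ) (hz : z ≠ 0) : 0 < gg m z := by
  have hz' : z.re ≠ 0 ∨ z.im ≠ 0 := by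
    by_contra hcon
    push Not at hcon
    exact hz (Complex.ext hcon.1 hcon.2)
  rcases le_total z.re 0 with hx | hx <;> rcases le_total z.im 0 with hy | hy
  · rw [gg_q0 hm hx hy]; exact pos0 hm hx hy hz'
  · rw [gg_q3 hm hx hy]; exact pos3 hm hx hy hz'
  · rw [gg_q1 hm hx hy]; exact pos1 hm hx hy hz'
  · rw [gg_q2 hm hx hy]; exact pos2 hm hx hy hz'

theorem gg_star {m : ℝ} (hm : 0 ≤ m) : StarGauge (gg m) :=
  ⟨gg_cont m, gg_hom m, gg_pos hm⟩

theorem lev0 {m : ℝ} (hm : 0 ≤ m) {x y : ℝ} (hx : x ≤ 0) (hy : y ≤ 0)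
    (h : pg m .e0 .e1 .e2 .e3 x y = 1) : ∃ e, On m e x y := by
  obtain ⟨⟨⟨h1, h2⟩, h3, h4⟩, h5⟩ := (pg_eq_one hm).mp h
  rcases h5 with h5 | h5 | h5 | h5
  · exact ⟨.e0, on_first hm (by decide +kernel) h5 (by simp only [px, py]; nlinarith) h2⟩
  · exact ⟨.e1, on_mid hm (k := .e0) rfl (by decide +kernel) (by decide +kernel) h5 h1 h3⟩
  · exact ⟨.e2, on_mid hm (k := .e1) rfl (by decide +kernel) (by decide +kernel) h5 h2 h4⟩
  · exact ⟨.e3, on_last hm (k := .e2) rfl (by decide +kernel) h5 h3 (by simp only [px, py, nx]; nlinarith)⟩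

theorem quad0 {m : ℝ} (hm : 0 ≤ m) {e : Ed} (he : pt e = 0) {x y : ℝ} (h : On m e x y) :
    x ≤ 0 ∧ y ≤ 0 := by
  obtain ⟨t, h0, h1, rfl, rfl⟩ := h
  have h2 : 0 ≤ 1 - t := by linarith
  have h3 : 0 ≤ m * t := mul_nonneg hm h0
  have h4 : 0 ≤ m * (1 - t) := mul_nonneg hm h2
  cases e <;> simp only [pt] at he <;> first | (exact absurd he (by decide)) | (simp only [px, py, dx, dy]; constructor <;> nlinarith)

theorem rev0 {m : ℝ} (hm : 0 ≤ m) {e : Ed} (he : pt e = 0) {x y : ℝ} (h : On m e x y) :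
    pg m .e0 .e1 .e2 .e3 x y = 1 := by
  obtain ⟨t, h0, h1, rfl, rfl⟩ := h
  rw [pg_eq_one hm]
  refine ⟨⟨⟨same_seg (by rw [he]; rfl) hm h0 h1, same_seg (by rw [he]; rfl) hm h0 h1⟩,
    same_seg (by rw [he]; rfl) hm h0 h1, same_seg (by rw [he]; rfl) hm h0 h1⟩, ?_⟩
  cases e <;> simp only [pt] at he <;>
    first
    | exact absurd he (by decide)
    | exact Or.inl (F_self m _ t)
    | exact Or.inr (Or.inl (F_self m _ t))
    | exact Or.inr (Or.inr (Or.inl (F_self m _ t)))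
    | exact Or.inr (Or.inr (Or.inr (F_self m _ t)))

theorem lev1 {m : ℝ} (hm : 0 ≤ m) {x y : ℝ} (hx : 0 ≤ x) (hy : y ≤ 0)
    (h : pg m .e4 .e5 .e6 .e7 x y = 1) : ∃ e, On m e x y := by
  obtain ⟨⟨⟨h1, h2⟩, h3, h4⟩, h5⟩ := (pg_eq_one hm).mp h
  rcases h5 with h5 | h5 | h5 | h5
  · exact ⟨.e4, on_first hm (by decide +kernel) h5 (by simp only [px, py]; nlinarith) h2⟩
  · exact ⟨.e5, on_mid hm (k := .e4) rfl (by decide +kernel) (by decide +kernel) h5 h1 h3⟩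
  · exact ⟨.e6, on_mid hm (k := .e5) rfl (by decide +kernel) (by decide +kernel) h5 h2 h4⟩
  · exact ⟨.e7, on_last hm (k := .e6) rfl (by decide +kernel) h5 h3 (by simp only [px, py, nx]; nlinarith)⟩

theorem quad1 {m : ℝ} (hm : 0 ≤ m) {e : Ed} (he : pt e = 1) {x y : ℝ} (h : On m e x y) :
    0 ≤ x ∧ y ≤ 0 := by
  obtain ⟨t, h0, h1, rfl, rfl⟩ := h
  have h2 : 0 ≤ 1 - t := by linarith
  have h3 : 0 ≤ m * t := mul_nonneg hm h0
  have h4 : 0 ≤ m * (1 - t) := mul_nonneg hm h2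
  cases e <;> simp only [pt] at he <;> first | (exact absurd he (by decide)) | (simp only [px, py, dx, dy]; constructor <;> nlinarith)

theorem rev1 {m : ℝ} (hm : 0 ≤ m) {e : Ed} (he : pt e = 1) {x y : ℝ} (h : On m e x y) :
    pg m .e4 .e5 .e6 .e7 x y = 1 := by
  obtain ⟨t, h0, h1, rfl, rfl⟩ := h
  rw [pg_eq_one hm]
  refine ⟨⟨⟨same_seg (by rw [he]; rfl) hm h0 h1, same_seg (by rw [he]; rfl) hm h0 h1⟩,
    same_seg (by rw [he]; rfl) hm h0 h1, same_seg (by rw [he]; rfl) hm h0 h1⟩, ?_⟩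
  cases e <;> simp only [pt] at he <;>
    first
    | exact absurd he (by decide)
    | exact Or.inl (F_self m _ t)
    | exact Or.inr (Or.inl (F_self m _ t))
    | exact Or.inr (Or.inr (Or.inl (F_self m _ t)))
    | exact Or.inr (Or.inr (Or.inr (F_self m _ t)))

theorem lev2 {m : ℝ} (hm : 0 ≤ m) {x y : ℝ} (hx : 0 ≤ x) (hy : 0 ≤ y)
    (h : pg m .e8 .e9 .e10 .e11 x y = 1) : ∃ e, On m e x y := by
  obtain ⟨⟨⟨h1, h2⟩, h3, h4⟩, h5⟩ := (pg_eq_one hm).mp h
  rcases h5 with h5 | h5 | h5 | h5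
  · exact ⟨.e8, on_first hm (by decide +kernel) h5 (by simp only [px, py]; nlinarith) h2⟩
  · exact ⟨.e9, on_mid hm (k := .e8) rfl (by decide +kernel) (by decide +kernel) h5 h1 h3⟩
  · exact ⟨.e10, on_mid hm (k := .e9) rfl (by decide +kernel) (by decide +kernel) h5 h2 h4⟩
  · exact ⟨.e11, on_last hm (k := .e10) rfl (by decide +kernel) h5 h3 (by simp only [px, py, nx]; nlinarith)⟩

theorem quad2 {m : ℝ} (hm : 0 ≤ m) {e : Ed} (he : pt e = 2) {x y : ℝ} (h : On m e x y) :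
    0 ≤ x ∧ 0 ≤ y := by
  obtain ⟨t, h0, h1, rfl, rfl⟩ := h
  have h2 : 0 ≤ 1 - t := by linarith
  have h3 : 0 ≤ m * t := mul_nonneg hm h0
  have h4 : 0 ≤ m * (1 - t) := mul_nonneg hm h2
  cases e <;> simp only [pt] at he <;> first | (exact absurd he (by decide)) | (simp only [px, py, dx, dy]; constructor <;> nlinarith)

theorem rev2 {m : ℝ} (hm : 0 ≤ m) {e : Ed} (he : pt e = 2) {x y : ℝ} (h : On m e x y) :
    pg m .e8 .e9 .e10 .e11 x y = 1 := by
  obtain ⟨t, h0, h1, rfl, rfl⟩ := h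
  rw [pg_eq_one hm]
  refine ⟨⟨⟨same_seg (by rw [he]; rfl) hm h0 h1, same_seg (by rw [he]; rfl) hm h0 h1⟩,
    same_seg (by rw [he]; rfl) hm h0 h1, same_seg (by rw [he]; rfl) hm h0 h1⟩, ?_⟩
  cases e <;> simp only [pt] at he <;>
    first
    | exact absurd he (by decide)
    | exact Or.inl (F_self m _ t)
    | exact Or.inr (Or.inl (F_self m _ t))
    | exact Or.inr (Or.inr (Or.inl (F_self m _ t)))
    | exact Or.inr (Or.inr (Or.inr (F_self m _ t)))

theorem lev3 {m : ℝ} (hm : 0 ≤ m) {x y : ℝ} (hx : x ≤ 0) (hy : 0 ≤ y)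
    (h : pg m .e12 .e13 .e14 .e15 x y = 1) : ∃ e, On m e x y := by
  obtain ⟨⟨⟨h1, h2⟩, h3, h4⟩, h5⟩ := (pg_eq_one hm).mp h
  rcases h5 with h5 | h5 | h5 | h5
  · exact ⟨.e12, on_first hm (by decide +kernel) h5 (by simp only [px, py]; nlinarith) h2⟩
  · exact ⟨.e13, on_mid hm (k := .e12) rfl (by decide +kernel) (by decide +kernel) h5 h1 h3⟩
  · exact ⟨.e14, on_mid hm (k := .e13) rfl (by decide +kernel) (by decide +kernel) h5 h2 h4⟩
  · exact ⟨.e15, on_last hm (k := .e14) rfl (by decide +kernel) h5 h3 (by simp only [px, py, nx]; nlinarith)⟩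

theorem quad3 {m : ℝ} (hm : 0 ≤ m) {e : Ed} (he : pt e = 3) {x y : ℝ} (h : On m e x y) :
    x ≤ 0 ∧ 0 ≤ y := by
  obtain ⟨t, h0, h1, rfl, rfl⟩ := h
  have h2 : 0 ≤ 1 - t := by linarith
  have h3 : 0 ≤ m * t := mul_nonneg hm h0
  have h4 : 0 ≤ m * (1 - t) := mul_nonneg hm h2
  cases e <;> simp only [pt] at he <;> first | (exact absurd he (by decide)) | (simp only [px, py, dx, dy]; constructor <;> nlinarith)

theorem rev3 {m : ℝ} (hm : 0 ≤ m) {e : Ed} (he : pt e = 3) {x y : ℝ} (h : On m e x y) :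
    pg m .e12 .e13 .e14 .e15 x y = 1 := by
  obtain ⟨t, h0, h1, rfl, rfl⟩ := h
  rw [pg_eq_one hm]
  refine ⟨⟨⟨same_seg (by rw [he]; rfl) hm h0 h1, same_seg (by rw [he]; rfl) hm h0 h1⟩,
    same_seg (by rw [he]; rfl) hm h0 h1, same_seg (by rw [he]; rfl) hm h0 h1⟩, ?_⟩
  cases e <;> simp only [pt] at he <;>
    first
    | exact absurd he (by decide)
    | exact Or.inl (F_self m _ t)
    | exact Or.inr (Or.inl (F_self m _ t))
    | exact Or.inr (Or.inr (Or.inl (F_self m _ t)))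
    | exact Or.inr (Or.inr (Or.inr (F_self m _ t)))

theorem pt_cases (e : Ed) : pt e = 0 ∨ pt e = 1 ∨ pt e = 2 ∨ pt e = 3 := by
  cases e <;> simp [pt]

theorem gg_eq_one {m : ℝ} (hm : 0 ≤ m) (z : ℂ) : gg m z = 1 ↔ ∃ e, On m e z.re z.im := by
  constructor
  · intro h
    rcases le_total z.re 0 with hx | hx <;> rcases le_total z.im 0 with hy | hy
    · rw [gg_q0 hm hx hy] at h; exact lev0 hm hx hy h
    · rw [gg_q3 hm hx hy] at h; exact lev3 hm hx hy h
    · rw [gg_q1 hm hx hy] at h; exact lev1 hm hx hy h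
    · rw [gg_q2 hm hx hy] at h; exact lev2 hm hx hy h
  · rintro ⟨e, h⟩
    rcases pt_cases e with he | he | he | he
    · obtain ⟨hx, hy⟩ := quad0 hm he h
      rw [gg_q0 hm hx hy]; exact rev0 hm he h
    · obtain ⟨hx, hy⟩ := quad1 hm he h
      rw [gg_q1 hm hx hy]; exact rev1 hm he h
    · obtain ⟨hx, hy⟩ := quad2 hm he h
      rw [gg_q2 hm hx hy]; exact rev2 hm he h
    · obtain ⟨hx, hy⟩ := quad3 hm he h
      rw [gg_q3 hm hx hy]; exact rev3 hm he h

theorem cross_bound {a d e u v r : ℝ} (ha : 0 < a) (h : (d ^ 2 + e ^ 2) * r ^ 2 < a ^ 2)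
    (huv : u ^ 2 + v ^ 2 ≤ r ^ 2) : 0 < a + (d * v - e * u) := by
  have h1 : (d * v - e * u) ^ 2 ≤ (d ^ 2 + e ^ 2) * r ^ 2 := by
    have h2 : (d * v - e * u) ^ 2 ≤ (d ^ 2 + e ^ 2) * (u ^ 2 + v ^ 2) := by
      nlinarith [sq_nonneg (d * u + e * v)]
    exact h2.trans (mul_le_mul_of_nonneg_left huv (by positivity))
  have h3 : |d * v - e * u| < a := abs_lt_of_sq_lt_sq (h1.trans_lt h) ha.le
  linarith [(abs_lt.mp h3).1]

/-- a disc of radius `m + 8` inside the 16-gon -/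
theorem disc_lt {m : ℝ} (hm : 0 ≤ m) {z : ℂ}
    (hz : z ∈ Metric.closedBall (⟨2 * (m + 8), -(m + 10)⟩ : ℂ) (m + 8)) : gg m z < 1 := by
  rw [mem_closedBall_iff_norm] at hz
  have h2 : (z.re - 2 * (m + 8)) ^ 2 + (z.im + (m + 10)) ^ 2 ≤ (m + 8) ^ 2 := by
    have h3 := pow_le_pow_left₀ (norm_nonneg _) hz 2
    rw [← Complex.normSq_eq_norm_sq, Complex.normSq_apply] at h3
    simp only [Complex.sub_re, Complex.sub_im] at h3
    nlinarith
  have hx0 : 0 ≤ z.re := by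
    by_contra hcon
    push Not at hcon
    have : (m + 8) ^ 2 < (z.re - 2 * (m + 8)) ^ 2 := by nlinarith
    nlinarith [sq_nonneg (z.im + (m + 10))]
  have hy0 : z.im ≤ 0 := by
    by_contra hcon
    push Not at hcon
    have : (m + 8) ^ 2 < (z.im + (m + 10)) ^ 2 := by nlinarith
    nlinarith [sq_nonneg (z.re - 2 * (m + 8))]
  rw [gg_q1 hm hx0 hy0, pg_lt_one hm]
  have key : ∀ (j : Ed) (a : ℝ), 0 < a → (dx m j ^ 2 + dy m j ^ 2) * (m + 8) ^ 2 < a ^ 2 →
      F m j (2 * (m + 8)) (-(m + 10)) = a → 0 < F m j z.re z.im := by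
    intro j a ha h he
    have h3 := cross_bound ha h h2
    refine lt_of_lt_of_eq h3 ?_
    rw [← he]
    simp only [F]
    ring
  refine ⟨⟨?_, ?_⟩, ?_, ?_⟩
  · refine key .e4 (4 * (m + 8) ^ 2 - 3 * (m + 8) + 5) (by nlinarith) ?_ ?_
    · simp only [dx, dy]; rw [← sub_pos]; ring_nf; positivity
    · simp only [F, px, py, dx, dy]; ring
  · refine key .e5 (5 * (m + 8) ^ 2 + 11 * (m + 8)) (by positivity) ?_ ?_
    · simp only [dx, dy]; rw [← sub_pos]; ring_nf; positivity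
    · simp only [F, px, py, dx, dy]; ring
  · refine key .e6 (6 * (m + 8) ^ 2 + 4 * (m + 8)) (by positivity) ?_ ?_
    · simp only [dx, dy]; rw [← sub_pos]; ring_nf; positivity
    · simp only [F, px, py, dx, dy]; ring
  · refine key .e7 (5 * (m + 8) ^ 2 + 6 * (m + 8) - 1) (by nlinarith) ?_ ?_
    · simp only [dx, dy]; rw [← sub_pos]; ring_nf; positivity
    · simp only [F, px, py, dx, dy]; ring

end Six
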