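import Pool.Agent.helper91.SX.All
import Pool.Agent.helper91.SX.Level2

/-!
# 16-gons of bounded size around the unit disc with a single, small inscribed square
-/

namespace Six

open Set Metric Complex Hex

/-- the centre of the inscribed square -/
noncomputable def Zc (m : ℝ) : ℂ := ⟨zx m, zy m⟩

/-- half a diagonal of the inscribed square -/
noncomputable def Vc (m : ℝ) : ℂ := ⟨vx m, vy m⟩

theorem square_cases {m : ℝ} (hm : 0 ≤ m) {z v : ℂ} (h0 : gg m (z + v) = 1)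
    (h1 : gg m (z + I * v) = 1) (h2 : gg m (z - v) = 1) (h3 : gg m (z - I * v) = 1) :
    v = 0 ∨ (z = Zc m ∧ (v = Vc m ∨ v = I * Vc m ∨ v = -Vc m ∨ v = -(I * Vc m))) := by
  obtain ⟨i, t0, a0, b0, x0, y0⟩ := (gg_eq_one hm _).mp h0
  obtain ⟨j, t1, a1, b1, x1, y1⟩ := (gg_eq_one hm _).mp h1
  obtain ⟨k, t2, a2, b2, x2, y2⟩ := (gg_eq_one hm _).mp h2
  obtain ⟨l, t3, a3, b3, x3, y3⟩ := (gg_eq_one hm _).mp h3
  simp only [add_re, add_im, sub_re, sub_im, mul_re, mul_im, I_re, I_im, zero_mul, one_mul,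
    zero_sub, zero_add] at x0 x1 x2 x3 y0 y1 y2 y3
  have H := allQ hm i j k l t0 t1 t2 t3 a0 b0 a1 b1 a2 b2 a3 b3
    (by rw [← x0, ← x1, ← x2, ← x3]; ring) (by rw [← y0, ← y1, ← y2, ← y3]; ring)
    (by rw [← x0, ← x3, ← y0, ← y1]; ring) (by rw [← x0, ← x1, ← y0, ← y3]; ring)
  rw [← x0, ← x1, ← y0, ← y1] at H
  rcases H with ⟨k1, k2⟩ | ⟨k1, k2, k3, k4⟩ | ⟨k1, k2, k3, k4⟩ | ⟨k1, k2, k3, k4⟩ | ⟨k1, k2, k3, k4⟩
  · left
    apply Complex.ext
    · show v.re = 0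
      linarith
    · show v.im = 0
      linarith
  · right
    refine ⟨Complex.ext ?_ ?_, Or.inl (Complex.ext ?_ ?_)⟩
    · show z.re = zx m
      linarith
    · show z.im = zy m
      linarith
    · show v.re = vx m
      linarith
    · show v.im = vy m
      linarith
  · right
    refine ⟨Complex.ext ?_ ?_, Or.inr (Or.inl (Complex.ext ?_ ?_))⟩
    · show z.re = zx m
      linarith
    · show z.im = zy m
      linarith
    · simp only [Vc, mul_re, I_re, I_im, zero_mul, one_mul, zero_sub]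
      linarith
    · simp only [Vc, mul_im, I_re, I_im, zero_mul, one_mul, zero_add]
      linarith
  · right
    refine ⟨Complex.ext ?_ ?_, Or.inr (Or.inr (Or.inl (Complex.ext ?_ ?_)))⟩
    · show z.re = zx m
      linarith
    · show z.im = zy m
      linarith
    · simp only [Vc, neg_re]
      linarith
    · simp only [Vc, neg_im]
      linarith
  · right
    refine ⟨Complex.ext ?_ ?_, Or.inr (Or.inr (Or.inr (Complex.ext ?_ ?_)))⟩
    · show z.re = zx m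
      linarith
    · show z.im = zy m
      linarith
    · simp only [Vc, neg_re, mul_re, I_re, I_im, zero_mul, one_mul, zero_sub]
      linarith
    · simp only [Vc, neg_im, mul_im, I_re, I_im, zero_mul, one_mul, zero_add]
      linarith

theorem on_div {m : ℝ} (hm : 0 ≤ m) (e : Ed) (p : ℝ) (h0 : 0 ≤ p) (h1 : p ≤ den m) {x y : ℝ}
    (hx : x * den m = px m e * den m + p * dx m e) (hy : y * den m = py m e * den m + p * dy m e) :
    On m e x y := by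
  have hD := den_pos hm
  refine ⟨p / den m, div_nonneg h0 hD.le, (div_le_one hD).mpr h1, ?_, ?_⟩
  · rw [div_mul_eq_mul_div, ← mul_left_inj' hD.ne', add_mul, div_mul_cancel₀ _ hD.ne']
    exact hx
  · rw [div_mul_eq_mul_div, ← mul_left_inj' hD.ne', add_mul, div_mul_cancel₀ _ hD.ne']
    exact hy

theorem zx_den {m : ℝ} (hm : 0 ≤ m) : zx m * den m = -(27*m^2 + 271*m + 544) :=
  div_mul_cancel₀ _ (den_pos hm).ne'

theorem zy_den {m : ℝ} (hm : 0 ≤ m) : zy m * den m = -(63*m^2 + 937*m + 3490) :=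
  div_mul_cancel₀ _ (den_pos hm).ne'

theorem vx_den {m : ℝ} (hm : 0 ≤ m) : vx m * den m = -(315*m^3 + 5938*m^2 + 36252*m + 70880) :=
  div_mul_cancel₀ _ (den_pos hm).ne'

theorem vy_den {m : ℝ} (hm : 0 ≤ m) : vy m * den m = -(27*m^2 + 503*m + 2198) :=
  div_mul_cancel₀ _ (den_pos hm).ne'

theorem mem0 {m : ℝ} (hm : 0 ≤ m) : gg m (Zc m + Vc m) = 1 := by
  rw [gg_eq_one hm]
  refine ⟨.e0, on_div hm .e0 (30*m^2 + 480*m + 1896) (by positivity) ?_ ?_ ?_⟩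
  · simp only [den]; rw [← sub_nonneg]; ring_nf; positivity
  · simp only [Zc, Vc, add_re, add_mul, zx_den hm, vx_den hm]
    simp only [px, dx, den]; ring
  · simp only [Zc, Vc, add_im, add_mul, zy_den hm, vy_den hm]
    simp only [py, dy, den]; ring

theorem mem1 {m : ℝ} (hm : 0 ≤ m) : gg m (Zc m + I * Vc m) = 1 := by
  rw [gg_eq_one hm]
  refine ⟨.e4, on_div hm .e4 (232*m + 1654) (by positivity) ?_ ?_ ?_⟩
  · simp only [den]; rw [← sub_nonneg]; ring_nf; positivity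
  · simp only [Zc, Vc, add_re, mul_re, I_re, I_im, zero_mul, one_mul, zero_sub, add_mul, neg_mul,
      zx_den hm, vy_den hm]
    simp only [px, dx, den]; ring
  · simp only [Zc, Vc, add_im, mul_im, I_re, I_im, zero_mul, one_mul, zero_add, add_mul,
      zy_den hm, vx_den hm]
    simp only [py, dy, den]; ring

theorem mem2 {m : ℝ} (hm : 0 ≤ m) : gg m (Zc m - Vc m) = 1 := by
  rw [gg_eq_one hm]
  refine ⟨.e7, on_div hm .e7 (45*m^3 + 755*m^2 + 3909*m + 5788) (by positivity) ?_ ?_ ?_⟩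
  · simp only [den]; rw [← sub_nonneg]; ring_nf; positivity
  · simp only [Zc, Vc, sub_re, sub_mul, zx_den hm, vx_den hm]
    simp only [px, dx, den]; ring
  · simp only [Zc, Vc, sub_im, sub_mul, zy_den hm, vy_den hm]
    simp only [py, dy, den]; ring

theorem mem3 {m : ℝ} (hm : 0 ≤ m) : gg m (Zc m - I * Vc m) = 1 := by
  rw [gg_eq_one hm]
  refine ⟨.e12, on_div hm .e12 (18*m^2 + 258*m + 914) (by positivity) ?_ ?_ ?_⟩
  · simp only [den]; rw [← sub_nonneg]; ring_nf; positivity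
  · simp only [Zc, Vc, sub_re, mul_re, I_re, I_im, zero_mul, one_mul, zero_sub, sub_mul, neg_mul,
      zx_den hm, vy_den hm]
    simp only [px, dx, den]; ring
  · simp only [Zc, Vc, sub_im, mul_im, I_re, I_im, zero_mul, one_mul, zero_add, sub_mul,
      zy_den hm, vx_den hm]
    simp only [py, dy, den]; ring

theorem Vc_ne {m : ℝ} (hm : 0 ≤ m) : Vc m ≠ 0 := by
  intro h
  have h1 : vx m = 0 := congrArg Complex.re h
  have h2 := vx_den hm
  rw [h1, zero_mul] at h2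
  have : 0 < 315*m^3 + 5938*m^2 + 36252*m + 70880 := by positivity
  linarith

theorem Vc_norm {m : ℝ} (hm : 0 ≤ m) : ‖Vc m‖ ≤ 11 := by
  have hD := den_pos hm
  have h1 : ‖Vc m‖ ^ 2 ≤ 11 ^ 2 := by
    rw [← Complex.normSq_eq_norm_sq, Complex.normSq_apply]
    show vx m * vx m + vy m * vy m ≤ 11 ^ 2
    have h2 : (vx m * vx m + vy m * vy m) * (den m) ^ 2 ≤ 11 ^ 2 * (den m) ^ 2 := by
      have e : (vx m * vx m + vy m * vy m) * (den m) ^ 2 =
          (vx m * den m) ^ 2 + (vy m * den m) ^ 2 := by ring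
      rw [e, vx_den hm, vy_den hm]
      simp only [den]
      rw [← sub_nonneg]
      ring_nf
      positivity
    exact le_of_mul_le_mul_right h2 (by positivity)
  exact (sq_le_sq₀ (norm_nonneg _) (by norm_num)).mp h1

/-- rescaling a star gauge -/
theorem star_scale {g : ℂ → ℝ} (h : StarGauge g) {κ : ℝ} (hκ : 0 < κ) :
    StarGauge fun z => g z / κ := by
  refine ⟨h.cont.div_const κ, fun r z hr => ?_, fun z hz => div_pos (h.pos z hz) hκ⟩
  simp only [h.hom r z hr]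
  ring

theorem gg_scale {m κ : ℝ} (hm : 0 ≤ m) (hκ : 0 < κ) (z : ℂ) :
    gg m z / κ = gg m (((κ⁻¹ : ℝ) : ℂ) * z) := by
  rw [(gg_star hm).hom _ _ (inv_nonneg.mpr hκ.le)]
  field_simp

/-- the edges in cyclic order -/
def ed : Fin 16 → Ed :=
  ![.e0, .e1, .e2, .e3, .e4, .e5, .e6, .e7, .e8, .e9, .e10, .e11, .e12, .e13, .e14, .e15]

/-- the vertices of the rescaled 16-gon -/
noncomputable def vert (m κ : ℝ) (i : Fin 16) : ℂ := (κ : ℂ) * ⟨px m (ed i), py m (ed i)⟩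

theorem ed_next (i : Fin 16) : ed (i + 1) = nx (ed i) := by
  fin_cases i <;> rfl

theorem ed_surj (e : Ed) : ∃ i : Fin 16, ed i = e := by
  cases e
  · exact ⟨0, rfl⟩
  · exact ⟨1, rfl⟩
  · exact ⟨2, rfl⟩
  · exact ⟨3, rfl⟩
  · exact ⟨4, rfl⟩
  · exact ⟨5, rfl⟩
  · exact ⟨6, rfl⟩
  · exact ⟨7, rfl⟩
  · exact ⟨8, rfl⟩
  · exact ⟨9, rfl⟩
  · exact ⟨10, rfl⟩
  · exact ⟨11, rfl⟩
  · exact ⟨12, rfl⟩
  · exact ⟨13, rfl⟩
  · exact ⟨14, rfl⟩
  · exact ⟨15, rfl⟩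

theorem vert_next (m κ : ℝ) (i : Fin 16) :
    vert m κ (i + 1) - vert m κ i = (κ : ℂ) * ⟨dx m (ed i), dy m (ed i)⟩ := by
  rw [vert, vert, ed_next, ← mul_sub]
  congr 1
  apply Complex.ext
  · simp only [sub_re, dx_eq]
  · simp only [sub_im, dy_eq]

theorem level_eq {m κ : ℝ} (hm : 0 ≤ m) (hκ : 0 < κ) :
    {z | gg m z / κ = 1} = ⋃ i : Fin 16, segment ℝ (vert m κ i) (vert m κ (i + 1)) := by
  have hκ' : (κ : ℂ) ≠ 0 := by exact_mod_cast hκ.ne'
  ext z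
  simp only [mem_ofPred_eq, mem_iUnion, segment_eq_image', mem_image, mem_Icc]
  rw [gg_scale hm hκ, gg_eq_one hm]
  have key : ∀ (i : Fin 16) (t : ℝ), vert m κ i + t • (vert m κ (i + 1) - vert m κ i) =
      (κ : ℂ) * ⟨px m (ed i) + t * dx m (ed i), py m (ed i) + t * dy m (ed i)⟩ := by
    intro i t
    rw [vert_next]
    apply Complex.ext
    · simp only [vert, add_re, mul_re, ofReal_re, ofReal_im, smul_re,
        smul_eq_mul, zero_mul, sub_zero]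
      ring
    · simp only [vert, add_im, ofReal_re, ofReal_im, smul_im,
        smul_eq_mul, zero_mul, mul_im, add_zero]
      ring
  constructor
  · rintro ⟨e, t, h0, h1, hx, hy⟩
    obtain ⟨i, rfl⟩ := ed_surj e
    refine ⟨i, t, ⟨h0, h1⟩, ?_⟩
    rw [key]
    have : (⟨px m (ed i) + t * dx m (ed i), py m (ed i) + t * dy m (ed i)⟩ : ℂ) =
        ((κ⁻¹ : ℝ) : ℂ) * z := by
      apply Complex.ext
      · exact hx.symm
      · exact hy.symm
    rw [this, ← mul_assoc]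
    push_cast
    rw [mul_inv_cancel₀ hκ', one_mul]
  · rintro ⟨i, t, ⟨h0, h1⟩, hz⟩
    rw [key] at hz
    have : ((κ⁻¹ : ℝ) : ℂ) * z =
        ⟨px m (ed i) + t * dx m (ed i), py m (ed i) + t * dy m (ed i)⟩ := by
      rw [← hz, ← mul_assoc]
      push_cast
      rw [inv_mul_cancel₀ hκ', one_mul]
    refine ⟨ed i, t, h0, h1, ?_, ?_⟩
    · rw [this]
    · rw [this]

theorem vert_norm {m : ℝ} (hm : 0 ≤ m) (i : Fin 16) : ‖vert m (m + 8)⁻¹ i‖ ≤ 11 / 2 := by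
  have hn : 0 < m + 8 := by linarith
  rw [vert, norm_mul, Complex.norm_real, Real.norm_of_nonneg (inv_nonneg.mpr hn.le),
    inv_mul_le_iff₀ hn]
  have h1 : ‖(⟨px m (ed i), py m (ed i)⟩ : ℂ)‖ ^ 2 ≤ ((m + 8) * (11 / 2)) ^ 2 := by
    rw [← Complex.normSq_eq_norm_sq, Complex.normSq_apply]
    show px m (ed i) * px m (ed i) + py m (ed i) * py m (ed i) ≤ ((m + 8) * (11 / 2)) ^ 2
    generalize ed i = e
    cases e <;> simp only [px, py] <;> rw [← sub_nonneg] <;> ring_nf <;> positivity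
  exact (sq_le_sq₀ (norm_nonneg _) (by positivity)).mp h1

theorem norm_le_abs (x y : ℝ) : ‖(⟨x, y⟩ : ℂ)‖ ≤ |x| + |y| := by
  simpa using Complex.norm_le_abs_re_add_abs_im (⟨x, y⟩ : ℂ)

/-- twice an upper bound for the length of an edge -/
def len (m : ℝ) : Ed → ℝ
  | .e0 => 3 * (m + 8) - 2
  | .e1 => 3 * (m + 8) - 3
  | .e2 => 2 * (m + 8) - 1
  | .e3 => 2 * (m + 8) - 6
  | .e4 => 2 * (m + 8)
  | .e5 => 5 * (m + 8) + 3
  | .e6 => 2 * (m + 8) + 2
  | .e7 => 5 * (m + 8) - 1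
  | .e8 => 2 * (m + 8) - 2
  | .e9 => 2 * (m + 8) + 2
  | .e10 => 2 * (m + 8) - 2
  | .e11 => 2 * (m + 8) - 2
  | .e12 => 5 * (m + 8) - 2
  | .e13 => 4 * (m + 8) - 2
  | .e14 => 3 * (m + 8) - 2
  | .e15 => 2 * (m + 8) - 4

theorem abs_add_abs_le {x y c : ℝ} (h1 : x + y ≤ c) (h2 : x - y ≤ c) (h3 : -x + y ≤ c)
    (h4 : -x - y ≤ c) : |x| + |y| ≤ c := by
  rcases abs_cases x with ⟨h, _⟩ | ⟨h, _⟩ <;> rcases abs_cases y with ⟨h', _⟩ | ⟨h', _⟩ <;>
    rw [h, h'] <;> linarith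

theorem edge_len {m : ℝ} (hm : 0 ≤ m) (e : Ed) : ‖(⟨dx m e, dy m e⟩ : ℂ)‖ ≤ len m e := by
  refine (norm_le_abs _ _).trans ?_
  cases e <;> simp only [dx, dy, len] <;> apply abs_add_abs_le <;> linarith

theorem perimeter {m : ℝ} (hm : 0 ≤ m) :
    ∑ i : Fin 16, ‖vert m (m + 8)⁻¹ (i + 1) - vert m (m + 8)⁻¹ i‖ ≤ 46 := by
  have hn : 0 < m + 8 := by linarith
  have h1 : ∀ i : Fin 16, ‖vert m (m + 8)⁻¹ (i + 1) - vert m (m + 8)⁻¹ i‖ ≤
      (m + 8)⁻¹ * len m (ed i) := by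
    intro i
    rw [vert_next, norm_mul, Complex.norm_real, Real.norm_of_nonneg (inv_nonneg.mpr hn.le)]
    exact mul_le_mul_of_nonneg_left (edge_len hm _) (inv_nonneg.mpr hn.le)
  refine (Finset.sum_le_sum fun i _ => h1 i).trans ?_
  rw [← Finset.mul_sum, inv_mul_le_iff₀ hn]
  have h2 : ∑ i : Fin 16, len m (ed i) = 46 * (m + 8) - 22 := by
    simp only [Fin.sum_univ_succ, Fin.sum_univ_zero, ed]
    simp [len]
    ring
  rw [h2]
  linarith

theorem main {ε : ℝ} (hε : 0 < ε) : ∃ P : Fin 16 → ℂ, ∃ K : Set ℂ,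
    K = (⋃ i : Fin 16, segment ℝ (P i) (P (i + 1))) ∧
    (∃ γ : Circle → ℂ, Continuous γ ∧ Function.Injective γ ∧ Set.range γ = K) ∧
    IsCompact K ∧ IsConnected K ∧ ¬ IsConnected Kᶜ ∧
    K ⊆ Metric.closedBall 0 (11 / 2) ∧ ∑ i : Fin 16, ‖P (i + 1) - P i‖ ≤ 46 ∧
    (∃ c : ℂ, Metric.closedBall c 1 ⊆ connectedComponentIn Kᶜ c ∧
      Bornology.IsBounded (connectedComponentIn Kᶜ c)) ∧
    (∃ z₀ v₀ : ℂ, v₀ ≠ 0 ∧ ‖v₀‖ < ε ∧
      z₀ + v₀ ∈ K ∧ z₀ + Complex.I * v₀ ∈ K ∧ z₀ - v₀ ∈ K ∧ z₀ - Complex.I * v₀ ∈ K ∧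
      ∀ z v : ℂ, v ≠ 0 → z + v ∈ K → z + Complex.I * v ∈ K → z - v ∈ K → z - Complex.I * v ∈ K →
        z = z₀ ∧ (v = v₀ ∨ v = Complex.I * v₀ ∨ v = -v₀ ∨ v = -(Complex.I * v₀))) := by
  set m : ℝ := 11 / ε with hmdef
  have hm : 0 ≤ m := by positivity
  have hn : 0 < m + 8 := by linarith
  set κ : ℝ := (m + 8)⁻¹ with hκdef
  have hκ : 0 < κ := inv_pos.mpr hn
  have hκi : κ⁻¹ = m + 8 := inv_inv _
  have hκ' : (κ : ℂ) ≠ 0 := by exact_mod_cast hκ.ne'
  have hS := star_scale (gg_star hm) hκ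
  have hdisc : ∀ z ∈ closedBall ((κ : ℂ) * (⟨2 * (m + 8), -(m + 10)⟩ : ℂ)) 1, gg m z / κ < 1 := by
    intro z hz
    rw [gg_scale hm hκ]
    apply disc_lt hm
    rw [mem_closedBall_iff_norm] at hz ⊢
    have e : ((κ⁻¹ : ℝ) : ℂ) * z - (⟨2 * (m + 8), -(m + 10)⟩ : ℂ) =
        ((κ⁻¹ : ℝ) : ℂ) * (z - (κ : ℂ) * (⟨2 * (m + 8), -(m + 10)⟩ : ℂ)) := by
      rw [mul_sub, ← mul_assoc]
      push_cast
      rw [inv_mul_cancel₀ hκ', one_mul]
    rw [e, norm_mul, Complex.norm_real, Real.norm_of_nonneg (inv_nonneg.mpr hκ.le), hκi]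
    calc (m + 8) * ‖z - (κ : ℂ) * (⟨2 * (m + 8), -(m + 10)⟩ : ℂ)‖
        ≤ (m + 8) * 1 := mul_le_mul_of_nonneg_left hz hn.le
      _ = m + 8 := mul_one _
  obtain ⟨hj, hc, hcon, hcc, hb, hbd⟩ := hS.facts zero_le_one hdisc
  have hmem : ∀ w : ℂ, gg m w = 1 → (κ : ℂ) * w ∈ {z | gg m z / κ = 1} := by
    intro w hw
    simp only [mem_ofPred_eq]
    rw [gg_scale hm hκ, ← mul_assoc]
    push_cast
    rw [inv_mul_cancel₀ hκ', one_mul]
    exact hw
  refine ⟨vert m κ, {z | gg m z / κ = 1}, level_eq hm hκ, hj, hc, hcon, hcc, ?_, perimeter hm,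
    ⟨_, hb, hbd⟩, (κ : ℂ) * Zc m, (κ : ℂ) * Vc m, mul_ne_zero hκ' (Vc_ne hm), ?_, ?_, ?_, ?_, ?_, ?_⟩
  · rw [level_eq hm hκ]
    refine iUnion_subset fun i => ?_
    refine (convex_closedBall (0 : ℂ) (11 / 2)).segment_subset ?_ ?_
    · rw [mem_closedBall_zero_iff]; exact vert_norm hm i
    · rw [mem_closedBall_zero_iff]; exact vert_norm hm (i + 1)
  · rw [norm_mul, Complex.norm_real, Real.norm_of_nonneg hκ.le]
    refine lt_of_le_of_lt (mul_le_mul_of_nonneg_left (Vc_norm hm) hκ.le) ?_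
    rw [hκdef, inv_mul_lt_iff₀ hn, hmdef]
    have : (11 / ε + 8) * ε = 11 + 8 * ε := by field_simp
    linarith
  · rw [← mul_add]; exact hmem _ (mem0 hm)
  · rw [mul_left_comm, ← mul_add]; exact hmem _ (mem1 hm)
  · rw [← mul_sub]; exact hmem _ (mem2 hm)
  · rw [mul_left_comm, ← mul_sub]; exact hmem _ (mem3 hm)
  · intro z v hv h0 h1 h2 h3
    simp only [mem_ofPred_eq] at h0 h1 h2 h3
    rw [gg_scale hm hκ] at h0 h1 h2 h3
    have hsq := square_cases hm (z := ((κ⁻¹ : ℝ) : ℂ) * z) (v := ((κ⁻¹ : ℝ) : ℂ) * v)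
      (by rw [← mul_add]; exact h0)
      (by rw [mul_left_comm, ← mul_add]; exact h1)
      (by rw [← mul_sub]; exact h2)
      (by rw [mul_left_comm, ← mul_sub]; exact h3)
    have hκi' : ((κ⁻¹ : ℝ) : ℂ) ≠ 0 := by exact_mod_cast (inv_pos.mpr hκ).ne'
    have back : ∀ w u : ℂ, ((κ⁻¹ : ℝ) : ℂ) * w = u → w = (κ : ℂ) * u := by
      rintro w u rfl
      rw [← mul_assoc]
      push_cast
      rw [mul_inv_cancel₀ hκ', one_mul]
    rcases hsq with hsq | ⟨hz, hsq⟩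
    · exact absurd ((mul_eq_zero.mp hsq).resolve_left hκi') hv
    · refine ⟨back _ _ hz, ?_⟩
      rcases hsq with h | h | h | h
      · exact Or.inl (back _ _ h)
      · right; left
        rw [back _ _ h]; ring
      · right; right; left
        rw [back _ _ h]; ring
      · right; right; right
        rw [back _ _ h]; ring

end Six
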