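import Pool.Agent.helper91.SX.Trip
import Pool.Agent.helper91.HX.Star

/-!
# The 16-gon as the unit level set of a star gauge
-/

namespace Six

open Set Hex

/-- the cross product of the direction of edge `j` with the vector from its start to `(x, y)` -/
def F (m : ℝ) (j : Ed) (x y : ℝ) : ℝ := dx m j * (y - py m j) - dy m j * (x - px m j)

/-- the value of `F` at the star centre `(0, 0)` -/
def ar (m : ℝ) (j : Ed) : ℝ := px m j * dy m j - py m j * dx m j

/-- coefficients of `F` at the vertices -/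
def f0 (k i : Ed) : ℤ := (X0 (nx k) - X0 k) * (Y0 i - Y0 k) - (Y0 (nx k) - Y0 k) * (X0 i - X0 k)

/-- coefficients of `F` at the vertices -/
def f1 (k i : Ed) : ℤ :=
  (X0 (nx k) - X0 k) * (Y1 i - Y1 k) + (X1 (nx k) - X1 k) * (Y0 i - Y0 k) -
    (Y0 (nx k) - Y0 k) * (X1 i - X1 k) - (Y1 (nx k) - Y1 k) * (X0 i - X0 k)

/-- coefficients of `F` at the vertices -/
def f2 (k i : Ed) : ℤ := (X1 (nx k) - X1 k) * (Y1 i - Y1 k) - (Y1 (nx k) - Y1 k) * (X1 i - X1 k)

theorem F_vertex (m : ℝ) (k i : Ed) :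
    F m k (px m i) (py m i) = (f0 k i : ℝ) + (f1 k i : ℝ) * m + (f2 k i : ℝ) * (m * m) := by
  simp only [F, dx_eq, dy_eq, px_eq, py_eq, f0, f1, f2]
  push_cast
  ring

/-- test -/
def fnn (k i : Ed) : Bool := nn (f0 k i) && (nn (f1 k i) && nn (f2 k i))

/-- test -/
def fps (k i : Ed) : Bool := ps (f0 k i) && (nn (f1 k i) && nn (f2 k i))

theorem fnn_sound {k i : Ed} (h : fnn k i = true) {m : ℝ} (hm : 0 ≤ m) :
    0 ≤ F m k (px m i) (py m i) := by
  simp only [fnn, Bool.and_eq_true] at h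
  obtain ⟨h1, h2, h3⟩ := h
  have k1 : (0 : ℝ) ≤ (f0 k i : ℝ) := Int.cast_nonneg (nn_sound h1)
  have k2 : (0 : ℝ) ≤ (f1 k i : ℝ) := Int.cast_nonneg (nn_sound h2)
  have k3 : (0 : ℝ) ≤ (f2 k i : ℝ) := Int.cast_nonneg (nn_sound h3)
  rw [F_vertex]
  positivity

theorem fps_sound {k i : Ed} (h : fps k i = true) {m : ℝ} (hm : 0 ≤ m) :
    0 < F m k (px m i) (py m i) := by
  simp only [fps, Bool.and_eq_true] at h
  obtain ⟨h1, h2, h3⟩ := h
  have k1 : (0 : ℝ) < (f0 k i : ℝ) := Int.cast_pos.mpr (ps_sound h1)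
  have k2 : (0 : ℝ) ≤ (f1 k i : ℝ) := Int.cast_nonneg (nn_sound h2)
  have k3 : (0 : ℝ) ≤ (f2 k i : ℝ) := Int.cast_nonneg (nn_sound h3)
  rw [F_vertex]
  positivity

/-- the number of the petal of an edge -/
def pt : Ed → ℕ
  | .e0 => 0
  | .e1 => 0
  | .e2 => 0
  | .e3 => 0
  | .e4 => 1
  | .e5 => 1
  | .e6 => 1
  | .e7 => 1
  | .e8 => 2
  | .e9 => 2
  | .e10 => 2
  | .e11 => 2
  | .e12 => 3
  | .e13 => 3
  | .e14 => 3
  | .e15 => 3

theorem same_table : (edges.all fun k => edges.all fun j =>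
    (pt k != pt j) || (fnn k j && fnn k (nx j))) = true := by decide +kernel

theorem same_nn {k j : Ed} (h : pt k = pt j) {m : ℝ} (hm : 0 ≤ m) :
    0 ≤ F m k (px m j) (py m j) ∧ 0 ≤ F m k (px m (nx j)) (py m (nx j)) := by
  have h1 := same_table
  simp only [List.all_eq_true] at h1
  have h2 := h1 k (mem_edges k) j (mem_edges j)
  rw [Bool.or_eq_true, Bool.and_eq_true] at h2
  rcases h2 with h2 | h2
  · exact absurd h (by simpa using h2)
  · exact ⟨fnn_sound h2.1 hm, fnn_sound h2.2 hm⟩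

theorem F_conv (m : ℝ) (k j : Ed) (t : ℝ) :
    F m k (px m j + t * dx m j) (py m j + t * dy m j) =
      (1 - t) * F m k (px m j) (py m j) + t * F m k (px m (nx j)) (py m (nx j)) := by
  simp only [F, dx_eq, dy_eq]
  ring

theorem F_self (m : ℝ) (j : Ed) (t : ℝ) :
    F m j (px m j + t * dx m j) (py m j + t * dy m j) = 0 := by
  simp only [F]
  ring

theorem same_seg {k j : Ed} (h : pt k = pt j) {m : ℝ} (hm : 0 ≤ m) {t : ℝ} (h0 : 0 ≤ t) (h1 : t ≤ 1) :
    0 ≤ F m k (px m j + t * dx m j) (py m j + t * dy m j) := by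
  rw [F_conv]
  obtain ⟨k1, k2⟩ := same_nn h hm
  exact add_nonneg (mul_nonneg (by linarith) k1) (mul_nonneg h0 k2)

theorem ar_pos {m : ℝ} (hm : 0 ≤ m) (j : Ed) : 0 < ar m j := by
  cases j <;> simp only [ar, px, py, dx, dy] <;> ring_nf <;> positivity

theorem dd_pos {m : ℝ} (hm : 0 ≤ m) (j : Ed) : 0 < dx m j ^ 2 + dy m j ^ 2 := by
  have h := ar_pos hm j
  have h1 : dx m j ≠ 0 ∨ dy m j ≠ 0 := by
    by_contra hcon
    push Not at hcon
    simp only [ar, hcon.1, hcon.2] at h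
    simp at h
  rcases h1 with h1 | h1
  · have := sq_nonneg (dy m j)
    have := pow_pos (abs_pos.mpr h1) 2
    rw [sq_abs] at this
    linarith
  · have := sq_nonneg (dx m j)
    have := pow_pos (abs_pos.mpr h1) 2
    rw [sq_abs] at this
    linarith

/-- the point `(x, y)` lies on the edge `j` -/
def On (m : ℝ) (j : Ed) (x y : ℝ) : Prop :=
  ∃ t : ℝ, 0 ≤ t ∧ t ≤ 1 ∧ x = px m j + t * dx m j ∧ y = py m j + t * dy m j

theorem on_line {m : ℝ} (hm : 0 ≤ m) {j : Ed} {x y : ℝ} (h : F m j x y = 0) :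
    ∃ t : ℝ, x = px m j + t * dx m j ∧ y = py m j + t * dy m j := by
  have hd := dd_pos hm j
  refine ⟨((x - px m j) * dx m j + (y - py m j) * dy m j) / (dx m j ^ 2 + dy m j ^ 2), ?_, ?_⟩
  · rw [← sub_eq_iff_eq_add', div_mul_eq_mul_div, eq_div_iff hd.ne']
    simp only [F] at h
    linear_combination -(dy m j) * h
  · rw [← sub_eq_iff_eq_add', div_mul_eq_mul_div, eq_div_iff hd.ne']
    simp only [F] at h
    linear_combination (dx m j) * h

theorem t_nonneg {m : ℝ} (hm : 0 ≤ m) {j : Ed} {t : ℝ}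
    (lo : (∃ k, nx k = j ∧ fps k (nx j) = true ∧
        0 ≤ F m k (px m j + t * dx m j) (py m j + t * dy m j)) ∨
      0 ≤ px m j * (py m j + t * dy m j) - py m j * (px m j + t * dx m j)) : 0 ≤ t := by
  rcases lo with ⟨k, hk, hp, h⟩ | h
  · rw [F_conv] at h
    have h0 : F m k (px m j) (py m j) = 0 := by
      subst hk
      simp only [F, dx_eq, dy_eq]
      ring
    rw [h0, mul_zero, zero_add] at h
    exact nonneg_of_mul_nonneg_left h (fps_sound hp hm)
  · have e : px m j * (py m j + t * dy m j) - py m j * (px m j + t * dx m j) = t * ar m j := by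
      simp only [ar]; ring
    rw [e] at h
    exact nonneg_of_mul_nonneg_left h (ar_pos hm j)

theorem t_le_one {m : ℝ} (hm : 0 ≤ m) {j : Ed} {t : ℝ}
    (up : (fps (nx j) j = true ∧
        0 ≤ F m (nx j) (px m j + t * dx m j) (py m j + t * dy m j)) ∨
      0 ≤ (px m j + t * dx m j) * py m (nx j) - (py m j + t * dy m j) * px m (nx j)) : t ≤ 1 := by
  rcases up with ⟨hp, h⟩ | h
  · rw [F_conv] at h
    have h0 : F m (nx j) (px m (nx j)) (py m (nx j)) = 0 := by
      simp only [F]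
      ring
    rw [h0, mul_zero, add_zero] at h
    have := nonneg_of_mul_nonneg_left h (fps_sound hp hm)
    linarith
  · have e : (px m j + t * dx m j) * py m (nx j) - (py m j + t * dy m j) * px m (nx j) =
        (1 - t) * ar m j := by
      simp only [ar, dx_eq, dy_eq]; ring
    rw [e] at h
    have := nonneg_of_mul_nonneg_left h (ar_pos hm j)
    linarith

/-- the gauge of the half plane to the left of edge `j` -/
noncomputable def lin (m : ℝ) (j : Ed) (x y : ℝ) : ℝ := (dy m j * x - dx m j * y) / ar m j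

theorem lin_le_one {m : ℝ} (hm : 0 ≤ m) (j : Ed) (x y : ℝ) : lin m j x y ≤ 1 ↔ 0 ≤ F m j x y := by
  rw [lin, div_le_one (ar_pos hm j)]
  simp only [ar, F]
  constructor <;> intro h <;> linarith

theorem lin_lt_one {m : ℝ} (hm : 0 ≤ m) (j : Ed) (x y : ℝ) : lin m j x y < 1 ↔ 0 < F m j x y := by
  rw [lin, div_lt_one (ar_pos hm j)]
  simp only [ar, F]
  constructor <;> intro h <;> linarith

theorem lin_eq_one {m : ℝ} (hm : 0 ≤ m) (j : Ed) (x y : ℝ) : lin m j x y = 1 ↔ F m j x y = 0 := by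
  rw [lin, div_eq_one_iff_eq (ar_pos hm j).ne']
  simp only [ar, F]
  constructor <;> intro h <;> linarith

theorem lin_mul (m : ℝ) (j : Ed) (r x y : ℝ) : lin m j (r * x) (r * y) = r * lin m j x y := by
  simp only [lin]
  ring

/-- the gauge of a petal -/
noncomputable def pg (m : ℝ) (a b c d : Ed) (x y : ℝ) : ℝ :=
  max (max (lin m a x y) (lin m b x y)) (max (lin m c x y) (lin m d x y))

theorem pg_mul (m : ℝ) (a b c d : Ed) {r : ℝ} (hr : 0 ≤ r) (x y : ℝ) :
    pg m a b c d (r * x) (r * y) = r * pg m a b c d x y := by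
  simp only [pg, lin_mul, mul_max_of_nonneg _ _ hr]

theorem pg_lt_one {m : ℝ} (hm : 0 ≤ m) {a b c d : Ed} {x y : ℝ} :
    pg m a b c d x y < 1 ↔ (0 < F m a x y ∧ 0 < F m b x y) ∧ (0 < F m c x y ∧ 0 < F m d x y) := by
  simp only [pg, max_lt_iff, lin_lt_one hm]

theorem pg_le_one {m : ℝ} (hm : 0 ≤ m) {a b c d : Ed} {x y : ℝ} :
    pg m a b c d x y ≤ 1 ↔ (0 ≤ F m a x y ∧ 0 ≤ F m b x y) ∧ (0 ≤ F m c x y ∧ 0 ≤ F m d x y) := by
  simp only [pg, max_le_iff, lin_le_one hm]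

theorem pg_eq_one {m : ℝ} (hm : 0 ≤ m) {a b c d : Ed} {x y : ℝ} :
    pg m a b c d x y = 1 ↔ ((0 ≤ F m a x y ∧ 0 ≤ F m b x y) ∧ (0 ≤ F m c x y ∧ 0 ≤ F m d x y)) ∧
      (F m a x y = 0 ∨ F m b x y = 0 ∨ F m c x y = 0 ∨ F m d x y = 0) := by
  rw [← pg_le_one hm]
  constructor
  · intro h
    refine ⟨h.le, ?_⟩
    by_contra hcon
    push Not at hcon
    obtain ⟨n1, n2, n3, n4⟩ := hcon
    obtain ⟨⟨h1, h2⟩, h3, h4⟩ := (pg_le_one hm).mp h.le
    have : pg m a b c d x y < 1 := (pg_lt_one hm).mpr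
      ⟨⟨lt_of_le_of_ne h1 n1.symm, lt_of_le_of_ne h2 n2.symm⟩,
        lt_of_le_of_ne h3 n3.symm, lt_of_le_of_ne h4 n4.symm⟩
    exact absurd h this.ne
  · rintro ⟨h, h1⟩
    refine le_antisymm h ?_
    simp only [← lin_eq_one hm] at h1
    rcases h1 with h1 | h1 | h1 | h1
    · rw [← h1]; exact (le_max_left _ _).trans (le_max_left _ _)
    · rw [← h1]; exact (le_max_right _ _).trans (le_max_left _ _)
    · rw [← h1]; exact (le_max_left _ _).trans (le_max_right _ _)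
    · rw [← h1]; exact (le_max_right _ _).trans (le_max_right _ _)

/-- value of a petal gauge on the ray through its first vertex -/
theorem pg_first {m : ℝ} (hm : 0 ≤ m) {a b c d : Ed} (hb : pt b = pt a) (hc : pt c = pt a)
    (hd : pt d = pt a) : pg m a b c d (px m a) (py m a) = 1 := by
  rw [pg_eq_one hm]
  refine ⟨⟨⟨(same_nn rfl hm).1, (same_nn hb hm).1⟩, (same_nn hc hm).1, (same_nn hd hm).1⟩, Or.inl ?_⟩
  simp only [F]; ring

/-- value of a petal gauge on the ray through its last vertex -/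
theorem pg_last {m : ℝ} (hm : 0 ≤ m) {a b c d : Ed} (ha : pt a = pt d) (hb : pt b = pt d)
    (hc : pt c = pt d) : pg m a b c d (px m (nx d)) (py m (nx d)) = 1 := by
  rw [pg_eq_one hm]
  refine ⟨⟨⟨(same_nn ha hm).2, (same_nn hb hm).2⟩, (same_nn hc hm).2, (same_nn rfl hm).2⟩,
    Or.inr (Or.inr (Or.inr ?_))⟩
  simp only [F, dx_eq, dy_eq]; ring

end Six
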