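import Pool.Agent.helper91.SX.Gauge

/-!
# The 16-gon as the unit level set of a star gauge, second part
-/

namespace Six

open Set Hex

theorem on_mid {m : ℝ} (hm : 0 ≤ m) {j k : Ed} {x y : ℝ} (hk : nx k = j) (p1 : fps k (nx j) = true)
    (p2 : fps (nx j) j = true) (hj : F m j x y = 0) (h1 : 0 ≤ F m k x y)
    (h2 : 0 ≤ F m (nx j) x y) : On m j x y := by
  obtain ⟨t, rfl, rfl⟩ := on_line hm hj
  exact ⟨t, t_nonneg hm (Or.inl ⟨k, hk, p1, h1⟩), t_le_one hm (Or.inl ⟨p2, h2⟩), rfl, rfl⟩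

theorem on_first {m : ℝ} (hm : 0 ≤ m) {j : Ed} {x y : ℝ}
    (p2 : fps (nx j) j = true) (hj : F m j x y = 0) (h1 : 0 ≤ px m j * y - py m j * x)
    (h2 : 0 ≤ F m (nx j) x y) : On m j x y := by
  obtain ⟨t, rfl, rfl⟩ := on_line hm hj
  exact ⟨t, t_nonneg hm (Or.inr h1), t_le_one hm (Or.inl ⟨p2, h2⟩), rfl, rfl⟩

theorem on_last {m : ℝ} (hm : 0 ≤ m) {j k : Ed} {x y : ℝ} (hk : nx k = j) (p1 : fps k (nx j) = true)
    (hj : F m j x y = 0) (h1 : 0 ≤ F m k x y)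
    (h2 : 0 ≤ x * py m (nx j) - y * px m (nx j)) : On m j x y := by
  obtain ⟨t, rfl, rfl⟩ := on_line hm hj
  exact ⟨t, t_nonneg hm (Or.inl ⟨k, hk, p1, h1⟩), t_le_one hm (Or.inr h2), rfl, rfl⟩

/-- the gauge of the 16-gon -/
noncomputable def gg (m : ℝ) (z : ℂ) : ℝ :=
  pg m .e0 .e1 .e2 .e3 (-(max (-z.re) 0)) (-(max (-z.im) 0)) +
  pg m .e4 .e5 .e6 .e7 (max z.re 0) (-(max (-z.im) 0)) +
  pg m .e8 .e9 .e10 .e11 (max z.re 0) (max z.im 0) +
  pg m .e12 .e13 .e14 .e15 (-(max (-z.re) 0)) (max z.im 0) -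
  max (-z.re) 0 / 5 - max (-z.im) 0 / 7 - max z.re 0 / 3 - max z.im 0 / 5

theorem lin_cont (m : ℝ) (j : Ed) {f g : ℂ → ℝ} (hf : Continuous f) (hg : Continuous g) :
    Continuous fun z => lin m j (f z) (g z) := by
  simp only [lin]
  exact ((continuous_const.mul hf).sub (continuous_const.mul hg)).div_const _

theorem pg_cont (m : ℝ) (a b c d : Ed) {f g : ℂ → ℝ} (hf : Continuous f) (hg : Continuous g) :
    Continuous fun z => pg m a b c d (f z) (g z) := by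
  simp only [pg]
  exact ((lin_cont m a hf hg).max (lin_cont m b hf hg)).max
    ((lin_cont m c hf hg).max (lin_cont m d hf hg))

theorem gg_cont (m : ℝ) : Continuous (gg m) := by
  have c1 : Continuous fun z : ℂ => max z.re 0 := Complex.continuous_re.max continuous_const
  have c2 : Continuous fun z : ℂ => max z.im 0 := Complex.continuous_im.max continuous_const
  have c3 : Continuous fun z : ℂ => max (-z.re) 0 := Complex.continuous_re.neg.max continuous_const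
  have c4 : Continuous fun z : ℂ => max (-z.im) 0 := Complex.continuous_im.neg.max continuous_const
  unfold gg
  exact ((((((((pg_cont m _ _ _ _ c3.neg c4.neg).add (pg_cont m _ _ _ _ c1 c4.neg)).add
    (pg_cont m _ _ _ _ c1 c2)).add (pg_cont m _ _ _ _ c3.neg c2)).sub (c3.div_const _)).sub
    (c4.div_const _)).sub (c1.div_const _)).sub (c2.div_const _))

theorem gg_hom (m : ℝ) (r : ℝ) (z : ℂ) (hr : 0 ≤ r) : gg m ((r : ℂ) * z) = r * gg m z := by
  have e1 : max (-(((r : ℂ) * z).re)) 0 = r * max (-z.re) 0 := by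
    rw [mul_max_of_nonneg _ _ hr, Complex.re_ofReal_mul, mul_zero, mul_neg]
  have e2 : max (-(((r : ℂ) * z).im)) 0 = r * max (-z.im) 0 := by
    rw [mul_max_of_nonneg _ _ hr, Complex.im_ofReal_mul, mul_zero, mul_neg]
  have e3 : max (((r : ℂ) * z).re) 0 = r * max z.re 0 := by
    rw [mul_max_of_nonneg _ _ hr, Complex.re_ofReal_mul, mul_zero]
  have e4 : max (((r : ℂ) * z).im) 0 = r * max z.im 0 := by
    rw [mul_max_of_nonneg _ _ hr, Complex.im_ofReal_mul, mul_zero]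
  simp only [gg, e1, e2, e3, e4]
  simp only [← mul_neg, pg_mul m _ _ _ _ hr]
  ring

theorem ray0_first {m : ℝ} (hm : 0 ≤ m) {t : ℝ} (ht : 0 ≤ t) : pg m .e0 .e1 .e2 .e3 (-t) 0 = t / 5 := by
  have h := pg_first (a := .e0) (b := .e1) (c := .e2) (d := .e3) hm rfl rfl rfl
  simp only [px, py] at h
  have h2 := pg_mul m .e0 .e1 .e2 .e3 (div_nonneg ht (by norm_num : (0:ℝ) ≤ 5)) (-5) (0)
  rw [h, mul_one] at h2
  rw [← h2]
  congr 1 <;> ring

theorem ray0_last {m : ℝ} (hm : 0 ≤ m) {t : ℝ} (ht : 0 ≤ t) : pg m .e0 .e1 .e2 .e3 0 (-t) = t / 7 := by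
  have h := pg_last (a := .e0) (b := .e1) (c := .e2) (d := .e3) hm rfl rfl rfl
  simp only [nx, px, py] at h
  have h2 := pg_mul m .e0 .e1 .e2 .e3 (div_nonneg ht (by norm_num : (0:ℝ) ≤ 7)) (0) (-7)
  rw [h, mul_one] at h2
  rw [← h2]
  congr 1 <;> ring

theorem ray1_first {m : ℝ} (hm : 0 ≤ m) {t : ℝ} (ht : 0 ≤ t) : pg m .e4 .e5 .e6 .e7 0 (-t) = t / 7 := by
  have h := pg_first (a := .e4) (b := .e5) (c := .e6) (d := .e7) hm rfl rfl rfl
  simp only [px, py] at h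
  have h2 := pg_mul m .e4 .e5 .e6 .e7 (div_nonneg ht (by norm_num : (0:ℝ) ≤ 7)) (0) (-7)
  rw [h, mul_one] at h2
  rw [← h2]
  congr 1 <;> ring

theorem ray1_last {m : ℝ} (hm : 0 ≤ m) {t : ℝ} (ht : 0 ≤ t) : pg m .e4 .e5 .e6 .e7 t 0 = t / 3 := by
  have h := pg_last (a := .e4) (b := .e5) (c := .e6) (d := .e7) hm rfl rfl rfl
  simp only [nx, px, py] at h
  have h2 := pg_mul m .e4 .e5 .e6 .e7 (div_nonneg ht (by norm_num : (0:ℝ) ≤ 3)) (3) (0)
  rw [h, mul_one] at h2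
  rw [← h2]
  congr 1 <;> ring

theorem ray2_first {m : ℝ} (hm : 0 ≤ m) {t : ℝ} (ht : 0 ≤ t) : pg m .e8 .e9 .e10 .e11 t 0 = t / 3 := by
  have h := pg_first (a := .e8) (b := .e9) (c := .e10) (d := .e11) hm rfl rfl rfl
  simp only [px, py] at h
  have h2 := pg_mul m .e8 .e9 .e10 .e11 (div_nonneg ht (by norm_num : (0:ℝ) ≤ 3)) (3) (0)
  rw [h, mul_one] at h2
  rw [← h2]
  congr 1 <;> ring

theorem ray2_last {m : ℝ} (hm : 0 ≤ m) {t : ℝ} (ht : 0 ≤ t) : pg m .e8 .e9 .e10 .e11 0 t = t / 5 := by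
  have h := pg_last (a := .e8) (b := .e9) (c := .e10) (d := .e11) hm rfl rfl rfl
  simp only [nx, px, py] at h
  have h2 := pg_mul m .e8 .e9 .e10 .e11 (div_nonneg ht (by norm_num : (0:ℝ) ≤ 5)) (0) (5)
  rw [h, mul_one] at h2
  rw [← h2]
  congr 1 <;> ring

theorem ray3_first {m : ℝ} (hm : 0 ≤ m) {t : ℝ} (ht : 0 ≤ t) : pg m .e12 .e13 .e14 .e15 0 t = t / 5 := by
  have h := pg_first (a := .e12) (b := .e13) (c := .e14) (d := .e15) hm rfl rfl rfl
  simp only [px, py] at h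
  have h2 := pg_mul m .e12 .e13 .e14 .e15 (div_nonneg ht (by norm_num : (0:ℝ) ≤ 5)) (0) (5)
  rw [h, mul_one] at h2
  rw [← h2]
  congr 1 <;> ring

theorem ray3_last {m : ℝ} (hm : 0 ≤ m) {t : ℝ} (ht : 0 ≤ t) : pg m .e12 .e13 .e14 .e15 (-t) 0 = t / 5 := by
  have h := pg_last (a := .e12) (b := .e13) (c := .e14) (d := .e15) hm rfl rfl rfl
  simp only [nx, px, py] at h
  have h2 := pg_mul m .e12 .e13 .e14 .e15 (div_nonneg ht (by norm_num : (0:ℝ) ≤ 5)) (-5) (0)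
  rw [h, mul_one] at h2
  rw [← h2]
  congr 1 <;> ring

theorem zero0 {m : ℝ} (hm : 0 ≤ m) : pg m .e0 .e1 .e2 .e3 0 0 = 0 := by
  have h := ray0_first hm (le_refl (0:ℝ))
  simpa using h

theorem zero1 {m : ℝ} (hm : 0 ≤ m) : pg m .e4 .e5 .e6 .e7 0 0 = 0 := by
  have h := ray1_first hm (le_refl (0:ℝ))
  simpa using h

theorem zero2 {m : ℝ} (hm : 0 ≤ m) : pg m .e8 .e9 .e10 .e11 0 0 = 0 := by
  have h := ray2_first hm (le_refl (0:ℝ))
  simpa using h

theorem zero3 {m : ℝ} (hm : 0 ≤ m) : pg m .e12 .e13 .e14 .e15 0 0 = 0 := by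
  have h := ray3_first hm (le_refl (0:ℝ))
  simpa using h

theorem gg_q0 {m : ℝ} (hm : 0 ≤ m) {z : ℂ} (hx : z.re ≤ 0) (hy : z.im ≤ 0) :
    gg m z = pg m .e0 .e1 .e2 .e3 z.re z.im := by
  have e1 : max (-z.re) 0 = -z.re := max_eq_left (by linarith)
  have e2 : max z.re 0 = 0 := max_eq_right hx
  have e3 : max (-z.im) 0 = -z.im := max_eq_left (by linarith)
  have e4 : max z.im 0 = 0 := max_eq_right hy
  simp only [gg, e1, e2, e3, e4, neg_neg, neg_zero]
  have r1 := ray3_last hm (t := -z.re) (by linarith)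
  have r2 := ray1_first hm (t := -z.im) (by linarith)
  try rw [neg_neg] at r1
  try rw [neg_neg] at r2
  rw [r1, r2, zero2 hm]
  ring

theorem gg_q1 {m : ℝ} (hm : 0 ≤ m) {z : ℂ} (hx : 0 ≤ z.re) (hy : z.im ≤ 0) :
    gg m z = pg m .e4 .e5 .e6 .e7 z.re z.im := by
  have e1 : max (-z.re) 0 = 0 := max_eq_right (by linarith)
  have e2 : max z.re 0 = z.re := max_eq_left hx
  have e3 : max (-z.im) 0 = -z.im := max_eq_left (by linarith)
  have e4 : max z.im 0 = 0 := max_eq_right hy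
  simp only [gg, e1, e2, e3, e4, neg_neg, neg_zero]
  have r1 := ray0_last hm (t := -z.im) (by linarith)
  have r2 := ray2_first hm (t := z.re) hx
  try rw [neg_neg] at r1
  try rw [neg_neg] at r2
  rw [r1, r2, zero3 hm]
  ring

theorem gg_q2 {m : ℝ} (hm : 0 ≤ m) {z : ℂ} (hx : 0 ≤ z.re) (hy : 0 ≤ z.im) :
    gg m z = pg m .e8 .e9 .e10 .e11 z.re z.im := by
  have e1 : max (-z.re) 0 = 0 := max_eq_right (by linarith)
  have e2 : max z.re 0 = z.re := max_eq_left hx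
  have e3 : max (-z.im) 0 = 0 := max_eq_right (by linarith)
  have e4 : max z.im 0 = z.im := max_eq_left hy
  simp only [gg, e1, e2, e3, e4, neg_neg, neg_zero]
  have r1 := ray1_last hm (t := z.re) hx
  have r2 := ray3_first hm (t := z.im) hy
  try rw [neg_neg] at r1
  try rw [neg_neg] at r2
  rw [r1, r2, zero0 hm]
  ring

theorem gg_q3 {m : ℝ} (hm : 0 ≤ m) {z : ℂ} (hx : z.re ≤ 0) (hy : 0 ≤ z.im) :
    gg m z = pg m .e12 .e13 .e14 .e15 z.re z.im := by
  have e1 : max (-z.re) 0 = -z.re := max_eq_left (by linarith)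
  have e2 : max z.re 0 = 0 := max_eq_right hx
  have e3 : max (-z.im) 0 = 0 := max_eq_right (by linarith)
  have e4 : max z.im 0 = z.im := max_eq_left hy
  simp only [gg, e1, e2, e3, e4, neg_neg, neg_zero]
  have r1 := ray2_last hm (t := z.im) hy
  have r2 := ray0_first hm (t := -z.re) (by linarith)
  try rw [neg_neg] at r1
  try rw [neg_neg] at r2
  rw [r1, r2, zero1 hm]
  ring

end Six
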