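import Pool.Agent.helper91.SX.Def

/-!
# Three consecutive vertices of a square

For most triples of edges there is no isosceles right triangle with its vertices on these edges.  The
certificates are checked by the kernel.
-/

namespace Six

/-- the next edge -/
def nx : Ed → Ed
  | .e0 => .e1
  | .e1 => .e2
  | .e2 => .e3
  | .e3 => .e4
  | .e4 => .e5
  | .e5 => .e6
  | .e6 => .e7
  | .e7 => .e8
  | .e8 => .e9
  | .e9 => .e10
  | .e10 => .e11
  | .e11 => .e12
  | .e12 => .e13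
  | .e13 => .e14
  | .e14 => .e15
  | .e15 => .e0

/-- integer coordinates of the vertices: `px m e = X0 e + X1 e * m`, `py m e = Y0 e + Y1 e * m` -/
def X0 : Ed → ℤ
  | .e0 => .negSucc 4
  | .e1 => .negSucc 23
  | .e2 => .negSucc 15
  | .e3 => .negSucc 0
  | .e4 => .ofNat 0
  | .e5 => .ofNat 1
  | .e6 => .ofNat 40
  | .e7 => .ofNat 41
  | .e8 => .ofNat 3
  | .e9 => .ofNat 16
  | .e10 => .ofNat 15
  | .e11 => .ofNat 3
  | .e12 => .ofNat 0
  | .e13 => .negSucc 2
  | .e14 => .negSucc 15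
  | .e15 => .negSucc 15

/-- integer coordinates of the vertices: `px m e = X0 e + X1 e * m`, `py m e = Y0 e + Y1 e * m` -/
def X1 : Ed → ℤ
  | .e0 => .ofNat 0
  | .e1 => .negSucc 2
  | .e2 => .negSucc 1
  | .e3 => .ofNat 0
  | .e4 => .ofNat 0
  | .e5 => .ofNat 0
  | .e6 => .ofNat 5
  | .e7 => .ofNat 5
  | .e8 => .ofNat 0
  | .e9 => .ofNat 2
  | .e10 => .ofNat 2
  | .e11 => .ofNat 0
  | .e12 => .ofNat 0
  | .e13 => .ofNat 0
  | .e14 => .negSucc 1
  | .e15 => .negSucc 1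

/-- integer coordinates of the vertices: `px m e = X0 e + X1 e * m`, `py m e = Y0 e + Y1 e * m` -/
def Y0 : Ed → ℤ
  | .e0 => .ofNat 0
  | .e1 => .negSucc 2
  | .e2 => .negSucc 15
  | .e3 => .negSucc 15
  | .e4 => .negSucc 6
  | .e5 => .negSucc 21
  | .e6 => .negSucc 17
  | .e7 => .negSucc 0
  | .e8 => .ofNat 0
  | .e9 => .ofNat 1
  | .e10 => .ofNat 18
  | .e11 => .ofNat 16
  | .e12 => .ofNat 5
  | .e13 => .ofNat 40
  | .e14 => .ofNat 23
  | .e15 => .ofNat 1

/-- integer coordinates of the vertices: `px m e = X0 e + X1 e * m`, `py m e = Y0 e + Y1 e * m` -/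
def Y1 : Ed → ℤ
  | .e0 => .ofNat 0
  | .e1 => .ofNat 0
  | .e2 => .negSucc 1
  | .e3 => .negSucc 1
  | .e4 => .ofNat 0
  | .e5 => .negSucc 1
  | .e6 => .negSucc 1
  | .e7 => .ofNat 0
  | .e8 => .ofNat 0
  | .e9 => .ofNat 0
  | .e10 => .ofNat 2
  | .e11 => .ofNat 2
  | .e12 => .ofNat 0
  | .e13 => .ofNat 5
  | .e14 => .ofNat 3
  | .e15 => .ofNat 0

/-- number of an edge -/
def ix : Ed → ℕ
  | .e0 => 0
  | .e1 => 1
  | .e2 => 2
  | .e3 => 3
  | .e4 => 4
  | .e5 => 5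
  | .e6 => 6
  | .e7 => 7
  | .e8 => 8
  | .e9 => 9
  | .e10 => 10
  | .e11 => 11
  | .e12 => 12
  | .e13 => 13
  | .e14 => 14
  | .e15 => 15

/-- the octal digits say which certificate is used, `0` if there is none -/
def cd : Ed → Ed → ℕ
  | .e0, .e0 => 0x2c51b6da6c0
  | .e0, .e1 => 0x4db6da6e2800
  | .e0, .e2 => 0x25b6e0100009
  | .e0, .e3 => 0x249220129249
  | .e0, .e4 => 0x249200129249
  | .e0, .e5 => 0x2492491a9249
  | .e0, .e6 => 0x249249249249
  | .e0, .e7 => 0x24901b4d9249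
  | .e0, .e8 => 0x249035529249
  | .e0, .e9 => 0x24069b519249
  | .e0, .e10 => 0x64549b4db6ca
  | .e0, .e11 => 0xa445244e2b4a
  | .e0, .e12 => 0x6045245226da
  | .e0, .e13 => 0x6934db4da6da
  | .e0, .e14 => 0x89b4db6e2900
  | .e0, .e15 => 0x1c524922968
  | .e1, .e0 => 0x2254c9249240
  | .e1, .e1 => 0x4db6da64aa00
  | .e1, .e2 => 0x6db6e8048003
  | .e1, .e3 => 0x76002924925b
  | .e1, .e4 => 0xd6000004ed6e
  | .e1, .e5 => 0x6da6c004d55b
  | .e1, .e6 => 0x2da689249249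
  | .e1, .e7 => 0x368249249249
  | .e1, .e8 => 0x358249249249
  | .e1, .e9 => 0x240249249249
  | .e1, .e10 => 0x249249249249
  | .e1, .e11 => 0x205249249249
  | .e1, .e12 => 0x205249249249
  | .e1, .e13 => 0x249249249249
  | .e1, .e14 => 0x29b249249249
  | .e1, .e15 => 0x21d249249249
  | .e2, .e0 => 0x249249249240
  | .e2, .e1 => 0x4d9249249203
  | .e2, .e2 => 0x4db249249003
  | .e2, .e3 => 0x12d249249018
  | .e2, .e4 => 0x11b6cb6681a0
  | .e2, .e5 => 0x6da6c016c51b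
  | .e2, .e6 => 0x6da6934db4da
  | .e2, .e7 => 0x7286db45b6e2
  | .e2, .e8 => 0xb18249249b62
  | .e2, .e9 => 0x6c02492496da
  | .e2, .e10 => 0x24924924925a
  | .e2, .e11 => 0x24924924926a
  | .e2, .e12 => 0x24924924925a
  | .e2, .e13 => 0x249249249249
  | .e2, .e14 => 0x249249249249
  | .e2, .e15 => 0x249249249240
  | .e3, .e0 => 0x2492492da6c1
  | .e3, .e1 => 0x249249249249
  | .e3, .e2 => 0x249249240019
  | .e3, .e3 => 0x249249368019
  | .e3, .e4 => 0x2492492c01a9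
  | .e3, .e5 => 0x6da6db1834db
  | .e3, .e6 => 0x6da6d34db4da
  | .e3, .e7 => 0x96801b4db6e2
  | .e3, .e8 => 0x8c802d564922
  | .e3, .e9 => 0x6c082b5236da
  | .e3, .e10 => 0x60549b4da6da
  | .e3, .e11 => 0x80b4db4e2922
  | .e3, .e12 => 0x8355ac5228da
  | .e3, .e13 => 0x6934db4da6da
  | .e3, .e14 => 0x68b45b6da6d3
  | .e3, .e15 => 0x24924936ab41
  | .e4, .e0 => 0x52451a6da6c4
  | .e4, .e1 => 0x4db6da6d269b
  | .e4, .e2 => 0x4db6e294089b
  | .e4, .e3 => 0x52492294801c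
  | .e4, .e4 => 0x51b6da6c002c
  | .e4, .e5 => 0x6db6db1804db
  | .e4, .e6 => 0x2da249249249
  | .e4, .e7 => 0x228019249249
  | .e4, .e8 => 0x218029249249
  | .e4, .e9 => 0x2c0229249249
  | .e4, .e10 => 0x205249249249
  | .e4, .e11 => 0x21b4d9249249
  | .e4, .e12 => 0x2355a9249249
  | .e4, .e13 => 0x2934d9249249
  | .e4, .e14 => 0x69b4db6ca653
  | .e4, .e15 => 0x51c52294aa44
  | .e5, .e0 => 0x249249249245
  | .e5, .e1 => 0x249249249253
  | .e5, .e2 => 0x4d924924929b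
  | .e5, .e3 => 0x569249249225
  | .e5, .e4 => 0x4d9249240625
  | .e5, .e5 => 0x6db6db0004db
  | .e5, .e6 => 0x6e27130034db
  | .e5, .e7 => 0x28000040000
  | .e5, .e8 => 0x19249249200
  | .e5, .e9 => 0x1249249228
  | .e5, .e10 => 0x249249249240
  | .e5, .e11 => 0x249249249240
  | .e5, .e12 => 0x249249249240
  | .e5, .e13 => 0x249249249249
  | .e5, .e14 => 0x249249249249
  | .e5, .e15 => 0x249249249245
  | .e6, .e0 => 0x249249249249
  | .e6, .e1 => 0x249249249249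
  | .e6, .e2 => 0x249249249249
  | .e6, .e3 => 0x249249249249
  | .e6, .e4 => 0x249249249249
  | .e6, .e5 => 0x249249203499
  | .e6, .e6 => 0x6c924a0034db
  | .e6, .e7 => 0xd4924a000db5
  | .e6, .e8 => 0x249249249249
  | .e6, .e9 => 0x249249340029
  | .e6, .e10 => 0x2492492daa01
  | .e6, .e11 => 0x249249249249
  | .e6, .e12 => 0x249249372bb1
  | .e6, .e13 => 0x2492492da6d1
  | .e6, .e14 => 0x249249249249
  | .e6, .e15 => 0x249249249249
  | .e7, .e0 => 0x5ac9228e2835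
  | .e7, .e1 => 0x4db6da6d269b
  | .e7, .e2 => 0x2496dab03249
  | .e7, .e3 => 0x24936ab01249
  | .e7, .e4 => 0x2492da6c1249
  | .e7, .e5 => 0x249249001249
  | .e7, .e6 => 0x249249009249
  | .e7, .e7 => 0x249380001249
  | .e7, .e8 => 0x2492e8101249
  | .e7, .e9 => 0x2480281000c9
  | .e7, .e10 => 0x6d5248da808
  | .e7, .e11 => 0x5b6db6e2808
  | .e7, .e12 => 0x34924922800
  | .e7, .e13 => 0x69b4db6da6db
  | .e7, .e14 => 0x69b4db6da6d3
  | .e7, .e15 => 0x4db6e292281b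
  | .e8, .e0 => 0x5a9249249235
  | .e8, .e1 => 0x4d924924929b
  | .e8, .e2 => 0x4db6caa4349b
  | .e8, .e3 => 0x52294aa444dc
  | .e8, .e4 => 0x51a6da644524
  | .e8, .e5 => 0x6da6d30034db
  | .e8, .e6 => 0x6da6d34db4db
  | .e8, .e7 => 0x922b800dc524
  | .e8, .e8 => 0x6da6c006c51b
  | .e8, .e9 => 0x6e800046b6db
  | .e8, .e10 => 0xb2924925a6e2
  | .e8, .e11 => 0x119249249360
  | .e8, .e12 => 0x312492492d8
  | .e8, .e13 => 0x249249249249
  | .e8, .e14 => 0x249249249253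
  | .e8, .e15 => 0x4d924924921b
  | .e9, .e0 => 0x249249240249
  | .e9, .e1 => 0x249249249249
  | .e9, .e2 => 0x249249249249
  | .e9, .e3 => 0x249249249249
  | .e9, .e4 => 0x249249249249
  | .e9, .e5 => 0x6ca6536034db
  | .e9, .e6 => 0x6ca6d349b4db
  | .e9, .e7 => 0xd4abb60e552e
  | .e9, .e8 => 0x2492401654db
  | .e9, .e9 => 0x6c80005236db
  | .e9, .e10 => 0x9480034db722
  | .e9, .e11 => 0x1492580e0128
  | .e9, .e12 => 0xedaed600d8
  | .e9, .e13 => 0x68b4db6da6c0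
  | .e9, .e14 => 0x2492492da601
  | .e9, .e15 => 0x249249240249
  | .e10, .e0 => 0x46ed62ac0d8d
  | .e10, .e1 => 0x45b6da6d368b
  | .e10, .e2 => 0x2492da711249
  | .e10, .e3 => 0x249249b01249
  | .e10, .e4 => 0x249249ac1249
  | .e10, .e5 => 0x249249601249
  | .e10, .e6 => 0x249249249249
  | .e10, .e7 => 0x2492490e9249
  | .e10, .e8 => 0x249249129249
  | .e10, .e9 => 0x249201519249
  | .e10, .e10 => 0x2490034d9249
  | .e10, .e11 => 0x2490180e9249
  | .e10, .e12 => 0x6001a012b6db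
  | .e10, .e13 => 0x69b4db6da6c0
  | .e10, .e14 => 0x6db6db6e2600
  | .e10, .e15 => 0x25b6dab004c9
  | .e11, .e0 => 0x5249228d8035
  | .e11, .e1 => 0x4db6da6d369b
  | .e11, .e2 => 0x4da6da90349b
  | .e11, .e3 => 0x52292294345b
  | .e11, .e4 => 0x5228da8c55ad
  | .e11, .e5 => 0x6da6d30034db
  | .e11, .e6 => 0x25a249249249
  | .e11, .e7 => 0x36ab804c9249
  | .e11, .e8 => 0x2da6c0549249
  | .e11, .e9 => 0x2ea2d9249249
  | .e11, .e10 => 0x368019249249
  | .e11, .e11 => 0x36001d4c9249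
  | .e11, .e12 => 0x2001ad549249
  | .e11, .e13 => 0x69b4db4c924a
  | .e11, .e14 => 0x6db6db6ea600
  | .e11, .e15 => 0x4db6e296801b
  | .e12, .e0 => 0x2492492c0031
  | .e12, .e1 => 0x249249249249
  | .e12, .e2 => 0x249249203249
  | .e12, .e3 => 0x2492492234d9
  | .e12, .e4 => 0x2492492055a9
  | .e12, .e5 => 0x6ca6d30034db
  | .e12, .e6 => 0x6da6d349b4da
  | .e12, .e7 => 0xb6ab844e4524
  | .e12, .e8 => 0x6ca64452451b
  | .e12, .e9 => 0x6ea6db51b6da
  | .e12, .e10 => 0x9688a44dc922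
  | .e12, .e11 => 0x948004524922
  | .e12, .e12 => 0x6000045236da
  | .e12, .e13 => 0x8004db4e4922
  | .e12, .e14 => 0x80580e0100
  | .e12, .e15 => 0x249249360119
  | .e13, .e0 => 0xd6ab400c544e
  | .e13, .e1 => 0x4da6da6c544b
  | .e13, .e2 => 0x2da6d2a01249
  | .e13, .e3 => 0x25a2d1009249
  | .e13, .e4 => 0x26a249d89249
  | .e13, .e5 => 0x25a249689249
  | .e13, .e6 => 0x249249249249
  | .e13, .e7 => 0x249249249249
  | .e13, .e8 => 0x249249249249
  | .e13, .e9 => 0x249249249249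
  | .e13, .e10 => 0x249249249249
  | .e13, .e11 => 0x26a249249249
  | .e13, .e12 => 0x240249249249
  | .e13, .e13 => 0x2004db4e9249
  | .e13, .e14 => 0x2000d80e9249
  | .e13, .e15 => 0x2da6c0169249
  | .e14, .e0 => 0x1a01000c8040
  | .e14, .e1 => 0x4db6da6c8183
  | .e14, .e2 => 0x6db6dab4d4db
  | .e14, .e3 => 0x6e2b0014924b
  | .e14, .e4 => 0xd62b0600926e
  | .e14, .e5 => 0x6da6d300925b
  | .e14, .e6 => 0x25a249249249
  | .e14, .e7 => 0x36a249249249
  | .e14, .e8 => 0x2da249249249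
  | .e14, .e9 => 0x25a249249249
  | .e14, .e10 => 0x240249249249
  | .e14, .e11 => 0x340249249249
  | .e14, .e12 => 0x2c0249249249
  | .e14, .e13 => 0x203249249249
  | .e14, .e14 => 0xdd249249
  | .e14, .e15 => 0x18105249249
  | .e15, .e0 => 0x1ad2492492c0
  | .e15, .e1 => 0x4db6c9248003
  | .e15, .e2 => 0x6db6daa404db
  | .e15, .e3 => 0x72296806b4db
  | .e15, .e4 => 0x9228c006c524
  | .e15, .e5 => 0x6da6d31ab4db
  | .e15, .e6 => 0x6da6934db4da
  | .e15, .e7 => 0x92281b45b4e2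
  | .e15, .e8 => 0x8da80d46d522
  | .e15, .e9 => 0x6e068b45b6da
  | .e15, .e10 => 0x7002492492da
  | .e15, .e11 => 0xb0524924936a
  | .e15, .e12 => 0x6052492492da
  | .e15, .e13 => 0x249249249249
  | .e15, .e14 => 0x19249249240
  | .e15, .e15 => 0x1d249249368

/-- which certificate is used for a triple of edges -/
def code (a b c : Ed) : ℕ := (cd a b / 8 ^ ix c) % 8

/-- test for positivity -/
def ps : ℤ → Bool
  | .ofNat (_ + 1) => true
  | _ => false

/-- test for nonnegativity -/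
def nn : ℤ → Bool
  | .ofNat _ => true
  | .negSucc _ => false

theorem ps_sound {x : ℤ} (h : ps x = true) : 0 < x := by
  match x, h with
  | .ofNat (k + 1), _ => exact Int.natCast_pos.mpr (Nat.succ_pos k)
  | .ofNat 0, h => exact absurd h (by decide)
  | .negSucc _, h => exact absurd h (by simp [ps])

theorem nn_sound {x : ℤ} (h : nn x = true) : 0 ≤ x := by
  match x, h with
  | .ofNat k, _ => exact Int.natCast_nonneg k
  | .negSucc _, h => exact absurd h (by simp [nn])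

/-- the linear form `(a + b m) ex + (c + d m) ey` at a triple of vertices, all coefficients positive -/
def cor (a b c d : ℤ) (u v w : Ed) : Bool :=
  ps (a * (X0 w - X0 v + Y0 v - Y0 u) + c * (Y0 w - X0 v - Y0 v + X0 u)) &&
  nn (a * (X1 w - X1 v + Y1 v - Y1 u) + b * (X0 w - X0 v + Y0 v - Y0 u) +
    (c * (Y1 w - X1 v - Y1 v + X1 u) + d * (Y0 w - X0 v - Y0 v + X0 u))) &&
  nn (b * (X1 w - X1 v + Y1 v - Y1 u) + d * (Y1 w - X1 v - Y1 v + X1 u))

/-- the linear form is positive at all eight triples of end points -/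
def chk (a b c d : ℤ) (u v w : Ed) : Bool :=
  cor a b c d u v w && cor a b c d u v (nx w) && cor a b c d u (nx v) w &&
  cor a b c d u (nx v) (nx w) && cor a b c d (nx u) v w && cor a b c d (nx u) v (nx w) &&
  cor a b c d (nx u) (nx v) w && cor a b c d (nx u) (nx v) (nx w)

/-- the certificate with the given code is correct -/
def good (u v w : Ed) : ℕ → Bool
  | 1 => chk (X0 (nx u) - X0 u) (X1 (nx u) - X1 u) (Y0 (nx u) - Y0 u) (Y1 (nx u) - Y1 u) u v w
  | 2 => chk (Y0 w - Y0 (nx w)) (Y1 w - Y1 (nx w)) (X0 (nx w) - X0 w) (X1 (nx w) - X1 w) u v w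
  | 3 => chk (X0 v - X0 (nx v) + Y0 v - Y0 (nx v)) (X1 v - X1 (nx v) + Y1 v - Y1 (nx v))
      (X0 (nx v) - X0 v + Y0 v - Y0 (nx v)) (X1 (nx v) - X1 v + Y1 v - Y1 (nx v)) u v w
  | 4 => chk (X0 u - X0 (nx u)) (X1 u - X1 (nx u)) (Y0 u - Y0 (nx u)) (Y1 u - Y1 (nx u)) u v w
  | 5 => chk (Y0 (nx w) - Y0 w) (Y1 (nx w) - Y1 w) (X0 w - X0 (nx w)) (X1 w - X1 (nx w)) u v w
  | 6 => chk (X0 (nx v) - X0 v + Y0 (nx v) - Y0 v) (X1 (nx v) - X1 v + Y1 (nx v) - Y1 v)
      (X0 v - X0 (nx v) + Y0 (nx v) - Y0 v) (X1 v - X1 (nx v) + Y1 (nx v) - Y1 v) u v w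
  | _ => false

/-- all edges -/
def edges : List Ed :=
  [.e0, .e1, .e2, .e3, .e4, .e5, .e6, .e7, .e8, .e9, .e10, .e11, .e12, .e13, .e14, .e15]

theorem mem_edges (e : Ed) : e ∈ edges := by
  cases e <;> simp [edges]

/-- all certificates for a given first edge -/
def allgood (u : Ed) : Bool :=
  edges.all fun v => edges.all fun w => (code u v w == 0) || good u v w (code u v w)

theorem ag0 : allgood .e0 = true := by decide +kernel

theorem ag1 : allgood .e1 = true := by decide +kernel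

theorem ag2 : allgood .e2 = true := by decide +kernel

theorem ag3 : allgood .e3 = true := by decide +kernel

theorem ag4 : allgood .e4 = true := by decide +kernel

theorem ag5 : allgood .e5 = true := by decide +kernel

theorem ag6 : allgood .e6 = true := by decide +kernel

theorem ag7 : allgood .e7 = true := by decide +kernel

theorem ag8 : allgood .e8 = true := by decide +kernel

theorem ag9 : allgood .e9 = true := by decide +kernel

theorem ag10 : allgood .e10 = true := by decide +kernel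

theorem ag11 : allgood .e11 = true := by decide +kernel

theorem ag12 : allgood .e12 = true := by decide +kernel

theorem ag13 : allgood .e13 = true := by decide +kernel

theorem ag14 : allgood .e14 = true := by decide +kernel

theorem ag15 : allgood .e15 = true := by decide +kernel

theorem allgood_eq (u : Ed) : allgood u = true := by
  cases u
  · exact ag0
  · exact ag1
  · exact ag2
  · exact ag3
  · exact ag4
  · exact ag5
  · exact ag6
  · exact ag7
  · exact ag8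
  · exact ag9
  · exact ag10
  · exact ag11
  · exact ag12
  · exact ag13
  · exact ag14
  · exact ag15

theorem px_eq (m : ℝ) (e : Ed) : px m e = X0 e + X1 e * m := by
  cases e <;> simp [px, X0, X1, Int.negSucc_eq] <;> ring

theorem py_eq (m : ℝ) (e : Ed) : py m e = Y0 e + Y1 e * m := by
  cases e <;> simp [py, Y0, Y1, Int.negSucc_eq] <;> ring

theorem dx_eq (m : ℝ) (e : Ed) : dx m e = px m (nx e) - px m e := by
  cases e <;> simp only [px, dx, nx] <;> ring

theorem dy_eq (m : ℝ) (e : Ed) : dy m e = py m (nx e) - py m e := by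
  cases e <;> simp only [py, dy, nx] <;> ring

/-- the linear form -/
def lf (a b c d m x0 y0 x1 y1 x2 y2 : ℝ) : ℝ :=
  (a + b * m) * (x2 - x1 + y1 - y0) + (c + d * m) * (y2 - x1 - y1 + x0)

theorem cor_sound {a b c d : ℤ} {u v w : Ed} (h : cor a b c d u v w = true) {m : ℝ} (hm : 0 ≤ m) :
    0 < lf a b c d m (px m u) (py m u) (px m v) (py m v) (px m w) (py m w) := by
  simp only [cor, Bool.and_eq_true] at h
  obtain ⟨⟨h1, h2⟩, h3⟩ := h
  have k1 : (0 : ℝ) < ((a * (X0 w - X0 v + Y0 v - Y0 u) + c * (Y0 w - X0 v - Y0 v + X0 u) : ℤ) : ℝ) :=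
    Int.cast_pos.mpr (ps_sound h1)
  have k2 : (0 : ℝ) ≤ ((a * (X1 w - X1 v + Y1 v - Y1 u) + b * (X0 w - X0 v + Y0 v - Y0 u) +
    (c * (Y1 w - X1 v - Y1 v + X1 u) + d * (Y0 w - X0 v - Y0 v + X0 u)) : ℤ) : ℝ) :=
    Int.cast_nonneg (nn_sound h2)
  have k3 : (0 : ℝ) ≤ ((b * (X1 w - X1 v + Y1 v - Y1 u) + d * (Y1 w - X1 v - Y1 v + X1 u) : ℤ) : ℝ) :=
    Int.cast_nonneg (nn_sound h3)
  have k2' := mul_nonneg k2 hm
  have k3' := mul_nonneg k3 (mul_nonneg hm hm)
  have e : lf a b c d m (px m u) (py m u) (px m v) (py m v) (px m w) (py m w) =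
      ((a * (X0 w - X0 v + Y0 v - Y0 u) + c * (Y0 w - X0 v - Y0 v + X0 u) : ℤ) : ℝ) +
      ((a * (X1 w - X1 v + Y1 v - Y1 u) + b * (X0 w - X0 v + Y0 v - Y0 u) +
        (c * (Y1 w - X1 v - Y1 v + X1 u) + d * (Y0 w - X0 v - Y0 v + X0 u)) : ℤ) : ℝ) * m +
      ((b * (X1 w - X1 v + Y1 v - Y1 u) + d * (Y1 w - X1 v - Y1 v + X1 u) : ℤ) : ℝ) * (m * m) := by
    simp only [lf, px_eq, py_eq]
    push_cast
    ring
  rw [e]
  linarith

theorem aff {u v t : ℝ} (hu : 0 < u) (hv : 0 < v) (h0 : 0 ≤ t) (h1 : t ≤ 1) : 0 < u + t * (v - u) := by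
  rcases eq_or_lt_of_le h0 with rfl | h
  · simpa using hu
  · have : 0 ≤ (1 - t) * u := mul_nonneg (by linarith) hu.le
    have : 0 < t * v := mul_pos h hv
    linarith

theorem chk_sound {a b c d : ℤ} {u v w : Ed} (h : chk a b c d u v w = true) {m : ℝ} (hm : 0 ≤ m)
    {t0 t1 t2 : ℝ} (a0 : 0 ≤ t0) (b0 : t0 ≤ 1) (a1 : 0 ≤ t1) (b1 : t1 ≤ 1) (a2 : 0 ≤ t2) (b2 : t2 ≤ 1) :
    0 < lf a b c d m (px m u + t0 * dx m u) (py m u + t0 * dy m u) (px m v + t1 * dx m v)
      (py m v + t1 * dy m v) (px m w + t2 * dx m w) (py m w + t2 * dy m w) := by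
  simp only [chk, Bool.and_eq_true] at h
  obtain ⟨⟨⟨⟨⟨⟨⟨h000, h001⟩, h010⟩, h011⟩, h100⟩, h101⟩, h110⟩, h111⟩ := h
  have k00 := aff (cor_sound h000 hm) (cor_sound h001 hm) a2 b2
  have k01 := aff (cor_sound h010 hm) (cor_sound h011 hm) a2 b2
  have k10 := aff (cor_sound h100 hm) (cor_sound h101 hm) a2 b2
  have k11 := aff (cor_sound h110 hm) (cor_sound h111 hm) a2 b2
  have k0 := aff k00 k01 a1 b1
  have k1 := aff k10 k11 a1 b1
  have k := aff k0 k1 a0 b0
  refine lt_of_lt_of_eq k ?_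
  simp only [lf, dx_eq, dy_eq]
  ring

theorem good_sound {u v w : Ed} {k : ℕ} (h : good u v w k = true) {m : ℝ} (hm : 0 ≤ m)
    {t0 t1 t2 : ℝ} (a0 : 0 ≤ t0) (b0 : t0 ≤ 1) (a1 : 0 ≤ t1) (b1 : t1 ≤ 1) (a2 : 0 ≤ t2) (b2 : t2 ≤ 1)
    (hx : (px m w + t2 * dx m w) - (px m v + t1 * dx m v) + (py m v + t1 * dy m v) -
      (py m u + t0 * dy m u) = 0)
    (hy : (py m w + t2 * dy m w) - (px m v + t1 * dx m v) - (py m v + t1 * dy m v) +
      (px m u + t0 * dx m u) = 0) : False := by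
  have key : ∀ a b c d : ℤ, chk a b c d u v w = true → False := by
    intro a b c d hc
    have := chk_sound hc hm a0 b0 a1 b1 a2 b2
    simp only [lf] at this
    rw [hx, hy] at this
    simp at this
  match k, h with
  | 1, h => exact key _ _ _ _ h
  | 2, h => exact key _ _ _ _ h
  | 3, h => exact key _ _ _ _ h
  | 4, h => exact key _ _ _ _ h
  | 5, h => exact key _ _ _ _ h
  | 6, h => exact key _ _ _ _ h
  | 0, h => exact absurd h (by simp [good])
  | n + 7, h => exact absurd h (by simp [good])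

/-- triples with a certificate -/
theorem tripQ {i j k : Ed} (h : code i j k ≠ 0) {m : ℝ} (hm : 0 ≤ m) (l : Ed) : Q m i j k l := by
  intro t0 t1 t2 t3 a0 b0 a1 b1 a2 b2 a3 b3 h1 h2 h3 h4
  exfalso
  have hg := allgood_eq i
  simp only [allgood, List.all_eq_true] at hg
  have hg' := hg j (mem_edges j) k (mem_edges k)
  rw [Bool.or_eq_true] at hg'
  rcases hg' with hg' | hg'
  · exact h (by simpa using hg')
  · exact good_sound hg' hm a0 b0 a1 b1 a2 b2 (by linarith) (by linarith)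

end Six
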